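import Mathlib
import Pool.Agent.LGO.G.Defs
import Pool.Agent.LGO.H.Core
import Pool.Agent.LGO.U.BDef
import Pool.Agent.LGO.GM.Defs

/-!
# LGO/TG: definitions (the pair theorem for curves of any genus, note 3117)

`V ⊆ ℂⁿ` is a curve, `a`, `b` are two coordinates, `F`, `G` are polynomials in `n` variables with algebraic coefficients, `Φ = F / G`.

The certificate of a function is `GM.Wt` (`LGO/GM/Defs.lean`), used for `i = id`.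

`OneG V a b F G p q C E`: outside the finite set `E` the number `‖Φ‖ max(1, ‖x_a‖) ^ p` is at most `C max(1, ‖x_b‖) ^ q` (one-sided).
`TorG`: both inequalities with `p = q`: `p ((x_a)_∞ - (x_b)_∞)` is the divisor of `1 / Φ`.

`PtU`: what `OneG` says about the numbers `u = x_a`, `v = x_b`, `Φ` at all places.
`NearY`: what a function `Y` with its only pole at a point at infinity with `x_a = ∞`, `x_b = β`, `Φ x_a ^ p = κ` says about the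
numbers `u = x_a`, `v = x_b`, `Φ`, `y = Y(x)` at all places.
-/

namespace Pool.Agent.LGO.TG

open MvPolynomial Pool.Agent.Hhelper14.ZPL Pool.Agent.LGO Pool.Agent.LGO.U

variable {n : ℕ}

/-- `p (x_a)_∞` is at most `q (x_b)_∞` plus the divisor of `F / G` -/
structure OneG (V : Set (Fin n → ℂ)) (a b : Fin n) (F G : MvPolynomial (Fin n) Qb) (p q : ℕ)
    (C : ℝ) (E : Set (Fin n → ℂ)) : Prop where
  hp : 0 < p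
  fin : E.Finite
  neF : ∀ x ∈ V, x ∉ E → (aeval x F : ℂ) ≠ 0
  neG : ∀ x ∈ V, x ∉ E → (aeval x G : ℂ) ≠ 0
  up : ∀ x ∈ V, x ∉ E → ‖(aeval x F : ℂ)‖ * max 1 ‖x a‖ ^ p ≤
    C * (‖(aeval x G : ℂ)‖ * max 1 ‖x b‖ ^ q)

/-- `p (x_a)_∞ - p (x_b)_∞` is a principal divisor -/
def TorG (V : Set (Fin n → ℂ)) (a b : Fin n) (F G : MvPolynomial (Fin n) Qb) (p : ℕ) (C : ℝ)
    (E : Set (Fin n → ℂ)) : Prop :=
  OneG V a b F G p p C E ∧ OneG V b a G F p p C E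

/-- the consequences of `OneG` for `u = x_a`, `v = x_b`, `Φ = F(x) / G(x)` -/
structure PtU (p q : ℕ) (C : ℝ) (m : ℕ) (u v Φ : ℂ) : Prop where
  ne : Φ ≠ 0
  up : ∀ s : ℂ ≃+* ℂ, ‖s Φ‖ * max 1 ‖s u‖ ^ p ≤ C * max 1 ‖s v‖ ^ q
  fin : ∀ (l : ℕ) [Fact l.Prime] (φ : ℂ →+* ℂ_[l]),
    ‖(m : ℂ_[l])‖ * (‖φ Φ‖ * max 1 ‖φ u‖ ^ p) ≤ max 1 ‖φ v‖ ^ q

/-- the consequences of `NearG` for `u = x_a`, `v = x_b`, `Φ = F(x) / G(x)`, `y = Y(x)` -/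
structure NearY (p : ℕ) (κ β : ℂ) (C : ℝ) (m₁ m₀ : ℕ) (u v Φ y : ℂ) : Prop where
  arch : ∀ s : ℂ ≃+* ℂ, C ≤ ‖s y‖ → ‖s y‖ ≤ C * ‖s u‖ ^ m₁ ∧ ‖s v - s β‖ ^ m₁ * ‖s y‖ ≤ C ∧
    ‖s Φ * s u ^ p - s κ‖ ^ m₁ * ‖s y‖ ≤ C
  fin : ∀ (l : ℕ) [Fact l.Prime] (φ : ℂ →+* ℂ_[l]), 1 < ‖φ ((m₀ : ℂ) * y)‖ →
    ‖(m₀ : ℂ_[l])‖ * ‖φ y‖ ≤ ‖φ u‖ ^ m₁ ∧
    ‖(m₀ : ℂ_[l])‖ * (‖φ v - φ β‖ ^ m₁ * ‖φ y‖) ≤ 1 ∧
    ‖(m₀ : ℂ_[l])‖ * (‖φ Φ * φ u ^ p - φ κ‖ ^ m₁ * ‖φ y‖) ≤ 1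

/-- a function `Y` with its only pole at a point at infinity where `x_a = ∞`, `x_b = β`, and the value `κ` of `Φ x_a ^ p` there -/
structure NearG (V : Set (Fin n → ℂ)) (a b : Fin n) (F G : MvPolynomial (Fin n) Qb) (p : ℕ)
    (Y : MvPolynomial (Fin n) Qb) (κ β : ℂ) (C : ℝ) (m₁ m₀ : ℕ) (E : Set (Fin n → ℂ)) : Prop where
  algκ : IsAlgebraic ℚ κ
  algβ : IsAlgebraic ℚ β
  ne : κ ≠ 0
  fin : E.Finite
  nc : ∀ c : ℂ, ∃ x ∈ V, (aeval x Y : ℂ) ≠ c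
  h : ∀ x ∈ V, x ∉ E →
    NearY p κ β C m₁ m₀ (x a) (x b) (aeval x F / aeval x G : ℂ) (aeval x Y : ℂ)

end Pool.Agent.LGO.TG
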