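import Mathlib
import Pool.Agent.LGO.GM.FunF
import Pool.Agent.LGO.TG.Defs

/-!
# LGO/TG: the function field of `V`, the degree of a coordinate

`FunD V L ψ`: `L` is the field of rational functions on `V` with algebraic coefficients, `ψ k` the `k`-th coordinate (`exists_funQM`, `i = id`).
`HasDeg V a d`: for all but finitely many `c` there are exactly `d` points of `V` with `x_a = c`.
`RegAt k w x p`: `w` has poles only at the poles of `x`, of order at most `p` times the order of the pole of `x`.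
-/

namespace Pool.Agent.LGO.TG

open MvPolynomial Pool.Agent.Hhelper14.ZPL Pool.Agent.LGO Pool.Agent.LGO.GM

variable {n : ℕ}

/-- the field of rational functions -/
structure FunD (V : Set (Fin n → ℂ)) (L : Type) [Field L] [Algebra Qb L] (ψ : Fin n → L) :
    Prop where
  gen : IntermediateField.adjoin Qb (Set.range ψ) = ⊤
  dep : Dep Qb L
  zero : ∀ G : MvPolynomial (Fin n) Qb, aeval ψ G = 0 ↔ ∀ x ∈ V, (aeval x G : ℂ) = 0
  fin : ∀ G : MvPolynomial (Fin n) Qb, aeval ψ G ≠ 0 → {x ∈ V | (aeval x G : ℂ) = 0}.Finite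

theorem exists_funD {V : Set (Fin n → ℂ)} (hV : Pool.Agent.Hhelper14.ZPL.IsIrredClosed V)
    (hVk : KClosed V) (hdim : Pool.Agent.Hhelper14.ZPL.dim V = 1) :
    ∃ (L : Type) (_ : Field L) (_ : Algebra Qb L) (ψ : Fin n → L), FunD V L ψ := by
  obtain ⟨L, h1, h2, ψ, h3, h4, h5, h6⟩ := exists_funQM hV hVk hdim (id : Fin n → Fin n)
  exact ⟨L, h1, h2, ψ, h3, h4, h5, h6⟩

/-- the number of points of a general fibre of the coordinate `a` -/
def HasDeg (V : Set (Fin n → ℂ)) (a : Fin n) (d : ℕ) : Prop :=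
  {c : ℂ | ({x ∈ V | x a = c}).ncard ≠ d}.Finite

/-- `w` has poles at most at the poles of `x`, of order at most `p` times the order of `x` -/
def RegAt (k : Type) {L : Type} [Field k] [Field L] [Algebra k L] (w x : L) (p : ℕ) : Prop :=
  ∀ O : ValuationSubring L, Over k O → (x ∈ O → w ∈ O) ∧ (x ∉ O → w * (x⁻¹) ^ p ∈ O)

end Pool.Agent.LGO.TG
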