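import Mathlib
import Pool.Agent.LGO.G.Defs

/-!
# LGO/TG: the integral closure of `k[t]` as a `Setup`

PROOF (compare `LGO/G/SetupEx.lean`).  `k(t) = IntermediateField.adjoin k {t}`.  `L` is generated over `k(t)` by finitely many elements (`hgen`), algebraic over `k(t)` by `Dep`
(`ev2 t x P = 0`, `P ≠ 0`, is a nonzero polynomial over `k[t]` because `t` is transcendental), so `L` is finite dimensional over `k(t)`, of dimension `δ = Module.finrank k(t) L`.
`A` = the integral closure of `Algebra.adjoin k {t}` in `L`, as a subalgebra over `k` (for instance the set of the elements integral over `Algebra.adjoin k {t}`;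
`(integralClosure (Algebra.adjoin k {t}) L).restrictScalars k`).
`tA`: clear.  `int`: if `t ∈ O`, `Over k O`, then `O` contains `Algebra.adjoin k {t}` and is integrally closed in its fraction field `L`.
`b`: a basis of `L` over `k(t)` (`Module.finBasis`), multiplied by nonzero elements `q_j(t)`, `q_j ∈ k[X]`, so that all `b_j` are integral over `k[t]` (`x` is a root of a nonzero
polynomial over `k[t]` with leading coefficient `l`, `l x` is integral: `exists_integral_multiple` or `IsIntegral` of the leading coefficient times a root).
`indep`: `∑ p_j(t) b_j = 0` implies that all `p_j(t) = 0` in `k(t)`, so `p_j = 0` (`Transcendental`).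
`span`: `x = ∑ (p_j(t) / q_j(t)) b_j` (every element of `k(t)` is a quotient of two values: `IntermediateField.mem_adjoin_simple_iff`), common denominator.
-/

namespace Pool.Agent.LGO.TG

open Polynomial Pool.Agent.LGO

variable {k L : Type} [Field k] [Field L] [Algebra k L]

/-- the value at `t` as an element of `k(t)` -/
private noncomputable def SetupI_phi (k : Type) {L : Type} [Field k] [Field L] [Algebra k L] (t : L) :
    k[X] →ₐ[k] IntermediateField.adjoin k {t} :=
  aeval (⟨t, IntermediateField.mem_adjoin_simple_self k t⟩ : IntermediateField.adjoin k {t})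

private theorem SetupI_phi_coe (t : L) (p : k[X]) :
    ((SetupI_phi k t p : IntermediateField.adjoin k {t}) : L) = aeval t p := by
  have h := Polynomial.aeval_algHom_apply (IntermediateField.adjoin k {t}).val
    (⟨t, IntermediateField.mem_adjoin_simple_self k t⟩ : IntermediateField.adjoin k {t}) p
  exact h.symm

private theorem SetupI_phi_inj {t : L} (ht : Transcendental k t) :
    Function.Injective (SetupI_phi k t) := by
  rw [injective_iff_map_eq_zero]
  intro p hp
  by_contra hp0
  apply ht
  refine ⟨p, hp0, ?_⟩
  rw [← SetupI_phi_coe, hp]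
  rfl

private theorem SetupI_int (hdep : Dep k L) {t : L} (ht : Transcendental k t) (x : L) :
    IsIntegral (IntermediateField.adjoin k {t}) x := by
  obtain ⟨P, hP, hev⟩ := hdep t x
  rw [← isAlgebraic_iff_isIntegral]
  refine ⟨P.map (SetupI_phi k t).toRingHom,
    (Polynomial.map_ne_zero_iff (SetupI_phi_inj ht)).2 hP, ?_⟩
  rw [Polynomial.aeval_def, Polynomial.eval₂_map]
  have h3 : (algebraMap (IntermediateField.adjoin k {t}) L).comp (SetupI_phi k t).toRingHom =
      (aeval t : k[X] →ₐ[k] L).toRingHom := by
    refine RingHom.ext fun q => ?_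
    exact SetupI_phi_coe t q
  rw [h3]
  exact hev

theorem finite_adj (hdep : Dep k L) {n : ℕ} (ψ : Fin n → L)
    (hgen : IntermediateField.adjoin k (Set.range ψ) = ⊤) {t : L} (ht : Transcendental k t) :
    FiniteDimensional (IntermediateField.adjoin k {t}) L := by
  set F := IntermediateField.adjoin k {t} with hF
  have h1 : FiniteDimensional F (IntermediateField.adjoin F (Set.range ψ)) :=
    IntermediateField.finiteDimensional_adjoin fun x _ => SetupI_int hdep ht x
  have h2 : IntermediateField.adjoin F (Set.range ψ) = ⊤ := by
    rw [eq_top_iff]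
    intro x _
    have h3 : IntermediateField.adjoin k (Set.range ψ) ≤
        (IntermediateField.adjoin F (Set.range ψ)).restrictScalars k := by
      rw [IntermediateField.adjoin_le_iff]
      exact IntermediateField.subset_adjoin F (Set.range ψ)
    rw [hgen] at h3
    exact h3 (IntermediateField.mem_top)
  rw [h2] at h1
  exact (IntermediateField.topEquiv (F := F) (E := L)).toLinearEquiv.finiteDimensional

theorem exists_setupI (hdep : Dep k L) {n : ℕ} (ψ : Fin n → L)
    (hgen : IntermediateField.adjoin k (Set.range ψ) = ⊤) {t : L} (ht : Transcendental k t) :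
    ∃ (A : Subalgebra k L) (b : Fin (Module.finrank (IntermediateField.adjoin k {t}) L) → L),
      Setup k A t (Module.finrank (IntermediateField.adjoin k {t}) L) b := by
  classical
  have hfd := finite_adj hdep ψ hgen ht
  let _ : Algebra k[X] L := (aeval t : k[X] →ₐ[k] L).toRingHom.toAlgebra
  let _ : Algebra k[X] (IntermediateField.adjoin k {t}) := (SetupI_phi k t).toRingHom.toAlgebra
  have hL : ∀ p : k[X], algebraMap k[X] L p = aeval t p := fun p => rfl
  have hK : ∀ p : k[X], algebraMap k[X] (IntermediateField.adjoin k {t}) p = SetupI_phi k t p :=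
    fun p => rfl
  have : IsScalarTower k[X] (IntermediateField.adjoin k {t}) L := by
    refine IsScalarTower.of_algebraMap_eq fun p => ?_
    rw [hL, hK, ← SetupI_phi_coe]
    rfl
  have : IsScalarTower k k[X] L := by
    refine IsScalarTower.of_algebraMap_eq fun c => ?_
    rw [hL, Polynomial.algebraMap_eq, aeval_C]
  have : FaithfulSMul k[X] (IntermediateField.adjoin k {t}) := by
    rw [faithfulSMul_iff_algebraMap_injective]
    exact SetupI_phi_inj ht
  have : IsFractionRing k[X] (IntermediateField.adjoin k {t}) := by
    refine IsFractionRing.of_field k[X] (IntermediateField.adjoin k {t}) fun z => ?_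
    obtain ⟨r, q, hrq⟩ := (IntermediateField.mem_adjoin_simple_iff k (z : L)).1 z.2
    refine ⟨r, q, ?_⟩
    apply Subtype.ext
    rw [hrq, hK, hK, IntermediateField.coe_div, SetupI_phi_coe, SetupI_phi_coe]
  obtain ⟨s, b, hb⟩ := FiniteDimensional.exists_is_basis_integral k[X]
    (IntermediateField.adjoin k {t}) L
  have hcard : Fintype.card s = Module.finrank (IntermediateField.adjoin k {t}) L :=
    (Module.finrank_eq_card_basis b).symm
  set e : s ≃ Fin (Module.finrank (IntermediateField.adjoin k {t}) L) :=
    Fintype.equivFinOfCardEq hcard with he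
  set b' := b.reindex e with hb'
  refine ⟨(integralClosure k[X] L).restrictScalars k, fun i => b' i, ht, ?_, ?_, ?_, ?_, ?_⟩
  · change IsIntegral k[X] t
    have h1 : IsIntegral k[X] (algebraMap k[X] L X) := isIntegral_algebraMap
    rwa [hL, aeval_X] at h1
  · intro i
    change IsIntegral k[X] (b' i)
    rw [hb', Module.Basis.reindex_apply]
    exact hb _
  · intro x hx O hO htO
    obtain ⟨P, hP, hPx⟩ : IsIntegral k[X] x := hx
    have hmem : ∀ p : k[X], aeval t p ∈ O := by
      intro p
      rw [Polynomial.aeval_eq_sum_range]
      refine O.toSubring.sum_mem fun i _ => ?_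
      rw [Algebra.smul_def]
      exact O.mul_mem _ _ (hO _) (O.toSubring.pow_mem htO i)
    let φ : k[X] →+* O := (aeval t : k[X] →ₐ[k] L).toRingHom.codRestrict O.toSubring hmem
    have hcomp : (algebraMap O L).comp φ = (aeval t : k[X] →ₐ[k] L).toRingHom := by
      refine RingHom.ext fun p => rfl
    have hxint : IsIntegral O x := by
      refine ⟨P.map φ, hP.map φ, ?_⟩
      rw [Polynomial.eval₂_map, hcomp]
      exact hPx
    obtain ⟨w, hw⟩ := IsIntegrallyClosed.isIntegral_iff.1 hxint
    rw [← hw]
    exact w.2
  · intro p hp
    have h1 : ∑ i, (SetupI_phi k t (p i)) • b' i = 0 := by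
      rw [← hp]
      refine Finset.sum_congr rfl fun i _ => ?_
      rw [Algebra.smul_def, ← SetupI_phi_coe]
      rfl
    have h2 := Fintype.linearIndependent_iff.1 b'.linearIndependent _ h1
    funext i
    exact SetupI_phi_inj ht ((h2 i).trans (map_zero _).symm)
  · intro x
    obtain ⟨q, hq⟩ := IsLocalization.exist_integer_multiples_of_finite (nonZeroDivisors k[X])
      (fun i => b'.repr x i)
    choose p hp using hq
    refine ⟨q, p, nonZeroDivisors.ne_zero q.2, ?_⟩
    have h1 : ∀ i, (aeval t (p i) : L) = aeval t (q : k[X]) * ((b'.repr x i : IntermediateField.adjoin k {t}) : L) := by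
      intro i
      have h2 := hp i
      rw [Algebra.smul_def, hK, hK] at h2
      have h3 := congrArg (fun z : IntermediateField.adjoin k {t} => (z : L)) h2
      simp only [IntermediateField.coe_mul, SetupI_phi_coe] at h3
      exact h3
    conv_lhs => rw [← b'.sum_repr x]
    rw [Finset.mul_sum]
    refine Finset.sum_congr rfl fun i _ => ?_
    rw [h1, Algebra.smul_def, mul_assoc]
    rfl

end Pool.Agent.LGO.TG
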