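import Mathlib
import Pool.Agent.LGO.TG.FunD
import Pool.Agent.LGO.TG.SetupI
import Pool.Agent.LGO.G.Res
import Pool.Agent.LGO.G.CertEx

/-!
# LGO/TG: the degree of a coordinate, lower bound

PROOF.  `k = Qb`, `t = ψ a` (transcendental, as in `DegU`), `K = k(t)`, `δ = [L : K]` finite (`finite_adj`), `K` has characteristic zero and is infinite.  `L = K(ψ_1, .., ψ_n)`.
(1) A primitive element of the form `θ = ∑ λ_k ψ_k`, `λ_k ∈ ℕ`: there are `δ` different `K`-embeddings of `L` into an algebraic closure of `K` (separable), they differ on `(ψ_k)`, so for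
`λ = (1, r, r ^ 2, ..)`, `r ∈ ℕ` outside a finite set, the `δ` images of `θ` are different, and the minimal polynomial of `θ` over `K` has degree `δ`.
`f ∈ k[T][Y]` of degree `δ` with `ev2 t θ f = 0` (clear denominators in the minimal polynomial), `l = f.leadingCoeff ≠ 0`.  `f` and its derivative in `Y` are coprime over `K`, so there are
`U, W ∈ k[T][Y]` and `g ∈ k[T]`, `g ≠ 0` with `U f + W f' = g`.  For every `k` a polynomial `R_k ∈ k[T][Y]`, `R_k ≠ 0`, with `ev2 t (ψ k) R_k = 0` (`Dep`), leading coefficient `l_k ≠ 0`.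
(2) Choose `c ∈ k` outside the finitely many zeros of `l`, `g`, `l_1, .., l_n` and outside the finite set of `HasDeg` (`k` is infinite).  `f(c, Y) ∈ k[Y]` has degree `δ` and is
separable, `k` is algebraically closed, so it has `δ` different roots `y` in `k`.
(3) For each root `y` there is a point `x ∈ V` with `x_a = c`, `θ(x) = y`.  If `g' ∈ k[T][Y]` and `ev2 t θ g' = 0` then `l ^ N g' = h f + r` with `natDegree r < δ` (pseudo division), `ev2 t θ r = 0`, so
`r = 0`, and `l(c) ^ N g'(c, y) = 0`, `g'(c, y) = 0`.  So in the ring `k[t, θ] = Algebra.adjoin k {t, θ}` the ideal generated by `t - c`, `θ - y` is proper, and there is a valuation subring `O ⊇ k[t, θ]` with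
`v(t - c) < 1`, `v(θ - y) < 1` (`LocalSubring.exists_le_valuationSubring` as in `cert_or_place`, `LGO/G/CertEx.lean`; if `1 = A (t - c) + B (θ - y)` with `A, B ∈ k[t, θ]`, evaluate at `(c, y)`).
`Over k O`.  `ψ_k ∈ O`: `l_k(c) ≠ 0`, so `v(l_k(t)) = 1` and `ψ_k` is integral over `O`.  `(t - c)⁻¹ ∉ O`, so `exists_res` gives `x_k ∈ k` with `v(ψ_k - x_k) < 1`.  If `aeval ψ G = 0` then `G(x) = 0` (`v(G(ψ) - G(x)) < 1`, and a
nonzero constant has `v = 1`), so `x ∈ V` (`hmem`: `V` is the set of zeros of these `G`).  `x_a = c` and `θ(x) = y` (`res_unique`).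
(4) The `δ` points are different (`θ(x) = y`), the fibre is finite (`FunD.fin` for `X a - C c`), it has `d` elements: `δ ≤ d`.
-/

namespace Pool.Agent.LGO.TG

section aux

open Polynomial

variable {k L : Type} [Field k] [Field L] [Algebra k L]

/-- the residue of `z` at `O` is `r` -/
private def DegL_Res (O : ValuationSubring L) (z : L) (r : k) : Prop :=
  O.valuation (z - algebraMap k L r) < 1

private theorem DegL_mem {O : ValuationSubring L} (hO : Over k O) {z : L} {r : k}
    (h : DegL_Res O z r) : z ∈ O := by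
  have h1 : z - algebraMap k L r ∈ O := (O.valuation_le_one_iff _).1 (le_of_lt h)
  have h2 := O.add_mem _ _ h1 (hO r)
  rwa [sub_add_cancel] at h2

private theorem DegL_const (O : ValuationSubring L) (r : k) :
    DegL_Res O (algebraMap k L r) r := by
  unfold DegL_Res
  rw [sub_self, map_zero]
  exact zero_lt_one

private theorem DegL_add {O : ValuationSubring L} {z z' : L} {r r' : k}
    (h : DegL_Res O z r) (h' : DegL_Res O z' r') : DegL_Res O (z + z') (r + r') := by
  unfold DegL_Res at *
  have h1 : z + z' - algebraMap k L (r + r') =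
      (z - algebraMap k L r) + (z' - algebraMap k L r') := by
    rw [map_add]
    ring
  rw [h1]
  exact O.valuation.map_add_lt h h'

private theorem DegL_mul {O : ValuationSubring L} (hO : Over k O) {z z' : L} {r r' : k}
    (h : DegL_Res O z r) (h' : DegL_Res O z' r') : DegL_Res O (z * z') (r * r') := by
  have hz' := DegL_mem hO h'
  unfold DegL_Res at *
  have h1 : z * z' - algebraMap k L (r * r') =
      (z - algebraMap k L r) * z' + algebraMap k L r * (z' - algebraMap k L r') := by
    rw [map_mul]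
    ring
  rw [h1]
  refine O.valuation.map_add_lt ?_ ?_
  · rw [map_mul]
    have h2 : O.valuation z' ≤ 1 := (O.valuation_le_one_iff _).2 hz'
    calc O.valuation (z - algebraMap k L r) * O.valuation z'
        ≤ O.valuation (z - algebraMap k L r) * 1 := mul_le_mul_right h2 _
      _ = O.valuation (z - algebraMap k L r) := mul_one _
      _ < 1 := h
  · rw [map_mul]
    have h2 : O.valuation (algebraMap k L r) ≤ 1 := (O.valuation_le_one_iff _).2 (hO r)
    calc O.valuation (algebraMap k L r) * O.valuation (z' - algebraMap k L r')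
        ≤ 1 * O.valuation (z' - algebraMap k L r') := mul_le_mul_left h2 _
      _ = O.valuation (z' - algebraMap k L r') := one_mul _
      _ < 1 := h'

private theorem DegL_zero {O : ValuationSubring L} (hO : Over k O) {r : k}
    (h : DegL_Res O 0 r) : r = 0 := by
  have h1 : DegL_Res O (0 : L) (0 : k) := by
    have := DegL_const O (0 : k)
    rwa [map_zero] at this
  exact res_unique hO h h1

private theorem DegL_poly {O : ValuationSubring L} (hO : Over k O) {z : L} {r : k}
    (h : DegL_Res O z r) (p : k[X]) : DegL_Res O (aeval z p) (p.eval r) := by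
  induction p using Polynomial.induction_on' with
  | add p q hp hq =>
    rw [map_add, eval_add]
    exact DegL_add hp hq
  | monomial m c =>
    induction m with
    | zero =>
      rw [monomial_zero_left, aeval_C, eval_C]
      exact DegL_const O c
    | succ m ih =>
      have h1 : monomial (m + 1) c = monomial m c * X := by
        rw [monomial_mul_X]
      rw [h1, map_mul, aeval_X, eval_mul, eval_X]
      exact DegL_mul hO ih h

private theorem DegL_ev2_add (t x : L) (P Q : k[X][X]) :
    ev2 t x (P + Q) = ev2 t x P + ev2 t x Q :=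
  Polynomial.eval₂_add _ _

private theorem DegL_ev2_sub (t x : L) (P Q : k[X][X]) :
    ev2 t x (P - Q) = ev2 t x P - ev2 t x Q :=
  Polynomial.eval₂_sub _

private theorem DegL_ev2_mul (t x : L) (P Q : k[X][X]) :
    ev2 t x (P * Q) = ev2 t x P * ev2 t x Q :=
  Polynomial.eval₂_mul _ _

private theorem DegL_ev2_C (t x : L) (p : k[X]) : ev2 t x (C p) = aeval t p :=
  Polynomial.eval₂_C _ _

private theorem DegL_ev2_X (t x : L) : ev2 t x (X : k[X][X]) = x :=
  Polynomial.eval₂_X _ _

private theorem DegL_ev2_pow (t x : L) (P : k[X][X]) (n : ℕ) :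
    ev2 t x (P ^ n) = ev2 t x P ^ n :=
  Polynomial.eval₂_pow _ _ _

/-- the value of a polynomial in two variables -/
private noncomputable def DegL_v (c y : k) (g : k[X][X]) : k :=
  (g.map (evalRingHom c)).eval y

private theorem DegL_res2 {O : ValuationSubring L} (hO : Over k O) {t θ : L} {c y : k}
    (h : DegL_Res O t c) (h' : DegL_Res O θ y) (g : k[X][X]) :
    DegL_Res O (ev2 t θ g) (DegL_v c y g) := by
  unfold DegL_v
  induction g using Polynomial.induction_on' with
  | add p q hp hq =>
    rw [DegL_ev2_add, Polynomial.map_add, eval_add]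
    exact DegL_add hp hq
  | monomial m p =>
    induction m with
    | zero =>
      rw [monomial_zero_left, DegL_ev2_C, Polynomial.map_C, eval_C]
      exact DegL_poly hO h p
    | succ m ih =>
      have h1 : monomial (m + 1) p = monomial m p * X := by
        rw [monomial_mul_X]
      rw [h1, DegL_ev2_mul, DegL_ev2_X, Polynomial.map_mul, Polynomial.map_X, eval_mul, eval_X]
      exact DegL_mul hO ih h'

private theorem DegL_mv {O : ValuationSubring L} (hO : Over k O) {n : ℕ} {ψ : Fin n → L}
    {x : Fin n → k} (h : ∀ j, DegL_Res O (ψ j) (x j)) (G : MvPolynomial (Fin n) k) :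
    DegL_Res O (MvPolynomial.aeval ψ G) (MvPolynomial.aeval x G) := by
  induction G using MvPolynomial.induction_on with
  | C r =>
    rw [MvPolynomial.aeval_C, MvPolynomial.aeval_C]
    exact DegL_const O r
  | add p q hp hq =>
    rw [map_add, map_add]
    exact DegL_add hp hq
  | mul_X p i hp =>
    rw [map_mul, map_mul, MvPolynomial.aeval_X, MvPolynomial.aeval_X]
    exact DegL_mul hO hp (h i)

/-- a nonzero function has only finitely many zeros -/
private theorem DegL_fin (hdep : Dep k L) (t : L) {η : L} (hη : η ≠ 0) :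
    {c : k | ∃ O : ValuationSubring L, Over k O ∧ DegL_Res O t c ∧
      O.valuation η < 1}.Finite := by
  obtain ⟨P, hP, hE⟩ := hdep t η
  obtain ⟨Q, hQ, hQd⟩ := Polynomial.exists_eq_pow_rootMultiplicity_mul_and_not_dvd P hP 0
  rw [C_0, sub_zero] at hQ hQd
  rw [X_dvd_iff] at hQd
  have hQE : ev2 t η Q = 0 := by
    rw [hQ, DegL_ev2_mul, DegL_ev2_pow, DegL_ev2_X] at hE
    exact (mul_eq_zero.1 hE).resolve_left (pow_ne_zero _ hη)
  classical
  refine (Q.coeff 0).roots.toFinset.finite_toSet.subset ?_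
  rintro c ⟨O, hO, hc, hv⟩
  have h0 : DegL_Res O η (0 : k) := by
    unfold DegL_Res
    rwa [map_zero, sub_zero]
  have h1 := DegL_res2 hO hc h0 Q
  rw [hQE] at h1
  have h2 := DegL_zero hO h1
  unfold DegL_v at h2
  rw [← coeff_zero_eq_eval_zero, coeff_map, coe_evalRingHom] at h2
  rw [Finset.mem_coe, Multiset.mem_toFinset, mem_roots hQd]
  exact h2

private theorem DegL_adjoin {t θ : L} {x : L} (hx : x ∈ Algebra.adjoin k ({t, θ} : Set L)) :
    ∃ g : k[X][X], ev2 t θ g = x := by
  induction hx using Algebra.adjoin_induction with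
  | mem x hx =>
    simp only [Set.mem_insert_iff, Set.mem_singleton_iff] at hx
    rcases hx with hx | hx
    · exact ⟨C X, by rw [DegL_ev2_C, aeval_X, hx]⟩
    · exact ⟨X, by rw [DegL_ev2_X, hx]⟩
  | algebraMap c => exact ⟨C (C c), by rw [DegL_ev2_C, aeval_C]⟩
  | add x y _ _ hx hy =>
    obtain ⟨g, rfl⟩ := hx
    obtain ⟨g', rfl⟩ := hy
    exact ⟨g + g', DegL_ev2_add _ _ _ _⟩
  | mul x y _ _ hx hy =>
    obtain ⟨g, rfl⟩ := hx
    obtain ⟨g', rfl⟩ := hy
    exact ⟨g * g', DegL_ev2_mul _ _ _ _⟩

/-- a place over a point of the plane curve -/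
private theorem DegL_place {t θ : L} {c y : k}
    (h : ∀ g : k[X][X], ev2 t θ g = 0 → DegL_v c y g = 0) :
    ∃ O : ValuationSubring L, Over k O ∧ DegL_Res O t c ∧ DegL_Res O θ y := by
  set R : Subalgebra k L := Algebra.adjoin k ({t, θ} : Set L) with hR
  have htR : t - algebraMap k L c ∈ R.toSubring :=
    R.sub_mem (Algebra.subset_adjoin (by simp)) (R.algebraMap_mem c)
  have hθR : θ - algebraMap k L y ∈ R.toSubring :=
    R.sub_mem (Algebra.subset_adjoin (by simp)) (R.algebraMap_mem y)
  set I : Ideal R.toSubring := Ideal.span {(⟨t - algebraMap k L c, htR⟩ : R.toSubring),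
    ⟨θ - algebraMap k L y, hθR⟩} with hI
  have htop : I ≠ ⊤ := by
    intro htop
    have h1 : (1 : R.toSubring) ∈ I := by
      rw [htop]
      exact Submodule.mem_top
    rw [hI, Ideal.mem_span_pair] at h1
    obtain ⟨a, b, hab⟩ := h1
    have hab' : (a : L) * (t - algebraMap k L c) + (b : L) * (θ - algebraMap k L y) = 1 :=
      congrArg Subtype.val hab
    obtain ⟨a', ha'⟩ := DegL_adjoin (k := k) (x := (a : L)) a.2
    obtain ⟨b', hb'⟩ := DegL_adjoin (k := k) (x := (b : L)) b.2
    have h2 := h (C 1 - a' * C (X - C c) - b' * (X - C (C y))) (by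
      rw [DegL_ev2_sub, DegL_ev2_sub, DegL_ev2_mul, DegL_ev2_mul, DegL_ev2_sub, DegL_ev2_X,
        DegL_ev2_C, DegL_ev2_C, DegL_ev2_C, map_sub, aeval_X, aeval_C, aeval_C, map_one, ha', hb']
      linear_combination -hab')
    unfold DegL_v at h2
    simp at h2
  obtain ⟨O, hO, hIO⟩ := Ideal.image_subset_nonunits_valuationSubring I htop
  refine ⟨O, ?_, ?_, ?_⟩
  · intro c
    exact hO (R.algebraMap_mem c)
  · have h1 : t - algebraMap k L c ∈ O.nonunits := hIO ⟨⟨_, htR⟩, Ideal.subset_span (by simp), rfl⟩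
    exact (ValuationSubring.mem_nonunits_iff (A := O)).mp h1
  · have h1 : θ - algebraMap k L y ∈ O.nonunits := hIO ⟨⟨_, hθR⟩, Ideal.subset_span (by simp), rfl⟩
    exact (ValuationSubring.mem_nonunits_iff (A := O)).mp h1

/-- pseudo division by the minimal relation -/
private theorem DegL_div {t θ : L} {f : k[X][X]} (hf : f ≠ 0) (hev : ev2 t θ f = 0)
    (hmin : ∀ g : k[X][X], g ≠ 0 → ev2 t θ g = 0 → f.natDegree ≤ g.natDegree) {c y : k}
    (hl : f.leadingCoeff.eval c ≠ 0) (hy : DegL_v c y f = 0) :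
    ∀ (N : ℕ) (g : k[X][X]), g.degree < (N : WithBot ℕ) → ev2 t θ g = 0 → DegL_v c y g = 0 := by
  intro N
  induction N with
  | zero =>
    intro g hg _
    have h1 : g = 0 := by
      rw [← degree_eq_bot]
      exact Nat.WithBot.lt_zero_iff.mp hg
    rw [h1, DegL_v, Polynomial.map_zero, eval_zero]
  | succ N ih =>
    intro g hg hge
    by_cases hg0 : g = 0
    · rw [hg0, DegL_v, Polynomial.map_zero, eval_zero]
    have hd := hmin g hg0 hge
    have hl0 : f.leadingCoeff ≠ 0 := leadingCoeff_ne_zero.2 hf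
    have hgl : g.leadingCoeff ≠ 0 := leadingCoeff_ne_zero.2 hg0
    have h1 : (C f.leadingCoeff * g).degree = g.degree := by
      rw [degree_mul, degree_C hl0, zero_add]
    have h2 : (C g.leadingCoeff * X ^ (g.natDegree - f.natDegree) * f).degree = g.degree := by
      rw [degree_mul, degree_C_mul_X_pow _ hgl, degree_eq_natDegree hf, degree_eq_natDegree hg0]
      norm_cast
      omega
    have h3 : (C f.leadingCoeff * g - C g.leadingCoeff * X ^ (g.natDegree - f.natDegree) * f).degree
        < (C f.leadingCoeff * g).degree := by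
      apply degree_sub_lt_left
      · rw [h1, h2]
      · exact mul_ne_zero (C_ne_zero.2 hl0) hg0
      · rw [leadingCoeff_mul, leadingCoeff_mul, leadingCoeff_mul, leadingCoeff_C, leadingCoeff_C,
          leadingCoeff_X_pow, mul_one, mul_comm]
    rw [h1] at h3
    have h5 : g.degree ≤ ((N : ℕ) : WithBot ℕ) := by
      rw [degree_eq_natDegree hg0] at hg ⊢
      norm_cast at hg ⊢
      omega
    have h4 := ih _ (lt_of_lt_of_le h3 h5) (by
      rw [DegL_ev2_sub, DegL_ev2_mul, DegL_ev2_mul, hge, hev, mul_zero, mul_zero, sub_zero])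
    unfold DegL_v at h4 hy ⊢
    rw [Polynomial.map_sub, Polynomial.map_mul, Polynomial.map_mul, eval_sub, eval_mul, eval_mul,
      hy, mul_zero, sub_zero, Polynomial.map_C, eval_C] at h4
    exact (mul_eq_zero.1 h4).resolve_left hl

/-- the minimal relation -/
private theorem DegL_min (hdep : Dep k L) (t θ : L) : ∃ f : k[X][X], f ≠ 0 ∧ ev2 t θ f = 0 ∧
    ∀ g : k[X][X], g ≠ 0 → ev2 t θ g = 0 → f.natDegree ≤ g.natDegree := by
  let S : Set ℕ := {m | ∃ g : k[X][X], g ≠ 0 ∧ ev2 t θ g = 0 ∧ g.natDegree = m}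
  obtain ⟨P, hP, hE⟩ := hdep t θ
  have hS : S.Nonempty := ⟨P.natDegree, P, hP, hE, rfl⟩
  obtain ⟨f, hf, hfe, hfd⟩ := Nat.sInf_mem hS
  refine ⟨f, hf, hfe, fun g hg hge => ?_⟩
  rw [hfd]
  exact Nat.sInf_le ⟨g, hg, hge, rfl⟩

/-- the degree of a primitive element -/
private theorem DegL_rank {t θ : L} (ht : Transcendental k t)
    [FiniteDimensional (IntermediateField.adjoin k {t}) L]
    (hθ : IntermediateField.adjoin (IntermediateField.adjoin k {t}) {θ} = ⊤)
    {f : k[X][X]} (hf : f ≠ 0) (hfe : ev2 t θ f = 0) :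
    Module.finrank (IntermediateField.adjoin k {t}) L ≤ f.natDegree := by
  have htK : t ∈ IntermediateField.adjoin k {t} := IntermediateField.mem_adjoin_simple_self k t
  let τ : IntermediateField.adjoin k {t} := ⟨t, htK⟩
  let e : k[X] →+* IntermediateField.adjoin k {t} :=
    (aeval τ : k[X] →ₐ[k] IntermediateField.adjoin k {t}).toRingHom
  have he : ∀ p : k[X], algebraMap (IntermediateField.adjoin k {t}) L (e p) = aeval t p := by
    intro p
    have h1 := Polynomial.aeval_algebraMap_apply L τ p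
    exact h1.symm
  have hinj : Function.Injective e := by
    rw [injective_iff_map_eq_zero]
    intro p hp
    by_contra hp0
    refine ht ⟨p, hp0, ?_⟩
    rw [← he, hp, map_zero]
  have hF : f.map e ≠ 0 := by
    rwa [Ne, Polynomial.map_eq_zero_iff hinj]
  have hF0 : aeval θ (f.map e) = 0 := by
    rw [aeval_def, eval₂_map, ← hfe]
    unfold ev2
    congr 1
    ext p
    · simp [e]
    · simp [e, τ]
  have h1 := minpoly.degree_le_of_ne_zero (IntermediateField.adjoin k {t}) θ hF hF0
  have h2 := natDegree_le_natDegree h1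
  have h3 := IntermediateField.adjoin.finrank
    (IsIntegral.of_finite (IntermediateField.adjoin k {t}) θ)
  rw [hθ, IntermediateField.finrank_top'] at h3
  rw [h3]
  exact h2.trans (natDegree_map_le)

end aux

open MvPolynomial Pool.Agent.Hhelper14.ZPL Pool.Agent.LGO Pool.Agent.LGO.GM

variable {n : ℕ}

private theorem DegL_alg {L : Type} [Field L] [Algebra Qb L] {z : L}
    (hz : IsAlgebraic Qb z) : ∃ c : Qb, algebraMap Qb L c = z := by
  have h1 : IsIntegral Qb z := hz.isIntegral
  have h2 := minpoly.irreducible h1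
  have h3 := IsAlgClosed.degree_eq_one_of_irreducible Qb h2
  obtain ⟨c, hc⟩ := minpoly.mem_range_of_degree_eq_one Qb z h3
  exact ⟨c, hc⟩

theorem le_deg {V : Set (Fin n → ℂ)} {L : Type} [Field L] [Algebra Qb L] {ψ : Fin n → L}
    (h : FunD V L ψ) (hmem : ∀ x : Fin n → ℂ, (∀ G : MvPolynomial (Fin n) Qb,
      aeval ψ G = 0 → (aeval x G : ℂ) = 0) → x ∈ V)
    {a : Fin n} (hnc : ∀ c : ℂ, ∃ x ∈ V, x a ≠ c) {d : ℕ} (hd : HasDeg V a d) :
    Module.finrank (IntermediateField.adjoin Qb {ψ a}) L ≤ d := by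
  classical
  -- `t` is transcendental
  have htr : Transcendental Qb (ψ a) := by
    intro halg
    obtain ⟨c, hc⟩ := DegL_alg halg
    have h1 : aeval ψ (X a - C c : MvPolynomial (Fin n) Qb) = 0 := by
      rw [map_sub, aeval_X, aeval_C, hc, sub_self]
    obtain ⟨x, hx, hxa⟩ := hnc (c : ℂ)
    have h3 := (h.zero _).mp h1 x hx
    rw [map_sub, aeval_X, aeval_C, sub_eq_zero] at h3
    exact hxa h3
  have hfd : FiniteDimensional (IntermediateField.adjoin Qb {ψ a}) L :=
    finite_adj h.dep ψ h.gen htr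
  have hc0 : CharZero (IntermediateField.adjoin Qb {ψ a}) :=
    charZero_of_injective_algebraMap (algebraMap Qb (IntermediateField.adjoin Qb {ψ a})).injective
  obtain ⟨θ, hθ⟩ := Field.exists_primitive_element (IntermediateField.adjoin Qb {ψ a}) L
  obtain ⟨A, B, hB, hAB⟩ : ∃ A B : MvPolynomial (Fin n) Qb, aeval ψ B ≠ 0 ∧
      θ * aeval ψ B = aeval ψ A := by
    have h1 : θ ∈ IntermediateField.adjoin Qb (Set.range ψ) := by
      rw [h.gen]
      exact IntermediateField.mem_top
    rw [IntermediateField.mem_adjoin_range_iff] at h1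
    obtain ⟨A, B, hAB⟩ := h1
    by_cases hB : aeval ψ B = 0
    · refine ⟨0, 1, by rw [map_one]; exact one_ne_zero, ?_⟩
      rw [hAB, hB, div_zero, zero_mul, map_zero]
    · exact ⟨A, B, hB, by rw [hAB, div_mul_cancel₀ _ hB]⟩
  obtain ⟨f, hf, hfe, hmin⟩ := DegL_min h.dep (ψ a) θ
  have hrank := DegL_rank htr hθ hf hfe
  refine hrank.trans ?_
  have hfpos : f.natDegree ≠ 0 := by
    intro h0
    rw [Polynomial.eq_C_of_natDegree_eq_zero h0] at hf hfe
    rw [DegL_ev2_C] at hfe
    refine htr ⟨f.coeff 0, ?_, hfe⟩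
    intro h1
    rw [h1, map_zero] at hf
    exact hf rfl
  have hf' : Polynomial.derivative f ≠ 0 := by
    intro h0
    exact hfpos (Polynomial.derivative_eq_zero.1 h0)
  have hη : ev2 (ψ a) θ (Polynomial.derivative f) ≠ 0 := by
    intro h0
    exact absurd (hmin _ hf' h0) (not_le.2 (Polynomial.natDegree_derivative_lt hfpos))
  -- the bad values
  have hl0 : f.leadingCoeff ≠ 0 := Polynomial.leadingCoeff_ne_zero.2 hf
  have hcoe : Function.Injective (fun c : Qb => (c : ℂ)) := Subtype.coe_injective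
  have hS1 := f.leadingCoeff.roots.toFinset.finite_toSet
  have hS2 := DegL_fin h.dep (ψ a) hη
  have hS3 : ∀ j, {c : Qb | ∃ O : ValuationSubring L, Over Qb O ∧ DegL_Res O (ψ a) c ∧
      ψ j ∉ O}.Finite := by
    intro j
    by_cases hj : ψ j = 0
    · convert Set.finite_empty
      rw [Set.eq_empty_iff_forall_notMem]
      rintro c ⟨O, -, -, hO⟩
      rw [hj] at hO
      exact hO O.zero_mem
    · refine (DegL_fin h.dep (ψ a) (inv_ne_zero hj)).subset ?_
      rintro c ⟨O, hO, hc, hO'⟩
      refine ⟨O, hO, hc, ?_⟩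
      rw [map_inv₀]
      exact inv_lt_one_of_one_lt₀ (one_lt_of_notMem hO')
  have hS4 : {c : Qb | ∃ x ∈ V, (aeval x B : ℂ) = 0 ∧ x a = (c : ℂ)}.Finite := by
    have h1 := ((h.fin B hB).image (fun x => x a)).preimage (f := fun c : Qb => (c : ℂ))
      hcoe.injOn
    refine h1.subset ?_
    rintro c ⟨x, hx, hxB, hxa⟩
    exact ⟨x, ⟨hx, hxB⟩, hxa⟩
  have hS5 : {c : Qb | ({x ∈ V | x a = (c : ℂ)}).ncard ≠ d}.Finite := by
    have h1 := Set.Finite.preimage (f := fun c : Qb => (c : ℂ)) hcoe.injOn hd
    exact h1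
  have hinf : Infinite Qb := Infinite.of_injective ((↑) : ℕ → Qb) Nat.cast_injective
  obtain ⟨c, hc⟩ := ((((hS1.union hS2).union (Set.finite_iUnion hS3)).union hS4).union
    hS5).exists_notMem
  simp only [Set.mem_union, not_or, Set.mem_iUnion, not_exists] at hc
  obtain ⟨⟨⟨⟨hc1, hc2⟩, hc3⟩, hc4⟩, hc5⟩ := hc
  have hcl : f.leadingCoeff.eval c ≠ 0 := by
    intro h0
    apply hc1
    rw [Finset.mem_coe, Multiset.mem_toFinset, Polynomial.mem_roots hl0]
    exact h0
  set p : Polynomial Qb := f.map (Polynomial.evalRingHom c) with hp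
  have hpd : p.natDegree = f.natDegree :=
    Polynomial.natDegree_map_of_leadingCoeff_ne_zero _ hcl
  -- the places
  have hplace : ∀ y, p.eval y = 0 → ∃ O : ValuationSubring L, Over Qb O ∧
      DegL_Res O (ψ a) c ∧ DegL_Res O θ y := by
    intro y hy
    refine DegL_place fun g hg => ?_
    refine DegL_div hf hfe hmin hcl hy (g.natDegree + 1) g ?_ hg
    refine lt_of_le_of_lt Polynomial.degree_le_natDegree ?_
    exact_mod_cast Nat.lt_succ_self _
  have hsep : p.Separable := by
    rw [Polynomial.separable_def, Polynomial.isCoprime_iff_aeval_ne_zero_of_isAlgClosed Qb Qb]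
    intro y
    by_contra hcon
    push Not at hcon
    obtain ⟨h1, h2⟩ := hcon
    rw [Polynomial.coe_aeval_eq_eval] at h1 h2
    obtain ⟨O, hO, hOt, hOθ⟩ := hplace y h1
    apply hc2
    refine ⟨O, hO, hOt, ?_⟩
    have h3 := DegL_res2 hO hOt hOθ (Polynomial.derivative f)
    unfold DegL_v at h3
    rw [← Polynomial.derivative_map, ← hp, h2] at h3
    unfold DegL_Res at h3
    rwa [map_zero, sub_zero] at h3
  -- the points
  have hpoint : ∀ y, p.eval y = 0 → ∃ z : Fin n → Qb, (fun j => (z j : ℂ)) ∈ V ∧ z a = c ∧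
      y * aeval z B = aeval z A := by
    intro y hy
    obtain ⟨O, hO, hOt, hOθ⟩ := hplace y hy
    have hmem' : ∀ j, ψ j ∈ O := by
      intro j
      by_contra hj
      exact hc3 j ⟨O, hO, hOt, hj⟩
    have htc : ψ a - algebraMap Qb L c ≠ 0 := by
      intro h0
      rw [sub_eq_zero] at h0
      apply htr
      rw [h0]
      exact isAlgebraic_algebraMap _
    have htc' : (ψ a - algebraMap Qb L c)⁻¹ ∉ O := by
      intro h0
      rw [← O.valuation_le_one_iff, map_inv₀,
        inv_le_one₀ (zero_lt_iff.2 ((Valuation.ne_zero_iff _).2 htc))] at h0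
      exact absurd hOt (not_lt.2 h0)
    choose z hz using fun j => exists_res h.dep hO htc' (hmem' j)
    refine ⟨z, hmem _ fun G hG => ?_, res_unique hO (hz a) hOt, ?_⟩
    · have h1 := DegL_mv hO (ψ := ψ) (x := z) hz G
      rw [hG] at h1
      rw [aeval_coe, DegL_zero hO h1]
      rfl
    · have h1 := DegL_mul hO hOθ (DegL_mv hO (ψ := ψ) (x := z) hz B)
      have h2 := DegL_mv hO (ψ := ψ) (x := z) hz A
      rw [hAB] at h1
      exact res_unique hO h1 h2
  choose! z hzV hza hzB using hpoint
  have hfib : {x ∈ V | x a = (c : ℂ)}.Finite := by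
    have h1 := h.fin (X a - C c) (by
      rw [map_sub, aeval_X, aeval_C, sub_ne_zero]
      intro h0
      apply htr
      rw [h0]
      exact isAlgebraic_algebraMap _)
    refine h1.subset ?_
    rintro x ⟨hx, hxa⟩
    refine ⟨hx, ?_⟩
    rw [map_sub, aeval_X, aeval_C, hxa]
    exact sub_self _
  have hp0 : p ≠ 0 := hsep.ne_zero
  have hroot : ∀ y ∈ (p.roots.toFinset : Set Qb), p.eval y = 0 := by
    intro y hy
    rw [Finset.mem_coe, Multiset.mem_toFinset, Polynomial.mem_roots hp0] at hy
    exact hy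
  have hinj : Set.InjOn (fun y => (fun j => (z y j : ℂ) : Fin n → ℂ))
      (p.roots.toFinset : Set Qb) := by
    intro y hy y' hy' hyy
    have h1 : z y = z y' := by
      funext j
      exact hcoe (congrFun hyy j)
    have h2 := hzB y (hroot y hy)
    have h3 := hzB y' (hroot y' hy')
    rw [← h1, ← h2] at h3
    have h4 : aeval (z y) B ≠ 0 := by
      intro h0
      apply hc4
      refine ⟨fun j => (z y j : ℂ), hzV y (hroot y hy), ?_, ?_⟩
      · rw [aeval_coe, h0]
        rfl
      · show ((z y a : Qb) : ℂ) = (c : ℂ)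
        rw [hza y (hroot y hy)]
    exact (mul_right_cancel₀ h4 h3).symm
  have hcard : (p.roots.toFinset : Set Qb).ncard = f.natDegree := by
    rw [Set.ncard_coe_finset, Multiset.toFinset_card_of_nodup (Polynomial.nodup_roots hsep),
      IsAlgClosed.card_roots_eq_natDegree, hpd]
  have hd' : ({x ∈ V | x a = (c : ℂ)}).ncard = d := by
    by_contra h0
    exact hc5 h0
  rw [← hcard, ← hd', ← hinj.ncard_image]
  refine Set.ncard_le_ncard ?_ hfib
  rintro x ⟨y, hy, rfl⟩
  refine ⟨hzV y (hroot y hy), ?_⟩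
  show ((z y a : Qb) : ℂ) = (c : ℂ)
  rw [hza y (hroot y hy)]

end Pool.Agent.LGO.TG
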