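import Mathlib
import Pool.Agent.LGO.TG.FunD
import Pool.Agent.LGO.TG.SetupI

/-!
# LGO/TG: the degree of a coordinate, upper bound

PROOF.  `δ = [L : k(t)]`, `t = ψ a` (transcendental: otherwise `ψ a` is a constant and `x_a` is constant on `V`, against `hnc`; `const_of_isAlgebraic`, `FunD.zero`), finite (`finite_adj`).
For `λ ∈ ℚ ^ n` (a countable set) let `θ_λ = ∑ λ_k ψ_k ∈ L`: it is a root of a nonzero polynomial over `k(t)` of degree at most `δ`, so there is `R_λ ∈ k[T][Y]`, `R_λ ≠ 0`, of degree at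
most `δ` with `ev2 t θ_λ R_λ = 0`.  By `FunD.zero`: `∑_j (R_λ)_j(x_a) θ_λ(x) ^ j = 0` for all `x ∈ V`.  The set `B_λ` of the `c ∈ ℂ` with `(R_λ).leadingCoeff(c) = 0` is finite.
Choose `c ∈ ℂ` outside the countable union of the `B_λ` and outside the finite set of `HasDeg` (`ℂ` is uncountable: `Set.Countable` and `not_countable` or `Cardinal`).  The fibre has `d`
points.  If `d > 0` it is a finite set `z_1, .., z_d` (`ncard > 0`), and there is `λ ∈ ℚ ^ n` with `θ_λ(z_i)` pairwise different (for each pair the bad `λ` satisfy a nontrivial linear equation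
over `ℂ`; take `λ = (1, r, r ^ 2, ..)`, `r ∈ ℕ`: for each pair a nonzero polynomial in `r`, finitely many bad `r`).  So the nonzero polynomial `R_λ(c, Y)` of degree at most `δ` has `d`
different roots: `d ≤ δ`.
-/

namespace Pool.Agent.LGO.TG

open MvPolynomial Pool.Agent.Hhelper14.ZPL Pool.Agent.LGO Pool.Agent.LGO.GM

variable {n : ℕ}

private theorem DegU_const {L : Type} [Field L] [Algebra Qb L] {z : L}
    (hz : IsAlgebraic Qb z) : ∃ c : Qb, algebraMap Qb L c = z := by
  have h1 : IsIntegral Qb z := hz.isIntegral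
  have h2 := minpoly.irreducible h1
  have h3 := IsAlgClosed.degree_eq_one_of_irreducible Qb h2
  obtain ⟨c, hc⟩ := minpoly.mem_range_of_degree_eq_one Qb z h3
  exact ⟨c, hc⟩

theorem DegU_trans {V : Set (Fin n → ℂ)} {L : Type} [Field L] [Algebra Qb L] {ψ : Fin n → L}
    (h : FunD V L ψ) {a : Fin n} (hnc : ∀ c : ℂ, ∃ x ∈ V, x a ≠ c) : Transcendental Qb (ψ a) := by
  intro halg
  obtain ⟨c, hc⟩ := DegU_const halg
  have h1 : aeval ψ (X a - C c : MvPolynomial (Fin n) Qb) = 0 := by
    rw [map_sub, aeval_X, aeval_C, hc, sub_self]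
  obtain ⟨x, hx, hxa⟩ := hnc (c : ℂ)
  have h3 := (h.zero _).1 h1 x hx
  rw [map_sub, aeval_X, aeval_C, sub_eq_zero] at h3
  exact hxa h3

/-- a relation of small degree -/
theorem DegU_rel {k L : Type} [Field k] [Field L] [Algebra k L] {t : L}
    [FiniteDimensional (IntermediateField.adjoin k {t}) L] (θ : L) :
    ∃ R : Polynomial (Polynomial k), R ≠ 0 ∧
      R.natDegree ≤ Module.finrank (IntermediateField.adjoin k {t}) L ∧ ev2 t θ R = 0 := by
  classical
  have hint : IsIntegral (IntermediateField.adjoin k {t}) θ := Algebra.IsIntegral.isIntegral θ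
  have hP : (minpoly (IntermediateField.adjoin k {t}) θ).Monic := minpoly.monic hint
  have hdeg := minpoly.natDegree_le (A := IntermediateField.adjoin k {t}) θ
  have hroot := minpoly.aeval (IntermediateField.adjoin k {t}) θ
  revert hP hdeg hroot
  generalize minpoly (IntermediateField.adjoin k {t}) θ = P
  intro hP hdeg hroot
  have hco : ∀ i, ∃ r s : Polynomial k, Polynomial.aeval t s ≠ 0 ∧
      ((P.coeff i : IntermediateField.adjoin k {t}) : L) * Polynomial.aeval t s =
        Polynomial.aeval t r := by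
    intro i
    obtain ⟨r, s, h⟩ := (IntermediateField.mem_adjoin_simple_iff k _).1 (P.coeff i).2
    by_cases hs : Polynomial.aeval t s = 0
    · refine ⟨0, 1, by simp, ?_⟩
      rw [h, hs]
      simp
    · refine ⟨r, s, hs, ?_⟩
      rw [h]
      field_simp
  choose r s hs hrs using hco
  set m := P.natDegree with hm
  have hprod : Polynomial.aeval t (∏ j ∈ Finset.range (m + 1), s j) ≠ 0 := by
    rw [map_prod]
    exact Finset.prod_ne_zero_iff.2 fun j _ => hs j
  obtain ⟨c, hc⟩ : ∃ c : ℕ → Polynomial k, ∀ i ∈ Finset.range (m + 1), Polynomial.aeval t (c i) =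
      ((P.coeff i : IntermediateField.adjoin k {t}) : L) *
        Polynomial.aeval t (∏ j ∈ Finset.range (m + 1), s j) := by
    refine ⟨fun i => r i * ∏ j ∈ (Finset.range (m + 1)).erase i, s j, fun i hi => ?_⟩
    rw [← Finset.mul_prod_erase _ _ hi, map_mul, map_mul, ← mul_assoc, hrs i]
  have hcoeff : (∑ i ∈ Finset.range (m + 1), Polynomial.C (c i) * Polynomial.X ^ i).coeff m =
      c m := by
    rw [Polynomial.finsetSum_coeff, Finset.sum_eq_single m]
    · simp
    · intro i _ him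
      rw [Polynomial.coeff_C_mul, Polynomial.coeff_X_pow, if_neg (Ne.symm him), mul_zero]
    · intro hmem
      exact absurd (Finset.mem_range.2 (Nat.lt_succ_self m)) hmem
  refine ⟨∑ i ∈ Finset.range (m + 1), Polynomial.C (c i) * Polynomial.X ^ i, ?_, ?_, ?_⟩
  · intro h0
    rw [h0, Polynomial.coeff_zero] at hcoeff
    have h1 := hc m (Finset.mem_range.2 (Nat.lt_succ_self m))
    have h2 : P.coeff m = 1 := hP.coeff_natDegree
    rw [← hcoeff, map_zero, h2] at h1
    simp only [IntermediateField.coe_one, one_mul] at h1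
    exact hprod h1.symm
  · refine (Polynomial.natDegree_sum_le_of_forall_le _ _ fun i hi => ?_).trans hdeg
    have h1 := Finset.mem_range.1 hi
    exact (Polynomial.natDegree_C_mul_X_pow_le _ _).trans (by omega)
  · have h1 : ev2 t θ (∑ i ∈ Finset.range (m + 1), Polynomial.C (c i) * Polynomial.X ^ i) =
        ∑ i ∈ Finset.range (m + 1), Polynomial.aeval t (c i) * θ ^ i := by
      unfold ev2
      rw [Polynomial.eval₂_finsetSum]
      refine Finset.sum_congr rfl fun i _ => ?_
      rw [Polynomial.eval₂_mul, Polynomial.eval₂_C, Polynomial.eval₂_pow, Polynomial.eval₂_X]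
      rfl
    rw [h1]
    have h2 : ∑ i ∈ Finset.range (m + 1), Polynomial.aeval t (c i) * θ ^ i =
        Polynomial.aeval t (∏ j ∈ Finset.range (m + 1), s j) * Polynomial.aeval θ P := by
      rw [Polynomial.aeval_eq_sum_range (p := P), Finset.mul_sum]
      refine Finset.sum_congr rfl fun i hi => ?_
      rw [hc i hi, Algebra.smul_def]
      show _ = _ * (((P.coeff i : IntermediateField.adjoin k {t}) : L) * θ ^ i)
      ring
    rw [h2, hroot, mul_zero]

/-- the relation on `V` -/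
theorem DegU_rel' {V : Set (Fin n → ℂ)} {L : Type} [Field L] [Algebra Qb L] {ψ : Fin n → L}
    (h : FunD V L ψ) {a : Fin n} (Θ : MvPolynomial (Fin n) Qb) {R : Polynomial (Polynomial Qb)}
    (hR : ev2 (ψ a) (aeval ψ Θ) R = 0) {x : Fin n → ℂ} (hx : x ∈ V) :
    (R.map (Polynomial.aeval (x a) : Polynomial Qb →ₐ[Qb] ℂ).toRingHom).eval (aeval x Θ) = 0 := by
  have key : ∀ {K : Type} [Field K] [Algebra Qb K] (y : Fin n → K),
      aeval y (R.eval₂ (Polynomial.aeval (X a : MvPolynomial (Fin n) Qb)).toRingHom Θ) =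
        R.eval₂ (Polynomial.aeval (y a) : Polynomial Qb →ₐ[Qb] K).toRingHom (aeval y Θ) := by
    intro K _ _ y
    have h1 := Polynomial.hom_eval₂ R
      ((Polynomial.aeval (X a : MvPolynomial (Fin n) Qb) : Polynomial Qb →ₐ[Qb] _).toRingHom)
      (aeval y : MvPolynomial (Fin n) Qb →ₐ[Qb] K).toRingHom Θ
    have h2 : (aeval y : MvPolynomial (Fin n) Qb →ₐ[Qb] K).toRingHom.comp
        ((Polynomial.aeval (X a : MvPolynomial (Fin n) Qb) : Polynomial Qb →ₐ[Qb] _).toRingHom) =
        (Polynomial.aeval (y a) : Polynomial Qb →ₐ[Qb] K).toRingHom := by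
      have h3 : (aeval y : MvPolynomial (Fin n) Qb →ₐ[Qb] K).comp
          (Polynomial.aeval (X a : MvPolynomial (Fin n) Qb) : Polynomial Qb →ₐ[Qb] _) =
          (Polynomial.aeval (y a) : Polynomial Qb →ₐ[Qb] K) := by
        apply Polynomial.algHom_ext
        simp
      exact congrArg AlgHom.toRingHom h3
    rw [h2] at h1
    exact h1
  have h1 := (h.zero (R.eval₂ (Polynomial.aeval (X a : MvPolynomial (Fin n) Qb)).toRingHom Θ)).1
    (by rw [key]; exact hR) x hx
  rw [key] at h1
  rw [Polynomial.eval_map]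
  exact h1

/-- a linear form with different values on a finite set -/
theorem DegU_sep (S : Finset (Fin n → ℂ)) :
    ∃ r : ℕ, Set.InjOn (fun z : Fin n → ℂ => ∑ k : Fin n, ((r : ℂ) ^ (k : ℕ)) * z k) S := by
  classical
  have hpair : ∀ z z' : Fin n → ℂ, z ≠ z' → {r : ℕ | ∑ k : Fin n, ((r : ℂ) ^ (k : ℕ)) * z k =
      ∑ k : Fin n, ((r : ℂ) ^ (k : ℕ)) * z' k}.Finite := by
    intro z z' hz
    let P : Polynomial ℂ := ∑ k : Fin n, Polynomial.C (z k - z' k) * Polynomial.X ^ (k : ℕ)
    have hP : P ≠ 0 := by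
      intro h0
      apply hz
      funext j
      have h1 := congrArg (fun Q => Polynomial.coeff Q (j : ℕ)) h0
      simp only [P, Polynomial.finsetSum_coeff, Polynomial.coeff_C_mul, Polynomial.coeff_X_pow,
        Polynomial.coeff_zero] at h1
      rw [Finset.sum_eq_single j] at h1
      · simpa [sub_eq_zero] using h1
      · intro k _ hkj
        rw [if_neg (fun he => hkj (Fin.ext he.symm)), mul_zero]
      · intro hj
        exact absurd (Finset.mem_univ j) hj
    have hfin : {c : ℂ | P.eval c = 0}.Finite := by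
      refine (P.roots.toFinset.finite_toSet).subset fun c hc => ?_
      rw [Finset.mem_coe, Multiset.mem_toFinset, Polynomial.mem_roots hP]
      exact hc
    refine (hfin.preimage (f := fun r : ℕ => (r : ℂ)) (Nat.cast_injective.injOn)).subset ?_
    intro r hr
    have hr' : ∑ k : Fin n, ((r : ℂ) ^ (k : ℕ)) * z k = ∑ k : Fin n, ((r : ℂ) ^ (k : ℕ)) * z' k := hr
    show P.eval (r : ℂ) = 0
    simp only [P, Polynomial.eval_finsetSum, Polynomial.eval_mul, Polynomial.eval_C,
      Polynomial.eval_pow, Polynomial.eval_X]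
    rw [← sub_eq_zero] at hr'
    rw [← hr', ← Finset.sum_sub_distrib]
    refine Finset.sum_congr rfl fun k _ => ?_
    ring
  have hbad : (⋃ p ∈ S ×ˢ S, {r : ℕ | p.1 ≠ p.2 ∧ ∑ k : Fin n, ((r : ℂ) ^ (k : ℕ)) * p.1 k =
      ∑ k : Fin n, ((r : ℂ) ^ (k : ℕ)) * p.2 k}).Finite := by
    refine Set.Finite.biUnion (S ×ˢ S).finite_toSet fun p _ => ?_
    by_cases hp : p.1 = p.2
    · refine Set.Finite.subset Set.finite_empty ?_
      rintro r ⟨h1, -⟩
      exact (h1 hp).elim
    · exact (hpair p.1 p.2 hp).subset fun r hr => hr.2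
  obtain ⟨r, hr⟩ := hbad.exists_notMem
  refine ⟨r, fun z hz z' hz' he => ?_⟩
  by_contra hne
  apply hr
  simp only [Set.mem_iUnion]
  exact ⟨(z, z'), Finset.mem_product.2 ⟨hz, hz'⟩, hne, he⟩

theorem deg_le {V : Set (Fin n → ℂ)} {L : Type} [Field L] [Algebra Qb L] {ψ : Fin n → L}
    (h : FunD V L ψ) {a : Fin n} (hnc : ∀ c : ℂ, ∃ x ∈ V, x a ≠ c) {d : ℕ}
    (hd : HasDeg V a d) :
    d ≤ Module.finrank (IntermediateField.adjoin Qb {ψ a}) L := by
  classical
  have htr := DegU_trans h hnc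
  have : FiniteDimensional (IntermediateField.adjoin Qb {ψ a}) L := finite_adj h.dep ψ h.gen htr
  rcases Nat.eq_zero_or_pos d with rfl | hpos
  · exact Nat.zero_le _
  -- the linear forms
  obtain ⟨Θ, hΘ⟩ : ∃ Θ : ℕ → MvPolynomial (Fin n) Qb,
      ∀ r, Θ r = ∑ k : Fin n, C ((r : Qb) ^ (k : ℕ)) * X k := ⟨_, fun _ => rfl⟩
  have hΘx : ∀ (r : ℕ) (x : Fin n → ℂ), (aeval x (Θ r) : ℂ) =
      ∑ k : Fin n, ((r : ℂ) ^ (k : ℕ)) * x k := by
    intro r x
    rw [hΘ, map_sum]
    refine Finset.sum_congr rfl fun k _ => ?_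
    rw [map_mul, aeval_C, aeval_X, map_pow, map_natCast]
  have hrel : ∀ r : ℕ, ∃ R : Polynomial (Polynomial Qb), R ≠ 0 ∧
      R.natDegree ≤ Module.finrank (IntermediateField.adjoin Qb {ψ a}) L ∧
      ev2 (ψ a) (aeval ψ (Θ r)) R = 0 := fun r => DegU_rel _
  choose R hR0 hRd hRe using hrel
  -- the bad values
  have hBfin : ∀ r : ℕ, {c : ℂ | (Polynomial.aeval c (R r).leadingCoeff : ℂ) = 0}.Finite := by
    intro r
    have h1 : (R r).leadingCoeff.map (algebraMap Qb ℂ) ≠ 0 :=
      (Polynomial.map_ne_zero_iff (algebraMap Qb ℂ).injective).2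
        (Polynomial.leadingCoeff_ne_zero.2 (hR0 r))
    refine (((R r).leadingCoeff.map (algebraMap Qb ℂ)).roots.toFinset.finite_toSet).subset
      fun c hc => ?_
    rw [Finset.mem_coe, Multiset.mem_toFinset, Polynomial.mem_roots h1, Polynomial.IsRoot.def,
      Polynomial.eval_map]
    exact hc
  have hcount : ((⋃ r, {c : ℂ | (Polynomial.aeval c (R r).leadingCoeff : ℂ) = 0}) ∪
      {c : ℂ | ({x ∈ V | x a = c}).ncard ≠ d}).Countable :=
    (Set.countable_iUnion fun r => (hBfin r).countable).union (Set.Finite.countable hd)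
  obtain ⟨c, hc⟩ : ∃ c : ℂ, c ∉ ((⋃ r, {c : ℂ | (Polynomial.aeval c (R r).leadingCoeff : ℂ) = 0}) ∪
      {c : ℂ | ({x ∈ V | x a = c}).ncard ≠ d}) := by
    by_contra hcon
    push Not at hcon
    have h1 : (Set.univ : Set ℂ).Countable := hcount.mono fun c _ => hcon c
    exact not_countable_complex h1
  rw [Set.mem_union, not_or] at hc
  obtain ⟨hc1, hc2⟩ := hc
  have hcard : ({x ∈ V | x a = c}).ncard = d := not_not.1 hc2
  have hlead : ∀ r, (Polynomial.aeval c (R r).leadingCoeff : ℂ) ≠ 0 := by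
    intro r h0
    exact hc1 (Set.mem_iUnion.2 ⟨r, h0⟩)
  have hfin : ({x ∈ V | x a = c}).Finite := Set.finite_of_ncard_pos (by rw [hcard]; exact hpos)
  obtain ⟨S, hS⟩ : ∃ S : Finset (Fin n → ℂ), (S : Set (Fin n → ℂ)) = {x ∈ V | x a = c} :=
    ⟨hfin.toFinset, hfin.coe_toFinset⟩
  have hSc : S.card = d := by rw [← hcard, ← hS, Set.ncard_coe_finset]
  obtain ⟨r, hr⟩ := DegU_sep S
  obtain ⟨Q, hQ⟩ : ∃ Q : Polynomial ℂ,
      Q = (R r).map (Polynomial.aeval c : Polynomial Qb →ₐ[Qb] ℂ).toRingHom := ⟨_, rfl⟩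
  have hQ0 : Q ≠ 0 := by
    intro h0
    apply hlead r
    have h1 := congrArg (fun P => Polynomial.coeff P (R r).natDegree) (hQ.symm.trans h0)
    simp only [Polynomial.coeff_map, Polynomial.coeff_zero] at h1
    exact h1
  have hQd : Q.natDegree ≤ Module.finrank (IntermediateField.adjoin Qb {ψ a}) L := by
    rw [hQ]
    exact Polynomial.natDegree_map_le.trans (hRd r)
  have hsub : S.image (fun z : Fin n → ℂ => ∑ k : Fin n, ((r : ℂ) ^ (k : ℕ)) * z k) ⊆
      Q.roots.toFinset := by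
    intro y hy
    obtain ⟨z, hz, rfl⟩ := Finset.mem_image.1 hy
    have hz' : z ∈ {x ∈ V | x a = c} := by rw [← hS]; exact hz
    rw [Multiset.mem_toFinset, Polynomial.mem_roots hQ0, Polynomial.IsRoot.def, hQ, ← hΘx]
    have h1 := DegU_rel' h (Θ r) (hRe r) hz'.1
    rw [hz'.2] at h1
    exact h1
  calc d = S.card := hSc.symm
    _ = (S.image (fun z : Fin n → ℂ => ∑ k : Fin n, ((r : ℂ) ^ (k : ℕ)) * z k)).card :=
      (Finset.card_image_of_injOn hr).symm
    _ ≤ Q.roots.toFinset.card := Finset.card_le_card hsub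
    _ ≤ Q.roots.card := Multiset.toFinset_card_le _
    _ ≤ Q.natDegree := Polynomial.card_roots' Q
    _ ≤ _ := hQd

end Pool.Agent.LGO.TG
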