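import Mathlib
import Pool.Agent.LGO.TG.FunD
import Pool.Agent.LGO.G.DimB
import Pool.Agent.LGO.G.Rank
import Pool.Agent.LGO.G.Res

/-!
# LGO/TG: a function with prescribed zeros at the poles of `y` (elementary Riemann-Roch)

PROOF (compare `exists_pole` in `LGO/G/Pole.lean`).  `Inf k x`, `Inf k y` are finite (`finite_inf`).  `s`: `b_j (x⁻¹) ^ s ∈ O` for all `j` and all `O ∈ Inf k x` (`exists_mul_pow_mem`).
For `O ∈ Inf k y` with `x ∈ O` let `c_O` be the residue of `x` (`exists_res`); `k` is infinite (algebraically closed): choose `c ∈ k` different from all of them, so `v_O(x - c) = 1` for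
these `O` (`res_unique`: otherwise `c` is the residue).  For `O ∈ Inf k x`: `v_O(x - c) = v_O(x)` (`valuation_aeval` for `X - C c`, degree one).
Let `d = δ' s + 1`, `p = d + s`, `q = p + 1`.  `W = Fin δ → Polynomial.degreeLT k (d + 1)`, of dimension `δ (d + 1)`, `θ : W →ₗ[k] L`, `θ(P) = (∑ P_j(x) b_j) ((x - c)⁻¹) ^ p`.
Values in every `O ∈ Inf k y`: if `x ∈ O` then `∑ P_j(x) b_j ∈ O` (`Setup.int`) and `(x - c)⁻¹ ∈ O`; if `x ∉ O` then `P_j(x) (x⁻¹) ^ d ∈ O`, `b_j (x⁻¹) ^ s ∈ O` and `(x / (x - c)) ^ p ∈ O`.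
`dim_bound` for the setup of `y` and `m = q`: `δ (d + 1) ≤ finrank (comap θ (BB k y q)) + δ' q`, and `δ (d + 1) - δ' q ≥ (d + 1) - δ' s > 0` (`δ ≥ δ' + 1`, `q = d + 1 + s`).  So there is
`P ≠ 0` in `W` with `θ(P) y ^ q ∈ O` for all `O ∈ Inf k y`.  `w = ∑ P_j(x) b_j ≠ 0` (`Setup.indep`).
`RegAt k w x p`: if `x ∈ O` then `w ∈ O` (`Setup.int`); if `x ∉ O` then `w (x⁻¹) ^ p ∈ O` (as above).
`RegAt k (w * y ^ q) x p`: if `y ∈ O` this follows from the first one.  If `y ∉ O`, `x ∈ O`: `w y ^ q = (θ(P) y ^ q) (x - c) ^ p ∈ O`.  If `y ∉ O`, `x ∉ O`: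
`w y ^ q (x⁻¹) ^ p = (θ(P) y ^ q) ((x - c) / x) ^ p ∈ O`.
-/

namespace Pool.Agent.LGO.TG

open Polynomial Pool.Agent.LGO

variable {k L : Type} [Field k] [Field L] [Algebra k L]

private theorem DimW_inv_mem {O : ValuationSubring L} {t : L} (ht : t ∉ O) : t⁻¹ ∈ O :=
  (O.mem_or_inv_mem t).resolve_left ht

private theorem DimW_ne_zero {O : ValuationSubring L} {t : L} (ht : t ∉ O) : t ≠ 0 := by
  rintro rfl
  exact ht O.zero_mem

private theorem DimW_mem_of_deg {O : ValuationSubring L} (hO : Over k O) {t : L} (ht : t ∉ O)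
    {p : k[X]} {D : ℕ} (hp : p.natDegree ≤ D) : (t⁻¹) ^ D * aeval t p ∈ O := by
  by_cases h0 : p = 0
  · rw [h0, map_zero, mul_zero]
    exact O.zero_mem
  rw [← O.valuation_le_one_iff, map_mul, map_pow, map_inv₀, valuation_aeval hO ht h0]
  have h1 : O.valuation t ≠ 0 := (Valuation.ne_zero_iff _).2 (DimW_ne_zero ht)
  have h2 : 1 ≤ O.valuation t := (one_lt_of_notMem ht).le
  have h3 : O.valuation t ^ p.natDegree ≤ O.valuation t ^ D := pow_le_pow_right₀ h2 hp
  rw [inv_pow]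
  calc (O.valuation t ^ D)⁻¹ * O.valuation t ^ p.natDegree
      ≤ (O.valuation t ^ D)⁻¹ * O.valuation t ^ D := by gcongr
    _ = 1 := inv_mul_cancel₀ (pow_ne_zero _ h1)

private theorem DimW_aeval_mem {A : Subalgebra k L} {t : L} (ht : t ∈ A) (p : k[X]) :
    aeval t p ∈ A := by
  rw [aeval_eq_sum_range]
  exact A.sum_mem fun i _ => A.smul_mem (A.pow_mem ht i) _

private theorem DimW_exists_c (hdep : Dep k L) {t : L} (hfin : (Inf k t).Finite) {δ : ℕ}
    (b : Fin δ → L) : ∃ c : ℕ, ∀ i, ∀ O' ∈ Inf k t, b i * (t⁻¹) ^ c ∈ O' := by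
  classical
  have hc : ∀ (i : Fin δ) (O' : ValuationSubring L), ∃ c : ℕ, (O' ∈ Inf k t →
      ∀ c', c ≤ c' → b i * (t⁻¹) ^ c' ∈ O') := by
    intro i O'
    by_cases h1 : O' ∈ Inf k t
    · obtain ⟨c, hc⟩ := exists_mul_pow_mem hdep h1.1 h1.2 (b i)
      exact ⟨c, fun _ => hc⟩
    · exact ⟨0, fun h => absurd h h1⟩
  choose c hc using hc
  refine ⟨Finset.univ.sup fun i => hfin.toFinset.sup (c i), fun i O' h1 => hc i O' h1 _ ?_⟩
  exact (Finset.le_sup (f := c i) (hfin.mem_toFinset.2 h1)).trans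
    (Finset.le_sup (f := fun i => hfin.toFinset.sup (c i)) (Finset.mem_univ i))

/-- a constant which is no residue of `x` -/
private theorem DimW_exists_const [IsAlgClosed k] (hdep : Dep k L) {x y : L}
    (hfin : (Inf k y).Finite) :
    ∃ c : k, ∀ O ∈ Inf k y, x ∈ O → O.valuation (x - algebraMap k L c) = 1 := by
  classical
  have h1 : ∀ O : ValuationSubring L, ∃ c : k, (O ∈ Inf k y → x ∈ O →
      O.valuation (x - algebraMap k L c) < 1) := by
    intro O
    by_cases h1 : O ∈ Inf k y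
    · by_cases h2 : x ∈ O
      · obtain ⟨c, hc⟩ := exists_res hdep h1.1 h1.2 h2
        exact ⟨c, fun _ _ => hc⟩
      · exact ⟨0, fun _ h => absurd h h2⟩
    · exact ⟨0, fun h => absurd h h1⟩
  choose r hr using h1
  haveI : Infinite k := IsAlgClosed.instInfinite
  obtain ⟨c, hc⟩ := Infinite.exists_notMem_finset (hfin.toFinset.image r)
  refine ⟨c, fun O hO hxO => ?_⟩
  have h2 : x - algebraMap k L c ∈ O := O.sub_mem hxO (hO.1 c)
  rw [← O.valuation_le_one_iff] at h2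
  refine le_antisymm h2 (not_lt.1 fun h3 => ?_)
  have h4 := res_unique hO.1 h3 (hr O hO hxO)
  exact hc (Finset.mem_image.2 ⟨O, hfin.mem_toFinset.2 hO, h4.symm⟩)

/-- at a pole of `x` the constant does not matter -/
private theorem DimW_val {O : ValuationSubring L} (hO : Over k O) {x : L} (hx : x ∉ O) (c : k) :
    O.valuation (x - algebraMap k L c) = O.valuation x := by
  have h1 := valuation_aeval hO hx (X_sub_C_ne_zero c)
  rw [map_sub, aeval_X, aeval_C, natDegree_X_sub_C, pow_one] at h1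
  exact h1

private theorem DimW_mem_of_eq {O : ValuationSubring L} {u v : L} (hv : v ≠ 0)
    (h : O.valuation u = O.valuation v) : u * v⁻¹ ∈ O := by
  rw [← O.valuation_le_one_iff, map_mul, map_inv₀, h,
    mul_inv_cancel₀ ((Valuation.ne_zero_iff _).2 hv)]

private theorem DimW_sum {O : ValuationSubring L} (hO : Over k O) {x : L} (hx : x ∉ O) {δ s d : ℕ}
    {b : Fin δ → L} (hb : ∀ i, b i * (x⁻¹) ^ s ∈ O) (P : Fin δ → degreeLT k (d + 1)) :
    (∑ i, aeval x (P i : k[X]) * b i) * (x⁻¹) ^ (d + s) ∈ O := by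
  have h1 : (∑ i, aeval x (P i : k[X]) * b i) * (x⁻¹) ^ (d + s) =
      ∑ i, ((x⁻¹) ^ d * aeval x (P i : k[X])) * (b i * (x⁻¹) ^ s) := by
    rw [pow_add, Finset.sum_mul]
    refine Finset.sum_congr rfl fun i _ => ?_
    ring
  rw [h1]
  refine O.toSubring.sum_mem fun i _ => ?_
  refine O.mul_mem _ _ (DimW_mem_of_deg hO hx ?_) (hb i)
  have h2 := (P i).2
  rw [mem_degreeLT] at h2
  by_cases h4 : (P i : k[X]) = 0
  · rw [h4, natDegree_zero]
    exact Nat.zero_le _
  · exact Nat.lt_succ_iff.1 ((natDegree_lt_iff_degree_lt h4).2 h2)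

theorem exists_w [IsAlgClosed k] (hdep : Dep k L) {x y : L} {A A' : Subalgebra k L} {δ δ' : ℕ}
    {b : Fin δ → L} {b' : Fin δ' → L} (hx : Setup k A x δ b) (hy : Setup k A' y δ' b')
    (hlt : δ' < δ) : ∃ (w : L) (p q : ℕ), w ≠ 0 ∧ 0 < p ∧ p < q ∧ RegAt k w x p ∧
      RegAt k (w * y ^ q) x p := by
  classical
  obtain ⟨s, hs⟩ := DimW_exists_c hdep (finite_inf hdep hx) b
  obtain ⟨c, hc⟩ := DimW_exists_const (x := x) hdep (finite_inf hdep hy)
  obtain ⟨d, hd⟩ : ∃ d : ℕ, d = δ' * s + 1 := ⟨_, rfl⟩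
  obtain ⟨p, hp⟩ : ∃ p : ℕ, p = d + s := ⟨_, rfl⟩
  have hxc : x - algebraMap k L c ≠ 0 := by
    intro h0
    have h1 := (transcendental_iff.1 hx.trans) (X - C c) (by rw [map_sub, aeval_X, aeval_C, h0])
    exact X_sub_C_ne_zero c h1
  -- the map
  let f : (Fin δ → degreeLT k (d + 1)) →ₗ[k] L :=
    { toFun := fun P => ∑ i, aeval x (P i : k[X]) * b i
      map_add' := by
        intro x y
        rw [← Finset.sum_add_distrib]
        refine Finset.sum_congr rfl fun i _ => ?_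
        simp [add_mul]
      map_smul' := by
        intro r x
        rw [RingHom.id_apply, Finset.smul_sum]
        refine Finset.sum_congr rfl fun i _ => ?_
        simp }
  have hfd : ∀ P, f P = ∑ i, aeval x (P i : k[X]) * b i := fun P => rfl
  let θ : (Fin δ → degreeLT k (d + 1)) →ₗ[k] L :=
    (LinearMap.mulLeft k (((x - algebraMap k L c)⁻¹) ^ p)) ∘ₗ f
  have hθa : ∀ P, θ P = ((x - algebraMap k L c)⁻¹) ^ p * f P := fun P => rfl
  have hfA : ∀ P, f P ∈ A := by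
    intro P
    rw [hfd]
    exact A.sum_mem fun i _ => A.mul_mem (DimW_aeval_mem hx.tA _) (hx.bA i)
  have hfp : ∀ P, ∀ O ∈ Inf k x, f P * (x⁻¹) ^ p ∈ O := by
    intro P O hO
    rw [hp, hfd]
    exact DimW_sum hO.1 hO.2 (fun i => hs i O hO) P
  have hθ : ∀ P, ∀ O ∈ Inf k y, θ P ∈ O := by
    intro P O hO
    rw [hθa]
    by_cases hxO : x ∈ O
    · refine O.mul_mem _ _ (O.toSubring.pow_mem ?_ _) (hx.int _ (hfA P) O hO.1 hxO)
      show (x - algebraMap k L c)⁻¹ ∈ O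
      rw [← O.valuation_le_one_iff, map_inv₀, hc O hO hxO, inv_one]
    · have hx0 := DimW_ne_zero hxO
      have h1 : ((x - algebraMap k L c)⁻¹) ^ p * f P =
          (f P * (x⁻¹) ^ p) * (x * (x - algebraMap k L c)⁻¹) ^ p := by
        have h2 : (x⁻¹) ^ p * x ^ p = 1 := by rw [← mul_pow, inv_mul_cancel₀ hx0, one_pow]
        rw [mul_pow]
        linear_combination (-((x - algebraMap k L c)⁻¹) ^ p * f P) * h2
      rw [h1]
      refine O.mul_mem _ _ (hfp P O ⟨hO.1, hxO⟩) (O.toSubring.pow_mem ?_ _)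
      exact DimW_mem_of_eq hxc (DimW_val hO.1 hxO c).symm
  have hdim := dim_bound hy θ hθ (p + 1)
  have hrank : Module.finrank k (Fin δ → degreeLT k (d + 1)) = δ * (d + 1) := by
    rw [Module.finrank_pi_fintype]
    have h1 : Module.finrank k (degreeLT k (d + 1)) = d + 1 := by
      rw [(degreeLTEquiv k (d + 1)).finrank_eq, Module.finrank_fin_fun]
    simp [h1]
  rw [hrank] at hdim
  have hpos : 0 < Module.finrank k (Submodule.comap θ (BB k y (p + 1))) := by
    have h1 : (δ' + 1) * (d + 1) ≤ δ * (d + 1) := Nat.mul_le_mul_right _ hlt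
    have h2 : (δ' + 1) * (d + 1) = δ' * (p + 1) + 2 := by
      rw [hp, hd]
      ring
    omega
  obtain ⟨P, hPm, hP1⟩ : ∃ P ∈ Submodule.comap θ (BB k y (p + 1)), P ≠ 0 := by
    refine Submodule.exists_mem_ne_zero_of_ne_bot fun h0 => ?_
    rw [h0, finrank_bot] at hpos
    exact lt_irrefl _ hpos
  have hP2 : ∀ O ∈ Inf k y, θ P * y ^ (p + 1) ∈ O := hPm
  have hw : f P ≠ 0 := by
    intro h0
    apply hP1
    have h1 := hx.indep (fun i => (P i : k[X])) h0
    funext i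
    exact Subtype.ext (congrFun h1 i)
  have hwx : RegAt k (f P) x p := fun O hO =>
    ⟨fun hxO => hx.int _ (hfA P) O hO hxO, fun hxO => hfp P O ⟨hO, hxO⟩⟩
  refine ⟨f P, p, p + 1, hw, by omega, by omega, hwx, fun O hO => ?_⟩
  by_cases hyO : y ∈ O
  · refine ⟨fun hxO => O.mul_mem _ _ ((hwx O hO).1 hxO) (O.toSubring.pow_mem hyO _), fun hxO => ?_⟩
    have h1 : f P * y ^ (p + 1) * (x⁻¹) ^ p = (f P * (x⁻¹) ^ p) * y ^ (p + 1) := by ring
    rw [h1]
    exact O.mul_mem _ _ ((hwx O hO).2 hxO) (O.toSubring.pow_mem hyO _)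
  · have h1 := hP2 O ⟨hO, hyO⟩
    rw [hθa] at h1
    have h2 : ((x - algebraMap k L c)⁻¹) ^ p * (x - algebraMap k L c) ^ p = 1 := by
      rw [← mul_pow, inv_mul_cancel₀ hxc, one_pow]
    constructor
    · intro hxO
      have h3 : f P * y ^ (p + 1) =
          (((x - algebraMap k L c)⁻¹) ^ p * f P * y ^ (p + 1)) * (x - algebraMap k L c) ^ p := by
        linear_combination (-(f P) * y ^ (p + 1)) * h2
      rw [h3]
      exact O.mul_mem _ _ h1 (O.toSubring.pow_mem (O.sub_mem hxO (hO c)) _)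
    · intro hxO
      have h3 : f P * y ^ (p + 1) * (x⁻¹) ^ p =
          (((x - algebraMap k L c)⁻¹) ^ p * f P * y ^ (p + 1)) *
            ((x - algebraMap k L c) * x⁻¹) ^ p := by
        rw [mul_pow]
        linear_combination (-(f P) * y ^ (p + 1) * (x⁻¹) ^ p) * h2
      rw [h3]
      exact O.mul_mem _ _ h1 (O.toSubring.pow_mem
        (DimW_mem_of_eq (DimW_ne_zero hxO) (DimW_val hO hxO c)) _)

end Pool.Agent.LGO.TG
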