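import Mathlib
import Pool.Agent.LGO.GM.Ultra

/-!
# LGO/TG: the place of a sequence, bounded functions

PROOF: the construction of `O` in `exists_ultraM` (`LGO/GM/Ultra.lean`): `O` consists of the elements whose values are bounded along the ultrafilter `hyperfilter ℕ`.  A function which
is bounded for all large `m` is bounded along the ultrafilter (first claim); a function whose norm tends to infinity is not (second claim, already proved there).
-/

namespace Pool.Agent.LGO.TG

open MvPolynomial Filter Topology Pool.Agent.Hhelper14.ZPL Pool.Agent.LGO Pool.Agent.LGO.GM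

variable {k₀ : ℕ}

theorem exists_ultraB {L : Type} [Field L] [Algebra Qb L] (ψ : Fin k₀ → L)
    (hgen : IntermediateField.adjoin Qb (Set.range ψ) = ⊤) (y : ℕ → Fin k₀ → ℂ)
    (h0 : ∀ D : MvPolynomial (Fin k₀) Qb, aeval ψ D = 0 → ∀ m, (aeval (y m) D : ℂ) = 0)
    (h1 : ∀ D : MvPolynomial (Fin k₀) Qb, aeval ψ D ≠ 0 → ∀ᶠ m in atTop, (aeval (y m) D : ℂ) ≠ 0) :
    ∃ O : ValuationSubring L, Over Qb O ∧
      (∀ (N D : MvPolynomial (Fin k₀) Qb) (B : ℝ), aeval ψ D ≠ 0 →
        (∀ᶠ m in atTop, ‖(aeval (y m) N / aeval (y m) D : ℂ)‖ ≤ B) →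
        aeval ψ N / aeval ψ D ∈ O) ∧
      ∀ N D : MvPolynomial (Fin k₀) Qb, aeval ψ D ≠ 0 →
        Tendsto (fun m => ‖(aeval (y m) N / aeval (y m) D : ℂ)‖) atTop atTop →
        aeval ψ N / aeval ψ D ∉ O := by
  obtain ⟨v, hv, hadd, hmul, hc⟩ := exists_valM ψ hgen y h0 h1
  set U : Ultrafilter ℕ := hyperfilter ℕ with hU
  have hle : (U : Filter ℕ) ≤ atTop := by
    rw [hU, ← Nat.cofinite_eq_atTop]
    exact hyperfilter_le_cofinite
  have ev : ∀ {p : ℕ → Prop}, (∀ᶠ m in atTop, p m) → ∀ᶠ m in (U : Filter ℕ), p m :=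
    fun h => hle h
  have hone : ∀ᶠ m in atTop, v 1 m = 1 := by
    have := hc 1
    rw [map_one] at this
    filter_upwards [this] with m hm
    rw [hm]; rfl
  have hzero : ∀ᶠ m in atTop, v 0 m = 0 := by
    have := hc 0
    rw [map_zero] at this
    filter_upwards [this] with m hm
    rw [hm]; rfl
  have hneg : ∀ a, ∀ᶠ m in atTop, v (-a) m = -v a m := by
    intro a
    have := hadd (-a) a
    rw [neg_add_cancel] at this
    filter_upwards [this, hzero] with m hm h0
    rw [h0] at hm
    exact eq_neg_of_add_eq_zero_left hm.symm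
  have hinv : ∀ a, a ≠ 0 → ∀ᶠ m in atTop, v a m * v a⁻¹ m = 1 := by
    intro a ha
    have := hmul a a⁻¹
    rw [mul_inv_cancel₀ ha] at this
    filter_upwards [this, hone] with m hm h0
    rw [← hm, h0]
  let O : ValuationSubring L :=
    { carrier := {x | ∃ C : ℝ, ∀ᶠ m in (U : Filter ℕ), ‖v x m‖ ≤ C}
      mul_mem' := by
        rintro a b ⟨C, hC⟩ ⟨C', hC'⟩
        refine ⟨C * C', ?_⟩
        filter_upwards [hC, hC', ev (hmul a b)] with m h1 h2 h3
        rw [h3, norm_mul]
        exact mul_le_mul h1 h2 (norm_nonneg _) ((norm_nonneg _).trans h1)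
      one_mem' := by
        refine ⟨1, ?_⟩
        filter_upwards [ev hone] with m h
        rw [h, norm_one]
      add_mem' := by
        rintro a b ⟨C, hC⟩ ⟨C', hC'⟩
        refine ⟨C + C', ?_⟩
        filter_upwards [hC, hC', ev (hadd a b)] with m h1 h2 h3
        rw [h3]
        exact (norm_add_le _ _).trans (add_le_add h1 h2)
      zero_mem' := by
        refine ⟨0, ?_⟩
        filter_upwards [ev hzero] with m h
        rw [h, norm_zero]
      neg_mem' := by
        rintro a ⟨C, hC⟩
        refine ⟨C, ?_⟩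
        filter_upwards [hC, ev (hneg a)] with m h1 h2
        rw [h2, norm_neg]
        exact h1
      mem_or_inv_mem' := by
        intro a
        by_cases ha : a = 0
        · left
          refine ⟨0, ?_⟩
          filter_upwards [ev hzero] with m h
          rw [ha, h, norm_zero]
        · rcases U.em (fun m => ‖v a m‖ ≤ 1) with h | h
          · exact Or.inl ⟨1, h⟩
          · refine Or.inr ⟨1, ?_⟩
            filter_upwards [h, ev (hinv a ha)] with m h1 h2
            have h3 : ‖v a m‖ * ‖v a⁻¹ m‖ = 1 := by rw [← norm_mul, h2, norm_one]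
            rw [not_le] at h1
            by_contra h4
            rw [not_le] at h4
            have : 1 < ‖v a m‖ * ‖v a⁻¹ m‖ := one_lt_mul_of_lt_of_le h1 h4.le
            linarith }
  have hO : ∀ x, x ∈ O ↔ ∃ C : ℝ, ∀ᶠ m in (U : Filter ℕ), ‖v x m‖ ≤ C := fun x => Iff.rfl
  have hinf : ∀ x, Tendsto (fun m => ‖v x m‖) atTop atTop → x ∉ O := by
    intro x hx hxO
    obtain ⟨C, hC⟩ := (hO x).1 hxO
    have h2 := ev (hx.eventually_gt_atTop C)
    obtain ⟨m, h3, h4⟩ := (hC.and h2).exists
    exact absurd h3 (not_le.2 h4)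
  refine ⟨O, ?_, ?_, ?_⟩
  · intro c
    rw [hO]
    refine ⟨‖(c : ℂ)‖, ?_⟩
    filter_upwards [ev (hc c)] with m h
    rw [h]
  · intro N D B hD hB
    rw [hO]
    refine ⟨B, ev ?_⟩
    filter_upwards [hv N D hD, hB] with m hm hm'
    rw [hm]
    exact hm'
  · intro N D hD hlim
    apply hinf
    refine hlim.congr' ?_
    filter_upwards [hv N D hD] with m hm
    rw [hm]

end Pool.Agent.LGO.TG
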