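import Mathlib
import Pool.Agent.LGO.TG.FunD
import Pool.Agent.LGO.TG.UltB

/-!
# LGO/TG: the inequality from the places

PROOF.  `w = N / D` (`ultra_repM`), `aeval ψ N ≠ 0`, `aeval ψ D ≠ 0`; `E` the points of `V` with `N(x) = 0` or `D(x) = 0`, a finite set; `F = N`, `G = D`.  Write `x_a`, `x_b` for the
coordinates.  Suppose that for every `m` there is `P m ∈ V`, `P m ∉ E` with `r_m = ‖N / D‖ max 1 ‖x_b‖ ^ q / max 1 ‖x_a‖ ^ p > m` at `P m`.  The sequence takes every value only finitely often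
(the ratio at a point outside `E` is a real number), so for `aeval ψ D' ≠ 0` we have `D'(P m) ≠ 0` for all large `m` (`FunD.fin`); the same for all subsequences.
Pass to a subsequence such that `‖x_a‖` is bounded or tends to infinity (a sequence of real numbers which is not bounded has a subsequence tending to infinity; the subsequence is strictly
increasing, so `r → ∞` still), and then to a subsequence such that either `‖w‖ / max 1 ‖x_a‖ ^ p → ∞` or `‖w x_b ^ q‖ / max 1 ‖x_a‖ ^ p → ∞` (the maximum of the two is `r_m`).  `O` from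
`exists_ultraB` for this subsequence.
If `‖x_a‖` is bounded: `ψ a ∈ O` (`N = X a`, `D = 1`), so `w ∈ O` and `w ψ_b ^ q ∈ O` (`RegAt`), but one of `‖w‖`, `‖w x_b ^ q‖` tends to infinity, a contradiction (`N`, `D` and `N * X b ^ q`, `D`).
If `‖x_a‖ → ∞`: `ψ a ∉ O`, so `w (ψ_a⁻¹) ^ p ∈ O` and `w ψ_b ^ q (ψ_a⁻¹) ^ p ∈ O`, but one of `‖w‖ / ‖x_a‖ ^ p`, `‖w x_b ^ q‖ / ‖x_a‖ ^ p` tends to infinity (`N`, `D * X a ^ p` and
`N * X b ^ q`, `D * X a ^ p`), a contradiction.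
-/

namespace Pool.Agent.LGO.TG

open MvPolynomial Filter Topology Pool.Agent.Hhelper14.ZPL Pool.Agent.LGO Pool.Agent.LGO.GM

variable {n : ℕ}

private lemma OneW_sub (u : ℕ → ℝ) : ∃ φ : ℕ → ℕ, StrictMono φ ∧
    ((∃ B : ℝ, ∀ m, u (φ m) ≤ B) ∨ Tendsto (fun m => u (φ m)) atTop atTop) := by
  by_cases h : ∃ B : ℝ, ∃ᶠ m in atTop, u m ≤ B
  · obtain ⟨B, hB⟩ := h
    obtain ⟨φ, hφ, h⟩ := extraction_of_frequently_atTop hB
    exact ⟨φ, hφ, Or.inl ⟨B, h⟩⟩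
  · refine ⟨id, strictMono_id, Or.inr ?_⟩
    rw [tendsto_atTop]
    intro B
    have h2 : ¬ ∃ᶠ m in atTop, u m ≤ B := fun h3 => h ⟨B, h3⟩
    rw [not_frequently] at h2
    filter_upwards [h2] with m hm
    exact (not_le.1 hm).le

private lemma OneW_sub2 (u : ℕ → ℝ) : ∃ φ : ℕ → ℕ, StrictMono φ ∧
    ((∀ m, u (φ m) ≤ 1) ∨ ∀ m, 1 < u (φ m)) := by
  by_cases h : ∃ᶠ m in atTop, u m ≤ 1
  · obtain ⟨φ, hφ, h⟩ := extraction_of_frequently_atTop h
    exact ⟨φ, hφ, Or.inl h⟩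
  · rw [not_frequently] at h
    obtain ⟨φ, hφ, h⟩ := extraction_of_frequently_atTop h.frequently
    exact ⟨φ, hφ, Or.inr fun m => not_le.1 (h m)⟩

private lemma OneW_main {V : Set (Fin n → ℂ)} {L : Type} [Field L] [Algebra Qb L] {ψ : Fin n → L}
    (h : FunD V L ψ) {a b : Fin n} {w : L} {p q : ℕ}
    (h1 : RegAt Qb w (ψ a) p) (h2 : RegAt Qb (w * ψ b ^ q) (ψ a) p)
    (N D : MvPolynomial (Fin n) Qb) (hD : aeval ψ D ≠ 0) (hw : w = aeval ψ N / aeval ψ D)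
    (y : ℕ → Fin n → ℂ) (hyV : ∀ m, y m ∈ V)
    (hev : ∀ D' : MvPolynomial (Fin n) Qb, aeval ψ D' ≠ 0 →
      ∀ᶠ m in atTop, (aeval (y m) D' : ℂ) ≠ 0)
    (hr : Tendsto (fun m => ‖(aeval (y m) N / aeval (y m) D : ℂ)‖ * max 1 ‖y m b‖ ^ q /
      max 1 ‖y m a‖ ^ p) atTop atTop)
    (ha : (∃ B : ℝ, ∀ m, ‖y m a‖ ≤ B) ∨ Tendsto (fun m => ‖y m a‖) atTop atTop)
    (hb : (∀ m, ‖y m b‖ ≤ 1) ∨ ∀ m, 1 < ‖y m b‖) : False := by
  have h0 : ∀ D : MvPolynomial (Fin n) Qb, aeval ψ D = 0 → ∀ m, (aeval (y m) D : ℂ) = 0 :=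
    fun D hD m => (h.zero D).1 hD (y m) (hyV m)
  obtain ⟨O, hO, hbd, hinf⟩ := exists_ultraB ψ h.gen y h0 hev
  rcases ha with ⟨B, hB⟩ | ha
  · -- `x_a` is bounded
    have haO : ψ a ∈ O := by
      have h3 := hbd (X a) 1 B (by simp) (Eventually.of_forall fun m => by simpa using hB m)
      simpa using h3
    rcases hb with hb | hb
    · have h4 : w ∈ O := (h1 O hO).1 haO
      rw [hw] at h4
      refine hinf N D hD ?_ h4
      refine tendsto_atTop_mono (fun m => ?_) hr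
      rw [max_eq_left (hb m), one_pow, mul_one]
      exact div_le_self (norm_nonneg _) (one_le_pow₀ (le_max_left _ _))
    · have h4 : w * ψ b ^ q ∈ O := (h2 O hO).1 haO
      have h5 : w * ψ b ^ q = aeval ψ (N * X b ^ q) / aeval ψ D := by
        rw [hw, map_mul, map_pow, aeval_X]; ring
      rw [h5] at h4
      refine hinf (N * X b ^ q) D hD ?_ h4
      refine tendsto_atTop_mono (fun m => ?_) hr
      rw [max_eq_right (hb m).le]
      refine (div_le_self (by positivity) (one_le_pow₀ (le_max_left _ _))).trans (le_of_eq ?_)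
      rw [map_mul, map_pow, aeval_X, norm_div, norm_div, norm_mul, norm_pow]
      ring
  · -- `x_a` tends to infinity
    have haO : ψ a ∉ O := by
      have h3 := hinf (X a) 1 (by simp) (by simpa using ha)
      simpa using h3
    have ha0 : ψ a ≠ 0 := fun h3 => haO (by rw [h3]; exact O.zero_mem)
    have hD2 : aeval ψ (D * X a ^ p) ≠ 0 := by
      rw [map_mul, map_pow, aeval_X]
      exact mul_ne_zero hD (pow_ne_zero _ ha0)
    have ha1 : ∀ᶠ m in atTop, max 1 ‖y m a‖ = ‖y m a‖ := by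
      filter_upwards [ha.eventually_ge_atTop 1] with m hm
      exact max_eq_right hm
    rcases hb with hb | hb
    · have h4 : w * (ψ a)⁻¹ ^ p ∈ O := (h1 O hO).2 haO
      have h5 : w * (ψ a)⁻¹ ^ p = aeval ψ N / aeval ψ (D * X a ^ p) := by
        rw [hw, map_mul, map_pow, aeval_X, inv_pow]
        field_simp
      rw [h5] at h4
      refine hinf N (D * X a ^ p) hD2 ?_ h4
      refine hr.congr' ?_
      filter_upwards [ha1] with m hm
      rw [max_eq_left (hb m), one_pow, mul_one, hm, map_mul, map_pow, aeval_X, norm_div, norm_div,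
        norm_mul, norm_pow, div_div]
    · have h4 : w * ψ b ^ q * (ψ a)⁻¹ ^ p ∈ O := (h2 O hO).2 haO
      have h5 : w * ψ b ^ q * (ψ a)⁻¹ ^ p =
          aeval ψ (N * X b ^ q) / aeval ψ (D * X a ^ p) := by
        rw [hw, map_mul, map_mul, map_pow, map_pow, aeval_X, aeval_X, inv_pow]
        field_simp
      rw [h5] at h4
      refine hinf (N * X b ^ q) (D * X a ^ p) hD2 ?_ h4
      refine hr.congr' ?_
      filter_upwards [ha1] with m hm
      rw [max_eq_right (hb m).le, hm, map_mul, map_mul, map_pow, map_pow, aeval_X, aeval_X,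
        norm_div, norm_div, norm_mul, norm_mul, norm_pow, norm_pow, div_mul_eq_mul_div, div_div]

theorem oneG_of_w {V : Set (Fin n → ℂ)} {L : Type} [Field L] [Algebra Qb L] {ψ : Fin n → L}
    (h : FunD V L ψ) {a b : Fin n} {w : L} (hw : w ≠ 0) {p q : ℕ} (hq : 0 < q)
    (h1 : RegAt Qb w (ψ a) p) (h2 : RegAt Qb (w * ψ b ^ q) (ψ a) p) :
    ∃ (F G : MvPolynomial (Fin n) Qb) (C : ℝ) (E : Set (Fin n → ℂ)), OneG V b a F G q p C E := by
  obtain ⟨N, D, hD, hwe⟩ := ultra_repM ψ h.gen w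
  have hN : aeval ψ N ≠ 0 := by
    intro h3
    rw [h3, zero_div] at hwe
    exact hw hwe
  suffices hC : ∃ C : ℝ, ∀ x ∈ V,
      x ∉ {x ∈ V | (aeval x N : ℂ) = 0} ∪ {x ∈ V | (aeval x D : ℂ) = 0} →
      ‖(aeval x N : ℂ)‖ * max 1 ‖x b‖ ^ q ≤ C * (‖(aeval x D : ℂ)‖ * max 1 ‖x a‖ ^ p) by
    obtain ⟨C, hC⟩ := hC
    refine ⟨N, D, C, {x ∈ V | (aeval x N : ℂ) = 0} ∪ {x ∈ V | (aeval x D : ℂ) = 0},
      hq, (h.fin N hN).union (h.fin D hD), ?_, ?_, hC⟩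
    · exact fun x hx hxE h3 => hxE (Or.inl ⟨hx, h3⟩)
    · exact fun x hx hxE h3 => hxE (Or.inr ⟨hx, h3⟩)
  by_contra hcon
  have hcon2 : ∀ m : ℕ, ∃ x, x ∈ V ∧
      x ∉ {x ∈ V | (aeval x N : ℂ) = 0} ∪ {x ∈ V | (aeval x D : ℂ) = 0} ∧
      (m : ℝ) * (‖(aeval x D : ℂ)‖ * max 1 ‖x a‖ ^ p) <
        ‖(aeval x N : ℂ)‖ * max 1 ‖x b‖ ^ q := by
    intro m
    by_contra h3
    refine hcon ⟨m, fun x hx hxE => ?_⟩
    by_contra h4
    exact h3 ⟨x, hx, hxE, not_le.1 h4⟩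
  choose P hPV hPE hP using hcon2
  set R : (Fin n → ℂ) → ℝ := fun x => ‖(aeval x N / aeval x D : ℂ)‖ * max 1 ‖x b‖ ^ q /
    max 1 ‖x a‖ ^ p with hR
  have hPR : ∀ m : ℕ, (m : ℝ) < R (P m) := by
    intro m
    have h3 : (aeval (P m) D : ℂ) ≠ 0 := fun h3 => hPE m (Or.inr ⟨hPV m, h3⟩)
    have h4 : 0 < ‖(aeval (P m) D : ℂ)‖ := norm_pos_iff.2 h3
    have h5 : 0 < max 1 ‖P m a‖ ^ p := by positivity
    rw [hR]
    show (m : ℝ) < ‖(aeval (P m) N / aeval (P m) D : ℂ)‖ * max 1 ‖P m b‖ ^ q /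
      max 1 ‖P m a‖ ^ p
    rw [norm_div, lt_div_iff₀ h5, div_mul_eq_mul_div, lt_div_iff₀ h4]
    have h6 := hP m
    calc (m : ℝ) * max 1 ‖P m a‖ ^ p * ‖(aeval (P m) D : ℂ)‖
        = (m : ℝ) * (‖(aeval (P m) D : ℂ)‖ * max 1 ‖P m a‖ ^ p) := by ring
      _ < _ := h6
  have hPT : Tendsto (fun m => R (P m)) atTop atTop :=
    tendsto_atTop_mono (fun m => (hPR m).le) tendsto_natCast_atTop_atTop
  have hev : ∀ D' : MvPolynomial (Fin n) Qb, aeval ψ D' ≠ 0 →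
      ∀ᶠ m in atTop, (aeval (P m) D' : ℂ) ≠ 0 := by
    intro D' hD'
    obtain ⟨B, hB⟩ := ((h.fin D' hD').image R).bddAbove
    filter_upwards [hPT.eventually_gt_atTop B] with m hm h3
    have h4 : R (P m) ≤ B := hB ⟨P m, ⟨hPV m, h3⟩, rfl⟩
    exact absurd hm (not_lt.2 h4)
  obtain ⟨φ, hφ, hφa⟩ := OneW_sub (fun m => ‖P m a‖)
  obtain ⟨χ, hχ, hχb⟩ := OneW_sub2 (fun m => ‖P (φ m) b‖)
  have hφχ : Tendsto (fun m => φ (χ m)) atTop atTop := hφ.tendsto_atTop.comp hχ.tendsto_atTop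
  refine OneW_main h h1 h2 N D hD hwe (fun m => P (φ (χ m))) (fun m => hPV _)
    (fun D' hD' => hφχ.eventually (hev D' hD')) (hPT.comp hφχ) ?_ hχb
  rcases hφa with ⟨B, hB⟩ | hT
  · exact Or.inl ⟨B, fun m => hB (χ m)⟩
  · exact Or.inr (hT.comp hχ.tendsto_atTop)

end Pool.Agent.LGO.TG
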