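import Mathlib
import Pool.Agent.LGO.G.Defs
import Pool.Agent.LGO.PA.Cmp

/-!
# LGO/TG: inequalities from certificates in `ℂ_[l]`

PROOF (the nonarchimedean version of `ineq_of_cert`, `LGO/G/Ineq.lean`, `LGO/GM/Ineq.lean`).  `Cert`: `q(F) W ^ r + ∑_{i < r} p_i(F) W ^ i = 0` in `L`, `W = F (N / D) ^ m`.  Multiply by
`D ^ (m r)`: the polynomial `G = q(F) (F N ^ m) ^ r + ∑_{i < r} p_i(F) (F N ^ m) ^ i D ^ (m (r - i))` has `aeval ψ G = 0`, so `G(y) = 0` (copy this part from `ineq_of_certM`).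
Apply `φ`: `f = φ F(y)`, `n = φ N(y)`, `d = φ D(y)`, `w = f n ^ m`, `e = d ^ m`: `q^φ(f) w ^ r + ∑ p_i^φ(f) w ^ i e ^ (r - i) = 0`.
Let `a ≠ 0` be the leading coefficient of `q`, `k = natDegree q`.  There is `m₂ > 0` with `‖m₂‖ ‖φ c‖ ≤ 1` for all coefficients `c` of `q` and of the `p_i`, `i < r`, and
`‖m₂‖ ≤ ‖φ a‖`, for all `l`, `φ` (`alg_norm` in `PA/Cmp.lean`, the product of the constants for the finitely many coefficients, `‖integer‖ ≤ 1`; for `c = 0` trivial).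
`m₀ = m₂ ^ 2`.  Let `1 < ‖m₀‖ ‖f‖`.  Then `‖q^φ(f)‖ = ‖φ a‖ ‖f‖ ^ k ≥ ‖m₂‖ ‖f‖ ^ k`: for `j < k` the term of degree `j` has norm at most `‖m₂‖⁻¹ ‖f‖ ^ (k - 1) < ‖m₂‖ ‖f‖ ^ k ≤ ‖φ a‖ ‖f‖ ^ k`.
`‖p_i^φ(f)‖ ≤ ‖m₂‖⁻¹ ‖f‖ ^ k`.  So `‖m₂‖ ‖w‖ ^ r ≤ ‖m₂‖⁻¹ max_{i < r} ‖w‖ ^ i ‖e‖ ^ (r - i)`.  (`r > 0`, otherwise `q^φ(f) = 0`.)  If `‖m₀‖ ‖w‖ > ‖e‖` then
`‖w‖ ^ i ‖e‖ ^ (r - i) < ‖w‖ ^ i (‖m₀‖ ‖w‖) ^ (r - i) ≤ ‖m₀‖ ‖w‖ ^ r` for `i < r`, a contradiction.  So `‖m₀‖ ‖w‖ ≤ ‖e‖`.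
-/

namespace Pool.Agent.LGO.TG

section upper

open Polynomial Pool.Agent.Hhelper14.ZPL Pool.Agent.LGO Pool.Agent.LGO.U Pool.Agent.LGO.PA

/-- the denominator of an algebraic number -/
private theorem CertF_up {a : ℂ} (ha : IsAlgebraic ℚ a) : ∃ m : ℕ, 0 < m ∧
    ∀ (p : ℕ) [Fact p.Prime] (φ : ℂ →+* ℂ_[p]), ‖(m : ℂ_[p])‖ * ‖φ a‖ ≤ 1 := by
  have h1 : IsAlgebraic ℤ a := (IsFractionRing.isAlgebraic_iff ℤ ℚ ℂ).2 ha
  obtain ⟨y, hy, hint⟩ := h1.exists_integral_multiple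
  refine ⟨y.natAbs, Int.natAbs_pos.2 hy, fun p _ φ => ?_⟩
  have h2 := norm_le_one_of_integral φ hint
  rw [zsmul_eq_mul, map_mul, map_intCast, norm_mul] at h2
  have h3 : ‖((y.natAbs : ℕ) : ℂ_[p])‖ = ‖(y : ℂ_[p])‖ := by
    rcases Int.natAbs_eq y with h | h
    · conv_rhs => rw [h]
      rw [Int.cast_natCast]
    · conv_rhs => rw [h]
      rw [Int.cast_neg, norm_neg, Int.cast_natCast]
  rw [h3]
  exact h2

private theorem CertF_alg (g : Qb) : IsAlgebraic ℚ (g : ℂ) := mem_algebraicClosure_iff.1 g.2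

/-- upper bound for the values of a polynomial -/
private theorem CertF_upper (A : Polynomial Qb) : ∃ m : ℕ, 0 < m ∧
    ∀ (p : ℕ) [Fact p.Prime] (φ : ℂ →+* ℂ_[p]) (t : ℂ),
      ‖(m : ℂ_[p])‖ * ‖φ (aeval t A : ℂ)‖ ≤ max 1 ‖φ t‖ ^ A.natDegree := by
  choose m hm0 hm using fun g : Qb => CertF_up (CertF_alg g)
  refine ⟨∏ i ∈ Finset.range (A.natDegree + 1), m (A.coeff i),
    Finset.prod_pos fun i _ => hm0 _, fun p _ φ t => ?_⟩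
  have hM1 : (1 : ℝ) ≤ max 1 ‖φ t‖ := le_max_left _ _
  rw [aeval_eq_sum_range, map_sum, ← norm_mul, Finset.mul_sum]
  refine IsUltrametricDist.norm_sum_le_of_forall_le_of_nonneg (by positivity) ?_
  intro i hi
  have hi' : i ≤ A.natDegree := Nat.lt_succ_iff.1 (Finset.mem_range.1 hi)
  rw [Algebra.smul_def, map_mul, map_pow, norm_mul, norm_mul, norm_pow,
    ← Finset.mul_prod_erase _ _ hi, Nat.cast_mul, norm_mul]
  have e1 := hm (A.coeff i) p φ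
  have e2 : ‖((∏ x ∈ (Finset.range (A.natDegree + 1)).erase i, m (A.coeff x) : ℕ) : ℂ_[p])‖ ≤ 1 :=
    Pool.Agent.Hhelper14.ZP.norm_natCast_le _
  have e3 : ‖φ t‖ ^ i ≤ max 1 ‖φ t‖ ^ A.natDegree :=
    (pow_le_pow_left₀ (norm_nonneg _) (le_max_right _ _) i).trans (pow_le_pow_right₀ hM1 hi')
  have e4 : ‖φ (algebraMap Qb ℂ (A.coeff i))‖ = ‖φ ((A.coeff i : Qb) : ℂ)‖ := rfl
  rw [e4]
  calc _ = (‖((m (A.coeff i) : ℕ) : ℂ_[p])‖ * ‖φ ((A.coeff i : Qb) : ℂ)‖) *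
        ‖((∏ x ∈ (Finset.range (A.natDegree + 1)).erase i, m (A.coeff x) : ℕ) : ℂ_[p])‖ *
          ‖φ t‖ ^ i := by ring
    _ ≤ 1 * max 1 ‖φ t‖ ^ A.natDegree := by
        refine mul_le_mul ?_ e3 (by positivity) zero_le_one
        exact mul_le_one₀ e1 (norm_nonneg _) e2
    _ = _ := one_mul _

/-- the values of a polynomial near infinity -/
private theorem CertF_lead {P : Polynomial Qb} (hP : P ≠ 0) : ∃ m : ℕ, 0 < m ∧
    ∀ (p : ℕ) [Fact p.Prime] (φ : ℂ →+* ℂ_[p]),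
      ‖(m : ℂ_[p])‖ ≤ ‖φ ((P.leadingCoeff : Qb) : ℂ)‖ ∧ ∀ t : ℂ, 1 < ‖(m : ℂ_[p])‖ * ‖φ t‖ →
      ‖φ (aeval t P : ℂ)‖ = ‖φ ((P.leadingCoeff : Qb) : ℂ)‖ * ‖φ t‖ ^ P.natDegree := by
  have hlc : P.leadingCoeff ≠ 0 := leadingCoeff_ne_zero.2 hP
  have hlc' : ((P.leadingCoeff : Qb) : ℂ) ≠ 0 := by
    intro h
    exact hlc (by exact_mod_cast h)
  obtain ⟨m₂, hm₂, h₂⟩ := alg_norm (CertF_alg P.leadingCoeff) hlc'
  obtain ⟨m₁, hm₁, h₁⟩ := CertF_upper P.eraseLead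
  have hdec : ∀ t : ℂ, (aeval t P : ℂ) = aeval t P.eraseLead +
      (P.leadingCoeff : ℂ) * t ^ P.natDegree := by
    intro t
    conv_lhs => rw [← P.eraseLead_add_monomial_natDegree_leadingCoeff]
    rw [map_add, aeval_monomial]
    rfl
  refine ⟨m₁ * m₂, Nat.mul_pos hm₁ hm₂, fun p _ φ => ⟨?_, fun t ht => ?_⟩⟩
  · have hn1 : ‖(m₁ : ℂ_[p])‖ ≤ 1 := Pool.Agent.Hhelper14.ZP.norm_natCast_le m₁
    rw [Nat.cast_mul, norm_mul]
    calc ‖(m₁ : ℂ_[p])‖ * ‖(m₂ : ℂ_[p])‖ ≤ 1 * ‖(m₂ : ℂ_[p])‖ :=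
          mul_le_mul_of_nonneg_right hn1 (norm_nonneg _)
      _ = ‖(m₂ : ℂ_[p])‖ := one_mul _
      _ ≤ _ := (h₂ p φ).2
  rcases Nat.eq_zero_or_pos P.natDegree with h0 | hpos
  · have h1 : P.eraseLead = 0 := by
      rcases P.eraseLead_natDegree_lt_or_eraseLead_eq_zero with h2 | h2
      · omega
      · exact h2
    rw [hdec, h1, map_zero, zero_add, h0, pow_zero, pow_zero, mul_one, mul_one]
  · have hn1 : ‖(m₁ : ℂ_[p])‖ ≤ 1 := Pool.Agent.Hhelper14.ZP.norm_natCast_le m₁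
    have hn2 : ‖(m₂ : ℂ_[p])‖ ≤ 1 := Pool.Agent.Hhelper14.ZP.norm_natCast_le m₂
    have hp1 : 0 < ‖(m₁ : ℂ_[p])‖ := norm_pos_iff.2 (by exact_mod_cast hm₁.ne')
    rw [Nat.cast_mul, norm_mul] at ht
    have hT1 : 1 < ‖φ t‖ := by
      by_contra hle
      push Not at hle
      have : ‖(m₁ : ℂ_[p])‖ * ‖(m₂ : ℂ_[p])‖ * ‖φ t‖ ≤ 1 :=
        mul_le_one₀ (mul_le_one₀ hn1 (norm_nonneg _) hn2) (norm_nonneg _) hle
      linarith
    have hmax : max 1 ‖φ t‖ = ‖φ t‖ := max_eq_right hT1.le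
    have he : ‖(m₁ : ℂ_[p])‖ * ‖φ (aeval t P.eraseLead : ℂ)‖ ≤ ‖φ t‖ ^ (P.natDegree - 1) := by
      refine (h₁ p φ t).trans ?_
      rw [hmax]
      exact pow_le_pow_right₀ hT1.le P.eraseLead_natDegree_le
    have hpow : ‖φ t‖ ^ P.natDegree = ‖φ t‖ ^ (P.natDegree - 1) * ‖φ t‖ := by
      rw [← pow_succ, Nat.sub_add_cancel hpos]
    have hl := (h₂ p φ).2
    have hlt : ‖φ (aeval t P.eraseLead : ℂ)‖ <
        ‖φ ((P.leadingCoeff : ℂ) * t ^ P.natDegree)‖ := by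
      rw [map_mul, map_pow, norm_mul, norm_pow, hpow]
      have hq : 0 < ‖φ t‖ ^ (P.natDegree - 1) := by positivity
      refine lt_of_mul_lt_mul_left (lt_of_le_of_lt he ?_) hp1.le
      calc ‖φ t‖ ^ (P.natDegree - 1) < ‖φ t‖ ^ (P.natDegree - 1) *
            (‖(m₁ : ℂ_[p])‖ * ‖(m₂ : ℂ_[p])‖ * ‖φ t‖) := lt_mul_of_one_lt_right hq ht
        _ = ‖(m₁ : ℂ_[p])‖ * (‖(m₂ : ℂ_[p])‖ * (‖φ t‖ ^ (P.natDegree - 1) * ‖φ t‖)) := by ring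
        _ ≤ _ := mul_le_mul_of_nonneg_left
            (mul_le_mul_of_nonneg_right hl (by positivity)) hp1.le
    rw [hdec, map_add, IsUltrametricDist.norm_add_eq_max_of_norm_ne_norm hlt.ne,
      max_eq_right hlt.le, map_mul, map_pow, norm_mul, norm_pow]

end upper

open MvPolynomial Pool.Agent.Hhelper14.ZPL Pool.Agent.LGO Pool.Agent.LGO.PA

variable {k₀ : ℕ}

theorem fin_of_cert {L : Type} [Field L] [Algebra Qb L] (ψ : Fin k₀ → L)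
    (F N D : MvPolynomial (Fin k₀) Qb) (m : ℕ) (hD : aeval ψ D ≠ 0)
    (hc : Cert Qb (aeval ψ F) (aeval ψ F * (aeval ψ N / aeval ψ D) ^ m)) :
    ∃ m₀ : ℕ, 0 < m₀ ∧ ∀ (l : ℕ) [Fact l.Prime] (φ : ℂ →+* ℂ_[l]) (y : Fin k₀ → ℂ),
      (∀ G : MvPolynomial (Fin k₀) Qb, aeval ψ G = 0 → (aeval y G : ℂ) = 0) →
      1 < ‖φ ((m₀ : ℂ) * aeval y F)‖ →
      ‖(m₀ : ℂ_[l])‖ * (‖φ (aeval y N : ℂ)‖ ^ m * ‖φ (aeval y F : ℂ)‖) ≤
        ‖φ (aeval y D : ℂ)‖ ^ m := by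
  obtain ⟨r, q, p, hq, hp, hrel⟩ := hc
  set G : MvPolynomial (Fin k₀) Qb := Polynomial.aeval F q * (F * N ^ m) ^ r +
    ∑ i ∈ Finset.range r, Polynomial.aeval F (p i) * (F * N ^ m) ^ i * (D ^ m) ^ (r - i) with hG
  have hG0 : aeval ψ G = 0 := by
    rw [hG, map_add, map_sum]
    simp only [map_mul, map_pow, ← Polynomial.aeval_algHom_apply]
    set f' := aeval ψ F
    set n' := aeval ψ N
    set d' := aeval ψ D
    have hdm : d' ^ m ≠ 0 := pow_ne_zero _ hD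
    have e1 : f' * n' ^ m = (f' * (n' / d') ^ m) * d' ^ m := by
      rw [div_pow]
      field_simp
    have e2 : Polynomial.aeval f' q * (f' * n' ^ m) ^ r +
        ∑ i ∈ Finset.range r, Polynomial.aeval f' (p i) * (f' * n' ^ m) ^ i * (d' ^ m) ^ (r - i) =
        (d' ^ m) ^ r * (Polynomial.aeval f' q * (f' * (n' / d') ^ m) ^ r +
          ∑ i ∈ Finset.range r, Polynomial.aeval f' (p i) * (f' * (n' / d') ^ m) ^ i) := by
      rw [e1, mul_add, Finset.mul_sum]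
      congr 1
      · rw [mul_pow]
        ring
      · refine Finset.sum_congr rfl fun i hi => ?_
        have hir : i + (r - i) = r := by
          rw [Finset.mem_range] at hi
          omega
        rw [mul_pow]
        conv_rhs => rw [← hir, pow_add]
        ring
    rw [e2, hrel, mul_zero]
  obtain ⟨m₁, hm₁, h₁⟩ := CertF_lead hq
  choose mu hmu hu using fun i : ℕ => CertF_upper (p i)
  obtain ⟨M, hM⟩ : ∃ M, M = ∏ i ∈ Finset.range r, mu i := ⟨_, rfl⟩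
  have hM0 : 0 < M := by
    rw [hM]
    exact Finset.prod_pos fun i _ => hmu i
  refine ⟨m₁ * M, Nat.mul_pos hm₁ hM0, fun l _ φ y hy hF => ?_⟩
  have hy0 := hy G hG0
  have hφ := congrArg φ hy0
  rw [map_zero, hG, map_add, map_sum, map_add, map_sum] at hφ
  simp only [map_mul, map_pow, ← Polynomial.aeval_algHom_apply] at hφ
  set t : ℂ := aeval y F with ht
  set n := φ (aeval y N : ℂ)
  set d := φ (aeval y D : ℂ)
  have hn1 : ‖(m₁ : ℂ_[l])‖ ≤ 1 := Pool.Agent.Hhelper14.ZP.norm_natCast_le m₁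
  have hnM : ‖(M : ℂ_[l])‖ ≤ 1 := Pool.Agent.Hhelper14.ZP.norm_natCast_le M
  have hp1 : 0 < ‖(m₁ : ℂ_[l])‖ := norm_pos_iff.2 (by exact_mod_cast hm₁.ne')
  have hpM : 0 < ‖(M : ℂ_[l])‖ := norm_pos_iff.2 (by exact_mod_cast hM0.ne')
  rw [map_mul, map_natCast, norm_mul, Nat.cast_mul, norm_mul] at hF
  have hF1 : 1 < ‖(m₁ : ℂ_[l])‖ * ‖φ t‖ := by
    refine hF.trans_le ?_
    refine mul_le_mul_of_nonneg_right ?_ (norm_nonneg _)
    exact mul_le_of_le_one_right hp1.le hnM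
  have hT1 : 1 < ‖φ t‖ := hF1.trans_le (mul_le_of_le_one_left (norm_nonneg _) hn1)
  have hmax : max 1 ‖φ t‖ = ‖φ t‖ := max_eq_right hT1.le
  obtain ⟨T, hT⟩ : ∃ T, T = ‖φ t‖ ^ q.natDegree := ⟨_, rfl⟩
  have hT0 : 0 < T := by
    rw [hT]
    positivity
  have hlow : ‖(m₁ : ℂ_[l])‖ * T ≤ ‖φ (Polynomial.aeval t q : ℂ)‖ := by
    rw [(h₁ l φ).2 t hF1, hT]
    exact mul_le_mul_of_nonneg_right (h₁ l φ).1 (by positivity)
  have hup : ∀ i ∈ Finset.range r, ‖(M : ℂ_[l])‖ * ‖φ (Polynomial.aeval t (p i) : ℂ)‖ ≤ T := by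
    intro i hi
    have e1 := hu i l φ t
    have e2 : ‖(M : ℂ_[l])‖ ≤ ‖(mu i : ℂ_[l])‖ := by
      rw [hM, ← Finset.mul_prod_erase _ _ hi, Nat.cast_mul, norm_mul]
      exact mul_le_of_le_one_right (norm_nonneg _) (Pool.Agent.Hhelper14.ZP.norm_natCast_le _)
    calc ‖(M : ℂ_[l])‖ * ‖φ (Polynomial.aeval t (p i) : ℂ)‖
        ≤ ‖(mu i : ℂ_[l])‖ * ‖φ (Polynomial.aeval t (p i) : ℂ)‖ :=
          mul_le_mul_of_nonneg_right e2 (norm_nonneg _)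
      _ ≤ max 1 ‖φ t‖ ^ (p i).natDegree := e1
      _ ≤ T := by
          rw [hmax, hT]
          exact pow_le_pow_right₀ hT1.le (hp i)
  obtain ⟨W, hW⟩ : ∃ W, W = ‖n‖ ^ m * ‖φ t‖ := ⟨_, rfl⟩
  obtain ⟨E, hE⟩ : ∃ E, E = ‖d‖ ^ m := ⟨_, rfl⟩
  have hW0 : 0 ≤ W := by rw [hW]; positivity
  have hE0 : 0 ≤ E := by rw [hE]; positivity
  rw [Nat.cast_mul, norm_mul, ← hW, ← hE]
  have hm01 : ‖(m₁ : ℂ_[l])‖ * ‖(M : ℂ_[l])‖ ≤ 1 := mul_le_one₀ hn1 hpM.le hnM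
  rcases le_or_gt W E with hWE | hWE
  · exact (mul_le_of_le_one_left hW0 hm01).trans hWE
  have hWpos : 0 < W := lt_of_le_of_lt hE0 hWE
  have e : ∀ j : ℕ, ‖(φ t * n ^ m) ^ j‖ = W ^ j := by
    intro j
    rw [norm_pow, norm_mul, norm_pow, mul_comm, hW]
  have hmain : φ (Polynomial.aeval t q : ℂ) * (φ t * n ^ m) ^ r =
      - ∑ i ∈ Finset.range r, φ (Polynomial.aeval t (p i) : ℂ) * (φ t * n ^ m) ^ i *
        (d ^ m) ^ (r - i) := eq_neg_of_add_eq_zero_left hφ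
  have h2 := congrArg norm hmain
  rw [norm_neg, norm_mul, e] at h2
  rcases Nat.eq_zero_or_pos r with h0 | h0
  · exfalso
    subst h0
    simp only [pow_zero, mul_one, Finset.range_zero, Finset.sum_empty, norm_zero] at h2
    rw [h2] at hlow
    have : 0 < ‖(m₁ : ℂ_[l])‖ * T := mul_pos hp1 hT0
    linarith
  obtain ⟨k, rfl⟩ : ∃ k, r = k + 1 := ⟨r - 1, by omega⟩
  have h3 : ‖∑ i ∈ Finset.range (k + 1), φ (Polynomial.aeval t (p i) : ℂ) * (φ t * n ^ m) ^ i *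
      (d ^ m) ^ (k + 1 - i)‖ ≤ T * (W ^ k * E) / ‖(M : ℂ_[l])‖ := by
    refine IsUltrametricDist.norm_sum_le_of_forall_le_of_nonneg (by positivity) fun i hi => ?_
    have hid : i ≤ k := by
      rw [Finset.mem_range] at hi
      omega
    have e1 : k + 1 - i = (k - i) + 1 := by omega
    have h4 : W ^ i * E ^ (k + 1 - i) ≤ W ^ k * E := by
      rw [e1, pow_succ]
      calc W ^ i * (E ^ (k - i) * E) ≤ W ^ i * (W ^ (k - i) * E) := by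
            apply mul_le_mul_of_nonneg_left _ (by positivity)
            exact mul_le_mul_of_nonneg_right (pow_le_pow_left₀ hE0 hWE.le _) hE0
        _ = W ^ k * E := by
            rw [← mul_assoc, ← pow_add]
            congr 2
            omega
    rw [norm_mul, norm_mul, e, norm_pow (d ^ m), norm_pow d, ← hE, le_div_iff₀ hpM]
    calc _ = (‖(M : ℂ_[l])‖ * ‖φ (Polynomial.aeval t (p i) : ℂ)‖) * (W ^ i * E ^ (k + 1 - i)) := by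
          ring
      _ ≤ T * (W ^ k * E) := mul_le_mul (hup i hi) h4 (by positivity) hT0.le
  rw [← h2, le_div_iff₀ hpM] at h3
  have h5 : (‖(m₁ : ℂ_[l])‖ * T) * W ^ (k + 1) * ‖(M : ℂ_[l])‖ ≤ T * (W ^ k * E) := by
    refine le_trans ?_ h3
    exact mul_le_mul_of_nonneg_right (mul_le_mul_of_nonneg_right hlow (by positivity)) hpM.le
  have h6 : (T * W ^ k) * (‖(m₁ : ℂ_[l])‖ * ‖(M : ℂ_[l])‖ * W) ≤ (T * W ^ k) * E := by
    calc _ = (‖(m₁ : ℂ_[l])‖ * T) * W ^ (k + 1) * ‖(M : ℂ_[l])‖ := by ring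
      _ ≤ T * (W ^ k * E) := h5
      _ = _ := by ring
  exact le_of_mul_le_mul_left h6 (by positivity)

end Pool.Agent.LGO.TG
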