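import Mathlib
import Pool.Agent.LGO.TG.CertF
import Pool.Agent.LGO.GM.Geo

/-!
# LGO/TG: a function with its only pole at a given point at infinity, all places

PROOF: the proof of `geoM` (`LGO/GM/Geo.lean`), with `fin_of_cert` beside `ineq_of_certM` (the same certificate, the same `m`).
-/

namespace Pool.Agent.LGO.TG

open MvPolynomial Filter Topology Pool.Agent.Hhelper14.ZPL Pool.Agent.LGO Pool.Agent.LGO.GM

variable {n k₀ : ℕ}

theorem geoF {V : Set (Fin n → ℂ)} (hV : Pool.Agent.Hhelper14.ZPL.IsIrredClosed V)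
    (hVk : KClosed V) (hdim : Pool.Agent.Hhelper14.ZPL.dim V = 1) (i : Fin k₀ → Fin n)
    (P : ℕ → Fin n → ℂ) (hP : ∀ m, P m ∈ V) (a : Fin k₀)
    (ha : Tendsto (fun m => ‖P m (i a)‖) atTop atTop) :
    ∃ F : MvPolynomial (Fin k₀) Qb, (∀ c : ℂ, ∃ x ∈ V, (aeval (x ∘ i) F : ℂ) ≠ c) ∧
      ∀ N D : MvPolynomial (Fin k₀) Qb, (∃ x ∈ V, (aeval (x ∘ i) D : ℂ) ≠ 0) →
        Tendsto (fun m => (aeval (P m ∘ i) N / aeval (P m ∘ i) D : ℂ)) atTop (𝓝 0) →
        ∃ (C : ℝ) (m m₀ : ℕ), 0 < C ∧ 0 < m ∧ 0 < m₀ ∧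
          (∀ (σ : ℂ ≃+* ℂ), ∀ x ∈ V, C ≤ ‖σ (aeval (x ∘ i) F : ℂ)‖ →
            ‖σ (aeval (x ∘ i) N : ℂ)‖ ^ m * ‖σ (aeval (x ∘ i) F : ℂ)‖ ≤
              C * ‖σ (aeval (x ∘ i) D : ℂ)‖ ^ m) ∧
          ∀ (l : ℕ) [Fact l.Prime] (φ : ℂ →+* ℂ_[l]), ∀ x ∈ V,
            1 < ‖φ ((m₀ : ℂ) * aeval (x ∘ i) F)‖ →
            ‖(m₀ : ℂ_[l])‖ * (‖φ (aeval (x ∘ i) N : ℂ)‖ ^ m *
              ‖φ (aeval (x ∘ i) F : ℂ)‖) ≤ ‖φ (aeval (x ∘ i) D : ℂ)‖ ^ m := by
  obtain ⟨L, hL, hA, ψ, hgen, hdep, h0, hfin⟩ := exists_funQM hV hVk hdim i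
  -- `ψ a` is transcendental
  have htr : Transcendental Qb (ψ a) := by
    intro halg
    obtain ⟨c, hc⟩ := const_of_isAlgebraic halg
    have h1 : aeval ψ (X a - C c : MvPolynomial (Fin k₀) Qb) = 0 := by
      rw [map_sub, aeval_X, aeval_C, hc, sub_self]
    have h2 : ∀ m, P m (i a) = (c : ℂ) := by
      intro m
      have h3 := (h0 _).mp h1 (P m) (hP m)
      rw [map_sub, aeval_X, aeval_C, sub_eq_zero] at h3
      exact h3
    have h4 : ∀ᶠ m in atTop, ‖(c : ℂ)‖ < ‖P m (i a)‖ := ha.eventually_gt_atTop _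
    obtain ⟨m, hm⟩ := h4.exists
    rw [h2 m] at hm
    exact lt_irrefl _ hm
  -- the place
  obtain ⟨O, hOver, hlt, hnot⟩ := exists_ultraM ψ hgen (fun m => P m ∘ i)
    (fun D hD m => (h0 D).mp hD (P m) (hP m))
    (fun D hD => by
      filter_upwards [eventually_notMem_finite (hfin D hD) (i a) P ha] with m hm h5
      exact hm ⟨hP m, h5⟩)
  have haO : ψ a ∉ O := by
    have h1 := hnot (X a) 1 (by rw [map_one]; exact one_ne_zero) (by
      simpa only [aeval_X, map_one, div_one, Function.comp_apply] using ha)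
    rwa [aeval_X, map_one, div_one] at h1
  obtain ⟨t, δ, b, hS⟩ := exists_setup hdep ψ hgen htr
  have htO : t ∉ O := by
    intro ht
    exact haO (hS.int (ψ a) (Algebra.subset_adjoin ⟨a, rfl⟩) O hOver ht)
  obtain ⟨F0, hF0A, hF0t, hF0O, huniq⟩ := exists_pole hdep hS (O := O) ⟨hOver, htO⟩
  rw [Algebra.adjoin_range_eq_range_aeval] at hF0A
  obtain ⟨F, hF⟩ := hF0A
  have hF' : aeval ψ F = F0 := hF
  refine ⟨F, ?_, ?_⟩
  · intro c
    by_contra hcon
    push Not at hcon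
    -- a point with algebraic coordinates
    have h1 : (1 : MvPolynomial (Fin n) Qb) ∉
        (vanishingIdeal Qb V : Ideal (MvPolynomial (Fin n) Qb)) := by
      intro h2
      have h3 := (mem_vanishingIdeal_iff.mp h2) (P 0) (hP 0)
      rw [map_one] at h3
      exact one_ne_zero h3
    obtain ⟨z, hz, -⟩ := exists_Qb_point hVk h1
    have h4 : c = ((aeval (z ∘ i) F : Qb) : ℂ) := by
      rw [← hcon _ hz, ← aeval_coe]
      rfl
    have h5 : aeval ψ (F - C (aeval (z ∘ i) F : Qb) : MvPolynomial (Fin k₀) Qb) = 0 := by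
      rw [h0]
      intro x hx
      rw [map_sub, hcon x hx, aeval_C, h4]
      exact sub_self _
    rw [map_sub, aeval_C, sub_eq_zero, hF'] at h5
    apply hF0t
    rw [h5]
    exact isAlgebraic_algebraMap _
  · intro N D hD hND
    have hD0 : aeval ψ D ≠ 0 := by
      intro h1
      obtain ⟨x, hx, hxD⟩ := hD
      exact hxD ((h0 D).mp h1 x hx)
    by_cases hN0 : aeval ψ N = 0
    · refine ⟨1, 1, 1, one_pos, one_pos, one_pos, ?_, ?_⟩
      · intro σ x hx _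
        rw [(h0 N).mp hN0 x hx, map_zero, norm_zero, pow_one, zero_mul, one_mul, pow_one]
        exact norm_nonneg _
      · intro l _ φ x hx _
        rw [(h0 N).mp hN0 x hx, map_zero, norm_zero, pow_one, zero_mul, mul_zero, pow_one]
        exact norm_nonneg _
    · obtain ⟨m, hm, hcert⟩ := exists_cert hdep hOver hF0O huniq (hlt N D hD0 hND)
      have hc := hcert (div_ne_zero hN0 hD0)
      rw [← hF'] at hc
      obtain ⟨C, hC, hineq⟩ := ineq_of_certM ψ F N D m hD0 hc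
      obtain ⟨m₀, hm₀, hfinq⟩ := fin_of_cert ψ F N D m hD0 hc
      exact ⟨C, m, m₀, hC, hm, hm₀, fun σ x hx hle =>
        hineq σ (x ∘ i) (fun G hG => (h0 G).mp hG x hx) hle, fun l _ φ x hx hlt =>
        hfinq l φ (x ∘ i) (fun G hG => (h0 G).mp hG x hx) hlt⟩

end Pool.Agent.LGO.TG
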