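import Mathlib
import Pool.Agent.LGO.TG.GeoF
import Pool.Agent.LGO.GM.LimAlg

/-!
# LGO/TG: the values of other functions near the pole, all places

PROOF, as `geo_lim` in `LGO/T/GeoLim.lean`.  `Y` from `geoF` for `i = id` and the coordinate `a`.
First claim: `κ` is algebraic (`GM.limit_alg`), so it is an element `k` of `Qb`; `geoF` for `N - C k * D` and `D`: the quotients tend to `0` (`D(P m) ≠ 0` for large `m`:
`finite_zeroM`, `eventually_notMem_finite`).  Divide by `‖s D(x)‖ ^ m ≠ 0` and by `‖φ D(x)‖ ^ m ≠ 0`: `s (N(x) / D(x)) - s κ = s ((N - κ D)(x)) / s (D(x))`.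
Second claim: `geoF` for `N = 1`, `D = X a'`.  (`C` can be replaced by `max C 1`.)
-/

namespace Pool.Agent.LGO.TG

open MvPolynomial Filter Topology Pool.Agent.Hhelper14.ZPL Pool.Agent.LGO Pool.Agent.LGO.GM

variable {n : ℕ}

theorem geo_limF {V : Set (Fin n → ℂ)} (hV : Pool.Agent.Hhelper14.ZPL.IsIrredClosed V)
    (hVk : KClosed V) (hdim : Pool.Agent.Hhelper14.ZPL.dim V = 1) (P : ℕ → Fin n → ℂ)
    (hP : ∀ m, P m ∈ V) (a : Fin n) (ha : Tendsto (fun m => ‖P m a‖) atTop atTop) :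
    ∃ Y : MvPolynomial (Fin n) Qb, (∀ c : ℂ, ∃ x ∈ V, (aeval x Y : ℂ) ≠ c) ∧
      (∀ (N D : MvPolynomial (Fin n) Qb) (κ : ℂ), (∃ x ∈ V, (aeval x D : ℂ) ≠ 0) →
        Tendsto (fun m => (aeval (P m) N / aeval (P m) D : ℂ)) atTop (𝓝 κ) →
        IsAlgebraic ℚ κ ∧ ∃ (C : ℝ) (m m₀ : ℕ), 1 ≤ C ∧ 0 < m ∧ 0 < m₀ ∧
          (∀ s : ℂ ≃+* ℂ, ∀ x ∈ V, (aeval x D : ℂ) ≠ 0 → C ≤ ‖s (aeval x Y : ℂ)‖ →
            ‖s (aeval x N / aeval x D : ℂ) - s κ‖ ^ m * ‖s (aeval x Y : ℂ)‖ ≤ C) ∧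
          ∀ (l : ℕ) [Fact l.Prime] (φ : ℂ →+* ℂ_[l]), ∀ x ∈ V, (aeval x D : ℂ) ≠ 0 →
            1 < ‖φ ((m₀ : ℂ) * aeval x Y)‖ →
            ‖(m₀ : ℂ_[l])‖ * (‖φ (aeval x N / aeval x D : ℂ) - φ κ‖ ^ m *
              ‖φ (aeval x Y : ℂ)‖) ≤ 1) ∧
      ∀ a' : Fin n, Tendsto (fun m => ‖P m a'‖) atTop atTop →
        ∃ (C : ℝ) (m m₀ : ℕ), 1 ≤ C ∧ 0 < m ∧ 0 < m₀ ∧
          (∀ s : ℂ ≃+* ℂ, ∀ x ∈ V, C ≤ ‖s (aeval x Y : ℂ)‖ →
            ‖s (aeval x Y : ℂ)‖ ≤ C * ‖s (x a')‖ ^ m) ∧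
          ∀ (l : ℕ) [Fact l.Prime] (φ : ℂ →+* ℂ_[l]), ∀ x ∈ V,
            1 < ‖φ ((m₀ : ℂ) * aeval x Y)‖ →
            ‖(m₀ : ℂ_[l])‖ * ‖φ (aeval x Y : ℂ)‖ ≤ ‖φ (x a')‖ ^ m := by
  obtain ⟨Y, hY, hgeo⟩ := geoF hV hVk hdim (id : Fin n → Fin n) P hP a ha
  simp only [Function.comp_id] at hY hgeo
  refine ⟨Y, hY, ?_, ?_⟩
  · intro N D κ hD hlim
    have halg : IsAlgebraic ℚ κ := limit_alg hV hVk hdim (id : Fin n → Fin n) P hP a ha N D hD hlim
    refine ⟨halg, ?_⟩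
    have hk : κ ∈ Qb := by
      rw [show Qb = algebraicClosure ℚ ℂ from rfl, mem_algebraicClosure_iff]
      exact halg
    have hfin := finite_zeroM hV hVk hdim (id : Fin n → Fin n) hD
    have hev : ∀ᶠ m in atTop, (aeval (P m) D : ℂ) ≠ 0 := by
      filter_upwards [eventually_notMem_finite hfin a P ha] with m hm h5
      exact hm ⟨hP m, h5⟩
    obtain ⟨C', m', m₀, hC', hm', hm₀, h3, h3'⟩ := hgeo (N - C (⟨κ, hk⟩ : Qb) * D) D hD (by
      have h4 : Tendsto (fun m => (aeval (P m) N / aeval (P m) D : ℂ) - κ) atTop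
          (𝓝 (κ - κ)) := hlim.sub_const κ
      rw [sub_self] at h4
      refine h4.congr' ?_
      filter_upwards [hev] with m hm
      rw [map_sub, map_mul, aeval_C]
      have h5 : (algebraMap Qb ℂ) (⟨κ, hk⟩ : Qb) = κ := rfl
      rw [h5, sub_div, mul_div_assoc, div_self hm, mul_one])
    have h7 : ∀ x : Fin n → ℂ, (aeval x (N - C (⟨κ, hk⟩ : Qb) * D) : ℂ) =
        aeval x N - κ * aeval x D := by
      intro x
      rw [map_sub, map_mul, aeval_C]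
      rfl
    refine ⟨max 1 C', m', m₀, le_max_left _ _, hm', hm₀, fun s x hx hDx hle => ?_,
      fun l _ φ x hx hDx hle => ?_⟩
    · have h5 := h3 s x hx ((le_max_right _ _).trans hle)
      have hsD : s (aeval x D : ℂ) ≠ 0 := by
        intro h
        exact hDx ((map_eq_zero s).1 h)
      have hsDpos : 0 < ‖s (aeval x D : ℂ)‖ := norm_pos_iff.2 hsD
      have h6 : s (aeval x N / aeval x D : ℂ) - s κ =
          s (aeval x (N - C (⟨κ, hk⟩ : Qb) * D) : ℂ) / s (aeval x D : ℂ) := by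
        rw [h7, map_sub s, map_mul s, map_div₀ s, sub_div, mul_div_assoc, div_self hsD, mul_one]
      rw [h6, norm_div, div_pow, div_mul_eq_mul_div, div_le_iff₀ (pow_pos hsDpos _)]
      exact h5.trans (mul_le_mul_of_nonneg_right (le_max_right _ _) (pow_nonneg hsDpos.le _))
    · have h5 := h3' l φ x hx hle
      have hsD : φ (aeval x D : ℂ) ≠ 0 := by
        intro h
        exact hDx ((map_eq_zero φ).1 h)
      have hsDpos : 0 < ‖φ (aeval x D : ℂ)‖ := norm_pos_iff.2 hsD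
      have h6 : φ (aeval x N / aeval x D : ℂ) - φ κ =
          φ (aeval x (N - C (⟨κ, hk⟩ : Qb) * D) : ℂ) / φ (aeval x D : ℂ) := by
        rw [h7, map_sub φ, map_mul φ, map_div₀ φ, sub_div, mul_div_assoc, div_self hsD, mul_one]
      rw [h6, norm_div, div_pow, div_mul_eq_mul_div, mul_div_assoc', div_le_iff₀ (pow_pos hsDpos _),
        one_mul]
      exact h5
  · intro a' ha'
    obtain ⟨C1, m1, m₀, hC1, hm1, hm₀, h1, h1'⟩ := hgeo 1 (X a') (by
      obtain ⟨m, hm⟩ := (ha'.eventually_gt_atTop 0).exists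
      refine ⟨P m, hP m, ?_⟩
      rw [aeval_X]
      exact norm_pos_iff.1 hm) (by
      have h2 : Tendsto (fun m => (P m a')⁻¹) atTop (𝓝 0) :=
        tendsto_inv₀_cobounded.comp (tendsto_norm_atTop_iff_cobounded.1 ha')
      simpa only [aeval_X, map_one, one_div] using h2)
    refine ⟨max 1 C1, m1, m₀, le_max_left _ _, hm1, hm₀, fun s x hx hle => ?_,
      fun l _ φ x hx hle => ?_⟩
    · have h5 : ‖s (aeval x Y : ℂ)‖ ≤ C1 * ‖s (x a')‖ ^ m1 := by
        have h6 := h1 s x hx ((le_max_right _ _).trans hle)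
        simpa only [map_one, norm_one, one_pow, one_mul, aeval_X] using h6
      exact h5.trans (mul_le_mul_of_nonneg_right (le_max_right _ _) (by positivity))
    · have h6 := h1' l φ x hx hle
      simpa only [map_one, norm_one, one_pow, one_mul, aeval_X] using h6

end Pool.Agent.LGO.TG
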