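import Mathlib
import Pool.Agent.LGO.TG.Defs
import Pool.Agent.LGO.TG.GeoL

/-!
# LGO/TG: existence of the function `Y` for a point at infinity with `x_a = ∞`, `x_b = β`

PROOF, as `nearA` in `LGO/T/Near.lean`.  `M_b = max 1 ‖x_b‖` is bounded along the sequence, `‖x_a‖ → ∞`, so for large `m` (`P m ∉ E`: `eventually_notMem_finite`; `F`, `G` do not
vanish there) `W_m = F(P m) / G(P m) * x_a ^ p` satisfies `‖W_m‖ ≤ C M_b ^ p ≤ C'` and `1 ≤ C ‖W_m‖` (both parts of `TorG`, `max 1 ‖x_a‖ = ‖x_a‖`).  A subsequence of `W_m` converges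
(`tendsto_subseq_of_bounded`) to `κ`, `‖κ‖ ≥ 1 / C > 0`.  Pass to the subsequence and take `Y` from `geo_limF` (coordinate `a`).  `geo_limF`: second part for `a`, first part for
`(X b, 1, β)` and for `(F * X a ^ p, G, κ)` (for `x ∈ V`, `x ∉ E`: `G(x) ≠ 0`; `s (F / G * x_a ^ p) = s (F / G) * s x_a ^ p`).
Common constants: `C` the sum of the constants, `m₁` the sum of the exponents, `m₀` the product of the `m₀`.  Archimedean: see `cuspA` in `LGO/S/CuspA.lean` or `nearA`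
(`C ≤ ‖s Y‖` implies that the two small numbers are at most `1` and `‖s x_a‖ ≥ 1`, so larger exponents are allowed).  In `ℂ_[l]`: if `1 < ‖φ (m₀ Y)‖` and `m₀' ∣ m₀` then
`1 < ‖m₀'‖ ‖φ Y‖` (`‖integer‖ ≤ 1`), so `δ ^ m ≤ (‖m₀'‖ ‖φ Y‖)⁻¹ < 1` for the two small numbers, `δ ≤ 1`, and `‖φ x_a‖ ^ m ≥ ‖m₀'‖ ‖φ Y‖ > 1`, `‖φ x_a‖ ≥ 1`: larger exponents are allowed.
The exceptional set: `E`.
-/

namespace Pool.Agent.LGO.TG

open MvPolynomial Filter Topology Pool.Agent.Hhelper14.ZPL Pool.Agent.LGO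

variable {n : ℕ}

/-- a bounded sequence which stays away from `0` has a subsequence with a limit which is not `0` -/
private theorem NearX_sub {W : ℕ → ℂ} {R δ : ℝ} (h : ∀ᶠ m in atTop, ‖W m‖ ≤ R ∧ δ ≤ ‖W m‖) :
    ∃ κ : ℂ, δ ≤ ‖κ‖ ∧ ∃ φ : ℕ → ℕ, StrictMono φ ∧ Tendsto (fun m => W (φ m)) atTop (𝓝 κ) := by
  have hK : IsCompact (Metric.closedBall (0 : ℂ) R \ Metric.ball (0 : ℂ) δ) :=
    (isCompact_closedBall (0 : ℂ) R).diff Metric.isOpen_ball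
  obtain ⟨κ, hκ, φ, hφ, hlim⟩ := hK.tendsto_subseq' (x := W) (by
    refine h.frequently.mono fun m hm => ⟨?_, ?_⟩
    · rw [mem_closedBall_zero_iff]
      exact hm.1
    · rw [mem_ball_zero_iff, not_lt]
      exact hm.2)
  refine ⟨κ, ?_, φ, hφ, hlim⟩
  have h1 := hκ.2
  rwa [mem_ball_zero_iff, not_lt] at h1

/-- a power of a small distance -/
private theorem NearX_small {r f D : ℝ} {k M : ℕ} (hr : 0 ≤ r) (hD : 0 < D) (hk : 0 < k) (hkM : k ≤ M)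
    (hDf : D ≤ f) (hrf : r ^ k * f ≤ D) : r ^ M * f ≤ D := by
  have hr1 : r ≤ 1 := by
    by_contra hcon
    push Not at hcon
    have h4 : 1 < r ^ k := one_lt_pow₀ hcon hk.ne'
    have h5 : f < r ^ k * f := by
      have h6 : 0 < f := hD.trans_le hDf
      nlinarith
    linarith
  have h4 : r ^ M ≤ r ^ k := pow_le_pow_of_le_one hr hr1 hkM
  exact (mul_le_mul_of_nonneg_right h4 (hD.le.trans hDf)).trans hrf

/-- a power of a large number -/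
private theorem NearX_large {r f D D' : ℝ} {k M : ℕ} (hr : 0 ≤ r) (hD : 0 < D) (hk : 0 < k) (hkM : k ≤ M)
    (hDf : D ≤ f) (hrf : f ≤ D * r ^ k) (hDD : D ≤ D') : f ≤ D' * r ^ M := by
  have h6 : 1 ≤ r ^ k := by
    have h7 : D * 1 ≤ D * r ^ k := by rw [mul_one]; exact hDf.trans hrf
    exact le_of_mul_le_mul_left h7 hD
  have h8 : 1 ≤ r := by
    by_contra hcon
    push Not at hcon
    have := pow_lt_one₀ hr hcon hk.ne'
    linarith
  calc f ≤ D * r ^ k := hrf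
    _ ≤ D * r ^ M := mul_le_mul_of_nonneg_left (pow_le_pow_right₀ h8 hkM) hD.le
    _ ≤ D' * r ^ M := mul_le_mul_of_nonneg_right hDD (by positivity)

/-- the quotient `f A / g` from the two inequalities -/
private theorem NearX_quot {f g A B C : ℝ} (hf : 0 ≤ f) (hg : 0 < g) (hA : 0 ≤ A) (hB : 1 ≤ B)
    (up : f * A ≤ C * (g * B)) (lo : g * B ≤ C * (f * A)) :
    f * A / g ≤ |C| * B ∧ (|C| + 1)⁻¹ ≤ f * A / g := by
  constructor
  · rw [div_le_iff₀ hg]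
    calc f * A ≤ C * (g * B) := up
      _ ≤ |C| * (g * B) := mul_le_mul_of_nonneg_right (le_abs_self C) (by positivity)
      _ = |C| * B * g := by ring
  · rw [le_div_iff₀ hg, inv_mul_le_iff₀ (by positivity)]
    calc g = g * 1 := (mul_one g).symm
      _ ≤ g * B := mul_le_mul_of_nonneg_left hB hg.le
      _ ≤ C * (f * A) := lo
      _ ≤ (|C| + 1) * (f * A) :=
          mul_le_mul_of_nonneg_right ((le_abs_self C).trans (by linarith)) (by positivity)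

private theorem NearX_bdd {u : ℕ → ℂ} {β : ℂ} (h : Tendsto u atTop (𝓝 β)) :
    ∀ᶠ m in atTop, max 1 ‖u m‖ ≤ ‖β‖ + 1 := by
  filter_upwards [h.norm.eventually_lt_const (lt_add_one ‖β‖)] with m hm
  exact max_le (by linarith [norm_nonneg β]) hm.le

private theorem NearX_sm {δ f A a : ℝ} {k M : ℕ} (hδ : 0 ≤ δ) (hf : 0 ≤ f) (ha : 0 ≤ a) (haA : a ≤ A)
    (hk : k ≤ M) (h1 : 1 < A * f) (h : A * (δ ^ k * f) ≤ 1) : a * (δ ^ M * f) ≤ 1 := by
  have hA : 0 ≤ A := ha.trans haA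
  have hδ1 : δ ≤ 1 := by
    by_contra hcon
    push Not at hcon
    have h2 : 1 ≤ δ ^ k := one_le_pow₀ hcon.le
    have h3 : A * f ≤ A * (δ ^ k * f) :=
      mul_le_mul_of_nonneg_left (le_mul_of_one_le_left hf h2) hA
    linarith
  have h4 : δ ^ M ≤ δ ^ k := pow_le_pow_of_le_one hδ hδ1 hk
  calc a * (δ ^ M * f) ≤ A * (δ ^ k * f) :=
        mul_le_mul haA (mul_le_mul_of_nonneg_right h4 hf) (by positivity) hA
    _ ≤ 1 := h

private theorem NearX_lg {r f A a : ℝ} {k M : ℕ} (hr : 0 ≤ r) (hf : 0 ≤ f) (haA : a ≤ A) (hk0 : 0 < k)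
    (hk : k ≤ M) (h1 : 1 < A * f) (h : A * f ≤ r ^ k) : a * f ≤ r ^ M := by
  have hr1 : 1 ≤ r := by
    by_contra hcon
    push Not at hcon
    have := pow_lt_one₀ hr hcon hk0.ne'
    linarith
  calc a * f ≤ A * f := mul_le_mul_of_nonneg_right haA hf
    _ ≤ r ^ k := h
    _ ≤ r ^ M := pow_le_pow_right₀ hr1 hk

private theorem NearX_nat {l : ℕ} [Fact l.Prime] (c d : ℕ) :
    ‖((c * d : ℕ) : ℂ_[l])‖ ≤ ‖(c : ℂ_[l])‖ := by
  rw [Nat.cast_mul, norm_mul]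
  exact mul_le_of_le_one_right (norm_nonneg _) (IsUltrametricDist.norm_natCast_le_one ℂ_[l] d)

private theorem NearX_one {l : ℕ} [Fact l.Prime] (φ : ℂ →+* ℂ_[l]) (M c : ℕ) (y : ℂ)
    (hM : ‖(M : ℂ_[l])‖ ≤ ‖(c : ℂ_[l])‖) (h : 1 < ‖φ ((M : ℂ) * y)‖) :
    1 < ‖(c : ℂ_[l])‖ * ‖φ y‖ ∧ 1 < ‖φ ((c : ℂ) * y)‖ := by
  rw [map_mul, map_natCast, norm_mul] at h
  have h1 : 1 < ‖(c : ℂ_[l])‖ * ‖φ y‖ :=
    h.trans_le (mul_le_mul_of_nonneg_right hM (norm_nonneg _))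
  refine ⟨h1, ?_⟩
  rw [map_mul, map_natCast, norm_mul]
  exact h1

theorem nearG {V : Set (Fin n → ℂ)} (hV : Pool.Agent.Hhelper14.ZPL.IsIrredClosed V)
    (hVk : KClosed V) (hdim : Pool.Agent.Hhelper14.ZPL.dim V = 1) {a b : Fin n}
    {F G : MvPolynomial (Fin n) Qb} {p : ℕ} {C₀ : ℝ} {E : Set (Fin n → ℂ)}
    (h : TorG V a b F G p C₀ E) (P : ℕ → Fin n → ℂ) (hP : ∀ m, P m ∈ V)
    (ha : Tendsto (fun m => ‖P m a‖) atTop atTop) {β : ℂ}
    (hb : Tendsto (fun m => P m b) atTop (𝓝 β)) :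
    ∃ (Y : MvPolynomial (Fin n) Qb) (κ : ℂ) (C : ℝ) (m₁ m₀ : ℕ), 1 ≤ C ∧ 0 < m₁ ∧ 0 < m₀ ∧
      NearG V a b F G p Y κ β C m₁ m₀ E := by
  obtain ⟨hab, hba⟩ := h
  obtain ⟨W, hW⟩ : ∃ W : ℕ → ℂ, W = fun m =>
      (aeval (P m) (F * X a ^ p) / aeval (P m) G : ℂ) := ⟨_, rfl⟩
  have hE := eventually_notMem_finite hab.fin a P ha
  have hev : ∀ᶠ m in atTop, ‖W m‖ ≤ |C₀| * (‖β‖ + 1) ^ p ∧ (|C₀| + 1)⁻¹ ≤ ‖W m‖ := by
    filter_upwards [hE, ha.eventually_ge_atTop 1, NearX_bdd hb] with m hm h1 h2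
    have h3 := hab.up (P m) (hP m) hm
    have h4 := hba.up (P m) (hP m) hm
    rw [max_eq_right h1] at h3 h4
    have hB : (1 : ℝ) ≤ max 1 ‖P m b‖ ^ p := one_le_pow₀ (le_max_left _ _)
    obtain ⟨h5, h6⟩ := NearX_quot (norm_nonneg _) (norm_pos_iff.2 (hab.neG (P m) (hP m) hm))
      (by positivity : (0 : ℝ) ≤ ‖P m a‖ ^ p) hB h3 h4
    have h7 : ‖W m‖ = ‖(aeval (P m) F : ℂ)‖ * ‖P m a‖ ^ p / ‖(aeval (P m) G : ℂ)‖ := by
      rw [hW]
      simp only [map_mul, map_pow, aeval_X, norm_div, norm_mul, norm_pow]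
    rw [h7]
    refine ⟨h5.trans ?_, h6⟩
    exact mul_le_mul_of_nonneg_left (pow_le_pow_left₀ (by positivity) h2 p) (abs_nonneg _)
  obtain ⟨κ, hκ, φ, hφ, hlim⟩ := NearX_sub hev
  have hκ0 : κ ≠ 0 := by
    intro h0
    rw [h0, norm_zero] at hκ
    have : 0 < (|C₀| + 1)⁻¹ := by positivity
    linarith
  have hφt := hφ.tendsto_atTop
  have hP' : ∀ m, P (φ m) ∈ V := fun m => hP _
  have ha' : Tendsto (fun m => ‖P (φ m) a‖) atTop atTop := ha.comp hφt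
  have hb' : Tendsto (fun m => P (φ m) b) atTop (𝓝 β) := hb.comp hφt
  have hne1 : ∃ x ∈ V, (aeval x (1 : MvPolynomial (Fin n) Qb) : ℂ) ≠ 0 :=
    ⟨P 0, hP 0, by rw [map_one]; exact one_ne_zero⟩
  have hneG : ∃ x ∈ V, (aeval x G : ℂ) ≠ 0 := by
    obtain ⟨m, hm⟩ := hE.exists
    exact ⟨P m, hP m, hab.neG (P m) (hP m) hm⟩
  have hX : ∀ (y : Fin n → ℂ) (d : Fin n), (aeval y (X d : MvPolynomial (Fin n) Qb) /
      aeval y (1 : MvPolynomial (Fin n) Qb) : ℂ) = y d := by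
    intro y d
    rw [aeval_X, map_one, div_one]
  have hlb : Tendsto (fun m => (aeval (P (φ m)) (X b : MvPolynomial (Fin n) Qb) /
      aeval (P (φ m)) (1 : MvPolynomial (Fin n) Qb) : ℂ)) atTop (𝓝 β) := by
    refine hb'.congr fun m => ?_
    exact (hX _ b).symm
  have hlW : Tendsto (fun m => (aeval (P (φ m)) (F * X a ^ p) / aeval (P (φ m)) G : ℂ)) atTop
      (𝓝 κ) := by
    rw [hW] at hlim
    exact hlim
  obtain ⟨Y, hnc, h1, h2⟩ := geo_limF hV hVk hdim (fun m => P (φ m)) hP' a ha'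
  obtain ⟨C1, m1, n1, hC1, hm1, hn1, g1, f1⟩ := h2 a ha'
  obtain ⟨algβ, C2, m2, n2, hC2, hm2, hn2, g2, f2⟩ := h1 (X b) 1 β hne1 hlb
  obtain ⟨algκ, C3, m3, n3, hC3, hm3, hn3, g3, f3⟩ := h1 (F * X a ^ p) G κ hneG hlW
  refine ⟨Y, κ, C1 + C2 + C3, m1 + m2 + m3, n1 * n2 * n3, by linarith, by omega,
    Nat.mul_pos (Nat.mul_pos hn1 hn2) hn3, ?_⟩
  refine ⟨algκ, algβ, hκ0, hab.fin, hnc, fun x hx hxE => ⟨fun s hle => ⟨?_, ?_, ?_⟩,
    fun l _ ψ hgt => ⟨?_, ?_, ?_⟩⟩⟩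
  · exact NearX_large (norm_nonneg _) (by linarith) hm1 (by omega) (by linarith)
      (g1 s x hx (by linarith)) (by linarith)
  · have h5 := g2 s x hx (by rw [map_one]; exact one_ne_zero) (by linarith)
    rw [hX x b] at h5
    have h6 := NearX_small (M := m1 + m2 + m3) (norm_nonneg _) (by linarith : (0 : ℝ) < C2) hm2
      (by omega) (by linarith) h5
    linarith
  · have h5 := g3 s x hx (hab.neG x hx hxE) (by linarith)
    have h7 : s (aeval x (F * X a ^ p) / aeval x G : ℂ) =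
        s (aeval x F / aeval x G : ℂ) * s (x a) ^ p := by
      rw [← map_pow s, ← map_mul s]
      congr 1
      rw [map_mul, map_pow, aeval_X]
      ring
    rw [h7] at h5
    have h6 := NearX_small (M := m1 + m2 + m3) (norm_nonneg _) (by linarith : (0 : ℝ) < C3) hm3
      (by omega) (by linarith) h5
    linarith
  · have e1 : ‖((n1 * n2 * n3 : ℕ) : ℂ_[l])‖ ≤ ‖(n1 : ℂ_[l])‖ := by
      rw [mul_assoc]; exact NearX_nat _ _
    obtain ⟨q1, q2⟩ := NearX_one ψ _ n1 _ e1 hgt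
    exact NearX_lg (norm_nonneg _) (norm_nonneg _) e1 hm1 (by omega) q1 (f1 l ψ x hx q2)
  · have e1 : ‖((n1 * n2 * n3 : ℕ) : ℂ_[l])‖ ≤ ‖(n2 : ℂ_[l])‖ := by
      have : n1 * n2 * n3 = n2 * (n1 * n3) := by ring
      rw [this]; exact NearX_nat _ _
    obtain ⟨q1, q2⟩ := NearX_one ψ _ n2 _ e1 hgt
    have h5 := f2 l ψ x hx (by rw [map_one]; exact one_ne_zero) q2
    rw [hX x b] at h5
    exact NearX_sm (norm_nonneg _) (norm_nonneg _) (norm_nonneg _) e1 (by omega) q1 h5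
  · have e1 : ‖((n1 * n2 * n3 : ℕ) : ℂ_[l])‖ ≤ ‖(n3 : ℂ_[l])‖ := by
      have : n1 * n2 * n3 = n3 * (n1 * n2) := by ring
      rw [this]; exact NearX_nat _ _
    obtain ⟨q1, q2⟩ := NearX_one ψ _ n3 _ e1 hgt
    have h5 := f3 l ψ x hx (hab.neG x hx hxE) q2
    have h7 : ψ (aeval x (F * X a ^ p) / aeval x G : ℂ) =
        ψ (aeval x F / aeval x G : ℂ) * ψ (x a) ^ p := by
      rw [← map_pow ψ, ← map_mul ψ]
      congr 1
      rw [map_mul, map_pow, aeval_X]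
      ring
    rw [h7] at h5
    exact NearX_sm (norm_nonneg _) (norm_nonneg _) (norm_nonneg _) e1 (by omega) q1 h5

end Pool.Agent.LGO.TG
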