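import Mathlib
import Pool.Agent.LGO.H.Use
import Pool.Agent.LGO.U.RNum
import Pool.Agent.LGO.PA.QInt

/-!
# LGO/TG: from a bound in terms of the house to a polynomial bound

PROOF, as the second half of `PA_main` (`PA/Main.lean`).  `N = max 3 (mdeg v u)`, `D = [K : ℚ] ≥ 1`.  `u`, `v` are algebraic, they have finitely many conjugates, so there are
automorphisms `s_u`, `s_v` with `‖s u‖ ≤ ‖s_u u‖`, `‖s v‖ ≤ ‖s_v v‖` for all `s` (`Main_max` in `PA/Main.lean` is private: copy it); `H = max 1 (max (log ‖s_u u‖) (log ‖s_v v‖))`.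
By hypothesis `Bd K G u`, `Bd K G v` with `G = (C₀ (D (1 + log mdeg + log H))) ^ C₀`, so `log ‖s_u u‖, log ‖s_v v‖ ≤ G` (`Bd.aut`) and `H ≤ (a D (log N + log H)) ^ k` for constants `a`, `k`
(`log N ≥ 1`).  `num_H` (`LGO/U/RNum.lean`): `H ≤ (C₃ D log N) ^ C₃`.  So `Bd K ((C₄ D log N) ^ C₄) u`, the same for `v`.  `isog_use` (`LGO/H/Use.lean`) for `v`, `u`
(`NCM.of_isog`) with `M = (C₅ D log N) ^ C₅`: `mdeg v u ≤ M ^ C₆`, `N ≤ 3 + M ^ C₆ ≤ (a' D log N) ^ k'`, `num_N`: `N ≤ (C₇ D) ^ C₇`.  `log N ≤ C₇ log (C₇ D) ≤ C₇ C₇ D`.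
-/

namespace Pool.Agent.LGO.TG

open Pool.Agent.Hhelper14.ZPL Pool.Agent.LGO Pool.Agent.LGO.U Pool.Agent.LGO.PA

/-- one of the conjugates of an algebraic number has the largest absolute value -/
private theorem Close_max {z : ℂ} (hint : IsIntegral ℚ z) :
    ∃ s₀ : ℂ ≃+* ℂ, ∀ s : ℂ ≃+* ℂ, ‖s z‖ ≤ ‖s₀ z‖ := by
  classical
  have hP0 : minpoly ℚ z ≠ 0 := minpoly.ne_zero hint
  have hfin : (Set.range fun s : ℂ ≃+* ℂ => ‖s z‖).Finite := by
    apply Set.Finite.subset ((((minpoly ℚ z).aroots ℂ).toFinset.finite_toSet).image fun w => ‖w‖)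
    rintro _ ⟨s, rfl⟩
    refine ⟨s z, ?_, rfl⟩
    rw [Finset.mem_coe, Multiset.mem_toFinset, Polynomial.mem_aroots]
    refine ⟨hP0, ?_⟩
    have h1 := Polynomial.aeval_algHom_apply (RingHom.toRatAlgHom (s : ℂ →+* ℂ)) z (minpoly ℚ z)
    rw [minpoly.aeval, map_zero] at h1
    exact h1
  obtain ⟨r, ⟨s₀, hs₀⟩, hr⟩ := Set.exists_max_image (Set.range fun s : ℂ ≃+* ℂ => ‖s z‖) id hfin
    ⟨_, ⟨RingEquiv.refl ℂ, rfl⟩⟩
  refine ⟨s₀, fun s => ?_⟩
  have := hr _ ⟨s, rfl⟩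
  rw [← hs₀] at this
  exact this

private theorem Close_log {x y : ℝ} (hx : 0 ≤ x) (hy : 0 ≤ y) (h : x ≤ Real.exp y) :
    Real.log x ≤ y := by
  rcases hx.eq_or_lt with rfl | hx
  · rwa [Real.log_zero]
  · exact (Real.log_le_iff_le_exp hx).2 h

private theorem Close_num1 {Ct D lN lm lH : ℝ} {k : ℕ} (ht : 1 ≤ Ct)
    (hD : 1 ≤ D) (hN : 1 ≤ lN) (hm : 0 ≤ lm) (hmN : lm ≤ lN) (hH : 0 ≤ lH) :
    (Ct * (D * (1 + lm + lH))) ^ k ≤ (2 * Ct * D * (lN + lH)) ^ k := by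
  have e1 : Ct * (D * (1 + lm + lH)) ≤ 2 * Ct * D * (lN + lH) := by
    have a1 : 1 + lm + lH ≤ 2 * (lN + lH) := by linarith
    have a2 : D * (1 + lm + lH) ≤ D * (2 * (lN + lH)) :=
      mul_le_mul_of_nonneg_left a1 (by linarith)
    have a3 : Ct * (D * (1 + lm + lH)) ≤ Ct * (D * (2 * (lN + lH))) :=
      mul_le_mul_of_nonneg_left a2 (by linarith)
    calc _ ≤ _ := a3
      _ = _ := by ring
  exact pow_le_pow_left₀ (by positivity) e1 k

private theorem Close_num2 {a C₃ D lN lH : ℝ} {j k : ℕ} (h0 : 1 ≤ a) (h1 : 1 ≤ C₃) (hD : 1 ≤ D)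
    (hN : 1 ≤ lN) (hH0 : 0 ≤ lH) (hH : lH ≤ (C₃ * D * lN) ^ j) (hj : 1 ≤ j) :
    (a * D * (lN + lH)) ^ k ≤ (2 * a * C₃ * D * lN) ^ ((j + 1) * k) := by
  have hY : 1 ≤ C₃ * D * lN := one_le_mul_of_one_le_of_one_le (one_le_mul_of_one_le_of_one_le h1 hD) hN
  have hlN : lN ≤ (C₃ * D * lN) ^ j := by
    calc lN = 1 * lN := (one_mul _).symm
      _ ≤ C₃ * D * lN := mul_le_mul_of_nonneg_right (one_le_mul_of_one_le_of_one_le h1 hD) (by linarith)
      _ ≤ (C₃ * D * lN) ^ j := le_self_pow₀ hY (by omega)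
  have e1 : a * D * (lN + lH) ≤ (2 * a * C₃ * D * lN) ^ (j + 1) := by
    calc a * D * (lN + lH) ≤ a * D * (2 * (C₃ * D * lN) ^ j) :=
          mul_le_mul_of_nonneg_left (by linarith) (by positivity)
      _ = (2 * a * D) * (C₃ * D * lN) ^ j := by ring
      _ ≤ (2 * a * C₃ * D * lN) * (2 * a * C₃ * D * lN) ^ j := by
          refine mul_le_mul ?_ (pow_le_pow_left₀ (by positivity) ?_ j) (by positivity) (by positivity)
          · calc 2 * a * D = 2 * a * D * 1 := by ring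
              _ ≤ 2 * a * D * (C₃ * lN) :=
                mul_le_mul_of_nonneg_left (one_le_mul_of_one_le_of_one_le h1 hN) (by positivity)
              _ = _ := by ring
          · calc C₃ * D * lN = 1 * (C₃ * D * lN) := (one_mul _).symm
              _ ≤ (2 * a) * (C₃ * D * lN) := mul_le_mul_of_nonneg_right (by linarith) (by positivity)
              _ = _ := by ring
      _ = _ := by ring
  rw [pow_mul]
  exact pow_le_pow_left₀ (by positivity) e1 _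

theorem close (C₀ : ℕ) : ∃ C : ℕ, 1 ≤ C ∧ ∀ (K : IntermediateField ℚ ℂ) [FiniteDimensional ℚ K]
    (u v : ℂ), u ∈ K → v ∈ K → NCM v → (∃ N, 0 < N ∧ IsogDeg N v u) →
    (∀ H : ℝ, 1 ≤ H → (∀ s : ℂ ≃+* ℂ, ‖s u‖ ≤ Real.exp H) →
      (∀ s : ℂ ≃+* ℂ, ‖s v‖ ≤ Real.exp H) →
      Bd K ((C₀ * (Module.finrank ℚ K * (1 + Real.log (mdeg v u) + Real.log H))) ^ C₀) u ∧
      Bd K ((C₀ * (Module.finrank ℚ K * (1 + Real.log (mdeg v u) + Real.log H))) ^ C₀) v) →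
    (mdeg v u : ℝ) ≤ (C * Module.finrank ℚ K : ℝ) ^ C ∧
      Bd K ((C * Module.finrank ℚ K : ℝ) ^ C) u ∧ Bd K ((C * Module.finrank ℚ K : ℝ) ^ C) v := by
  classical
  obtain ⟨C6, hisog⟩ := isog_use
  obtain ⟨Ct, hCt, hCt0⟩ : ∃ Ct : ℕ, 1 ≤ Ct ∧ Ct = C₀ + 1 := ⟨C₀ + 1, by omega, rfl⟩
  have hCt1 : (1 : ℝ) ≤ Ct := by exact_mod_cast hCt
  obtain ⟨a, ha⟩ : ∃ a : ℝ, a = 2 * Ct := ⟨_, rfl⟩
  have ha1 : 1 ≤ a := by rw [ha]; linarith
  obtain ⟨C₃, hC₃, hnumH⟩ := num_H a (by linarith) Ct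
  have hC₃1 : (1 : ℝ) ≤ C₃ := by exact_mod_cast hC₃
  obtain ⟨k, hk⟩ : ∃ k : ℕ, k = (C₃ + 1) * Ct := ⟨_, rfl⟩
  have hk1 : 1 ≤ k := by rw [hk]; exact Nat.mul_pos (by omega) (by omega)
  obtain ⟨b, hb'⟩ : ∃ b : ℝ, b = 2 * a * C₃ := ⟨_, rfl⟩
  have hb1 : 1 ≤ b := by
    have : 1 ≤ a * C₃ := one_le_mul_of_one_le_of_one_le ha1 hC₃1
    rw [hb']; nlinarith
  obtain ⟨C₇, hC₇, hnumN⟩ := num_N (3 * b) (by positivity) (k * C6 + 1)
  have hC₇1 : (1 : ℝ) ≤ C₇ := by exact_mod_cast hC₇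
  obtain ⟨e, he⟩ : ∃ e : ℝ, e = b * C₇ ^ 2 := ⟨_, rfl⟩
  have he1 : 1 ≤ e := by
    rw [he]; exact one_le_mul_of_one_le_of_one_le hb1 (one_le_pow₀ hC₇1)
  refine ⟨⌈e⌉₊ + 2 * k + C₇, by omega, ?_⟩
  intro K _ u v hu hv hncm hiso hyp
  have hD1 : (1 : ℝ) ≤ Module.finrank ℚ K := by exact_mod_cast Module.finrank_pos
  obtain ⟨D, hDdef⟩ : ∃ D : ℝ, D = Module.finrank ℚ K := ⟨_, rfl⟩
  rw [← hDdef] at hD1 hyp ⊢
  set C : ℕ := ⌈e⌉₊ + 2 * k + C₇ with hCdef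
  have hk0 : (0 : ℝ) ≤ k := Nat.cast_nonneg k
  have hCr : e + 2 * k + C₇ ≤ (C : ℝ) := by
    have e2 := Nat.le_ceil e
    rw [hCdef]; push_cast; linarith
  have hC1 : (1 : ℝ) ≤ C := by linarith
  have hC0 : 1 ≤ C := by exact_mod_cast hC1
  have hCD : 1 ≤ C * D := one_le_mul_of_one_le_of_one_le hC1 hD1
  have hint' : ∀ z ∈ K, IsIntegral ℚ z := by
    intro z hz
    have h1 : IsIntegral ℚ (⟨z, hz⟩ : K) := Algebra.IsIntegral.isIntegral _
    exact h1.map K.val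
  obtain ⟨su, hsu⟩ := Close_max (hint' u hu)
  obtain ⟨sv, hsv⟩ := Close_max (hint' v hv)
  set H : ℝ := max 1 (max (Real.log ‖su u‖) (Real.log ‖sv v‖)) with hHdef
  have hH1 : 1 ≤ H := le_max_left _ _
  have bu : ∀ s : ℂ ≃+* ℂ, ‖s u‖ ≤ Real.exp H := fun s =>
    (hsu s).trans ((Real.le_exp_log _).trans (Real.exp_le_exp.2 ((le_max_left _ _).trans (le_max_right _ _))))
  have bv : ∀ s : ℂ ≃+* ℂ, ‖s v‖ ≤ Real.exp H := fun s =>
    (hsv s).trans ((Real.le_exp_log _).trans (Real.exp_le_exp.2 ((le_max_right _ _).trans (le_max_right _ _))))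
  have hm0 : 0 ≤ Real.log (mdeg v u) := Real.log_natCast_nonneg _
  have hlH0 : 0 ≤ Real.log H := Real.log_nonneg hH1
  obtain ⟨N, hN⟩ : ∃ N : ℝ, N = max 3 (mdeg v u : ℝ) := ⟨_, rfl⟩
  have hN3 : 3 ≤ N := by rw [hN]; exact le_max_left _ _
  have hmN : (mdeg v u : ℝ) ≤ N := by rw [hN]; exact le_max_right _ _
  have hlN : 1 ≤ Real.log N := by
    rw [Real.le_log_iff_exp_le (by linarith)]
    have := Real.exp_one_lt_d9
    linarith
  have hmlog : Real.log (mdeg v u) ≤ Real.log N := by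
    rcases Nat.eq_zero_or_pos (mdeg v u) with h0 | h0
    · rw [h0, Nat.cast_zero, Real.log_zero]
      linarith
    · exact Real.log_le_log (by exact_mod_cast h0) hmN
  obtain ⟨hbu₀, hbv₀⟩ := hyp H hH1 bu bv
  obtain ⟨X, hX0⟩ : ∃ X : ℝ, X = D * (1 + Real.log (mdeg v u) + Real.log H) := ⟨_, rfl⟩
  have hX1 : 1 ≤ X := by
    rw [hX0]
    exact one_le_mul_of_one_le_of_one_le hD1 (by linarith)
  rw [← hX0] at hbu₀ hbv₀
  obtain ⟨G, hG⟩ : ∃ G : ℝ, G = (Ct * X) ^ Ct := ⟨_, rfl⟩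
  have hCtX : 1 ≤ Ct * X := one_le_mul_of_one_le_of_one_le hCt1 hX1
  have hG1 : 1 ≤ G := by
    rw [hG]
    exact one_le_pow₀ hCtX
  have hG₀ : ((C₀ : ℝ) * X) ^ C₀ ≤ G := by
    have h1 : (C₀ : ℝ) ≤ Ct := by rw [hCt0]; push_cast; linarith
    have h2 : (0 : ℝ) ≤ C₀ := Nat.cast_nonneg _
    rw [hG]
    calc ((C₀ : ℝ) * X) ^ C₀ ≤ ((Ct : ℝ) * X) ^ C₀ :=
          pow_le_pow_left₀ (by positivity) (mul_le_mul_of_nonneg_right h1 (by linarith)) _
      _ ≤ ((Ct : ℝ) * X) ^ Ct := pow_le_pow_right₀ hCtX (by omega)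
  have hbu : Bd K G u := hbu₀.mono hG₀
  have hbv : Bd K G v := hbv₀.mono hG₀
  have hHG : H ≤ G := by
    refine max_le hG1 (max_le ?_ ?_)
    · exact Close_log (norm_nonneg _) (by linarith) (hbu.aut su)
    · exact Close_log (norm_nonneg _) (by linarith) (hbv.aut sv)
  have hX := Close_num1 (k := Ct) hCt1 hD1 hlN hm0 hmlog hlH0
  rw [← hX0, ← hG, ← ha] at hX
  have hH3 : H ≤ (C₃ * D * Real.log N) ^ C₃ := hnumH D N H hD1 hN3 hH1 (hHG.trans hX)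
  have hlHH : Real.log H ≤ (C₃ * D * Real.log N) ^ C₃ := by
    refine le_trans ?_ hH3
    have := Real.log_le_sub_one_of_pos (x := H) (by linarith)
    linarith
  have hY := Close_num2 (a := a) (k := Ct) ha1 hC₃1 hD1 hlN hlH0 hlHH hC₃
  rw [← hk, ← hb'] at hY
  have hall : G ≤ (b * D * Real.log N) ^ k := hX.trans hY
  have hZ1 : 1 ≤ b * D * Real.log N :=
    one_le_mul_of_one_le_of_one_le (one_le_mul_of_one_le_of_one_le hb1 hD1) hlN
  -- the isogeny theorem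
  have hZM : b * D * Real.log N ≤ 3 * b * D * Real.log N := by
    calc b * D * Real.log N = 1 * (b * D * Real.log N) := (one_mul _).symm
      _ ≤ 3 * (b * D * Real.log N) := mul_le_mul_of_nonneg_right (by norm_num) (by linarith)
      _ = _ := by ring
  have hM3 : 3 ≤ 3 * b * D * Real.log N := by
    calc (3 : ℝ) = 3 * 1 := by ring
      _ ≤ 3 * (b * D * Real.log N) := mul_le_mul_of_nonneg_left hZ1 (by norm_num)
      _ = _ := by ring
  obtain ⟨W, hW⟩ : ∃ W : ℝ, W = 3 * b * D * Real.log N := ⟨_, rfl⟩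
  rw [← hW] at hZM hM3
  have hW1 : 1 ≤ W := by linarith
  have hM2 : 2 ≤ W ^ k := by
    calc (2 : ℝ) ≤ W := by linarith
      _ ≤ W ^ k := le_self_pow₀ hW1 (by omega)
  have hMD : (Module.finrank ℚ K : ℝ) ≤ W ^ k := by
    rw [← hDdef]
    calc D ≤ W := by
          rw [hW]
          have h9 : 1 ≤ b * Real.log N := one_le_mul_of_one_le_of_one_le hb1 hlN
          calc D = D * 1 := by ring
            _ ≤ D * (3 * (b * Real.log N)) := mul_le_mul_of_nonneg_left (by linarith) (by linarith)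
            _ = _ := by ring
      _ ≤ W ^ k := le_self_pow₀ hW1 (by omega)
  have hallW : G ≤ W ^ k := hall.trans (pow_le_pow_left₀ (by linarith) hZM k)
  have hncmu : NCM u := by
    obtain ⟨n, hn, hn'⟩ := hiso
    exact NCM.of_isog hn hn' hncm
  have hmd := hisog K (W ^ k) v u hM2 hMD (hbv.mono hallW) (hbu.mono hallW) hncm hncmu hiso
  rw [← pow_mul] at hmd
  have hNW : N ≤ W ^ (k * C6 + 1) := by
    rw [hN]
    refine max_le ?_ ?_
    · calc (3 : ℝ) ≤ W := hM3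
        _ ≤ W ^ (k * C6 + 1) := le_self_pow₀ hW1 (by omega)
    · exact hmd.trans (pow_le_pow_right₀ hW1 (by omega))
  rw [hW] at hNW
  have hN7 : N ≤ (C₇ * D) ^ C₇ := hnumN D N hD1 hN3 hNW
  have hC7D : 1 ≤ C₇ * D := one_le_mul_of_one_le_of_one_le hC₇1 hD1
  have hlN7 : Real.log N ≤ C₇ ^ 2 * D := by
    calc Real.log N ≤ Real.log ((C₇ * D) ^ C₇) := Real.log_le_log (by linarith) hN7
      _ = C₇ * Real.log (C₇ * D) := by rw [Real.log_pow]
      _ ≤ C₇ * (C₇ * D) := by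
          apply mul_le_mul_of_nonneg_left _ (by linarith)
          have := Real.log_le_sub_one_of_pos (x := C₇ * D) (by linarith)
          linarith
      _ = _ := by ring
  have hfin : G ≤ (C * D) ^ C := by
    have h10 : b * D * Real.log N ≤ e * D ^ 2 := by
      calc b * D * Real.log N ≤ b * D * (C₇ ^ 2 * D) := mul_le_mul_of_nonneg_left hlN7 (by positivity)
        _ = e * D ^ 2 := by rw [he]; ring
    have h11 : e * D ^ 2 ≤ (C * D) ^ 2 := by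
      have h12 : e ≤ C := by linarith
      calc e * D ^ 2 ≤ (C ^ 2) * D ^ 2 := by
            apply mul_le_mul_of_nonneg_right _ (by positivity)
            nlinarith
        _ = _ := by ring
    calc G ≤ (b * D * Real.log N) ^ k := hall
      _ ≤ ((C * D) ^ 2) ^ k := pow_le_pow_left₀ (by linarith) (h10.trans h11) k
      _ = (C * D) ^ (2 * k) := by rw [← pow_mul]
      _ ≤ (C * D) ^ C := pow_le_pow_right₀ hCD (by omega)
  refine ⟨?_, hbu.mono hfin, hbv.mono hfin⟩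
  calc (mdeg v u : ℝ) ≤ N := hmN
    _ ≤ (C₇ * D) ^ C₇ := hN7
    _ ≤ (C * D) ^ C₇ := by
        apply pow_le_pow_left₀ (by linarith)
        apply mul_le_mul_of_nonneg_right _ (by linarith)
        linarith
    _ ≤ (C * D) ^ C := pow_le_pow_right₀ hCD (by omega)

end Pool.Agent.LGO.TG
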