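import Mathlib
import Pool.Agent.LGO.H.Core

/-!
# LGO/TG: a field which contains the values of finitely many polynomials

As `fld_mv` in `LGO/T/Cores.lean`.
-/

namespace Pool.Agent.LGO.TG

open MvPolynomial Pool.Agent.Hhelper14.ZPL Pool.Agent.LGO

variable {n : ℕ}

private theorem FldM_fin (c : Qb) : ∃ K₀ : IntermediateField ℚ ℂ, FiniteDimensional ℚ K₀ ∧
    (c : ℂ) ∈ K₀ := by
  have h1 : IsAlgebraic ℚ (c : ℂ) := mem_algebraicClosure_iff.1 c.2
  exact ⟨IntermediateField.adjoin ℚ {(c : ℂ)},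
    IntermediateField.adjoin.finiteDimensional h1.isIntegral,
    IntermediateField.mem_adjoin_simple_self ℚ (c : ℂ)⟩

theorem fld_mvn (F : MvPolynomial (Fin n) Qb) : ∃ K₀ : IntermediateField ℚ ℂ,
    FiniteDimensional ℚ K₀ ∧ ∀ (K' : IntermediateField ℚ ℂ), K₀ ≤ K' →
      ∀ y : Fin n → ℂ, (∀ b, y b ∈ K') → (aeval y F : ℂ) ∈ K' := by
  induction F using MvPolynomial.induction_on with
  | C c =>
    obtain ⟨K₀, hf, hc⟩ := FldM_fin c
    refine ⟨K₀, hf, fun K' hK' y _ => ?_⟩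
    rw [aeval_C]
    exact hK' hc
  | add p q hp hq =>
    obtain ⟨K₁, hf₁, h₁⟩ := hp
    obtain ⟨K₂, hf₂, h₂⟩ := hq
    have := hf₁
    have := hf₂
    refine ⟨K₁ ⊔ K₂, inferInstance, fun K' hK' y hy => ?_⟩
    rw [map_add]
    exact K'.add_mem (h₁ K' (le_sup_left.trans hK') y hy) (h₂ K' (le_sup_right.trans hK') y hy)
  | mul_X p b hp =>
    obtain ⟨K₁, hf₁, h₁⟩ := hp
    refine ⟨K₁, hf₁, fun K' hK' y hy => ?_⟩
    rw [map_mul, aeval_X]
    exact K'.mul_mem (h₁ K' hK' y hy) (hy b)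

end Pool.Agent.LGO.TG
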