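import Mathlib
import Pool.Agent.LGO.ZV.Root
import Pool.Agent.LGO.GM.RelF

/-!
# LGO/TG: heights of all coordinates of a point of a curve from the height of one function

PROOF: the proof of `hts_v` (`LGO/ZV/Hts.lean`) with the polynomial `Y` in place of the coordinate `x_a` (`exists_relM` for `i = id`, `F = Y`).
-/

namespace Pool.Agent.LGO.TG

open Polynomial Pool.Agent.Hhelper14.ZPL Pool.Agent.LGO Pool.Agent.LGO.GM

variable {n : ℕ}

/-- the relation between the function and a coordinate -/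
private theorem HtsY_rel {V : Set (Fin n → ℂ)} (hV : Pool.Agent.Hhelper14.ZPL.IsIrredClosed V)
    (hVk : KClosed V) (hdim : Pool.Agent.Hhelper14.ZPL.dim V = 1) {Y : MvPolynomial (Fin n) Qb}
    (hY : ∀ c : ℂ, ∃ x ∈ V, (MvPolynomial.aeval x Y : ℂ) ≠ c) (k : Fin n) :
    ∃ R : Polynomial (Polynomial Qb), 0 < R.natDegree ∧
      (∀ x ∈ V, ∑ j ∈ Finset.range (R.natDegree + 1),
        (aeval (MvPolynomial.aeval x Y : ℂ) (R.coeff j) : ℂ) * x k ^ j = 0) ∧
      {x ∈ V | (aeval (MvPolynomial.aeval x Y : ℂ) R.leadingCoeff : ℂ) = 0}.Finite := by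
  obtain ⟨R, h1, h2, h3⟩ := exists_relM hV hVk hdim (id : Fin n → Fin n) (F := Y) (by
    intro c
    obtain ⟨x, hx, hne⟩ := hY c
    exact ⟨x, hx, hne⟩) k
  exact ⟨R, h1, h2, h3⟩

/-- a field which contains the other coordinates -/
private theorem HtsY_ext (R : Fin n → Polynomial (Polynomial Qb)) (x : Fin n → ℂ) (y : ℂ)
    (hrel : ∀ k, ∑ j ∈ Finset.range ((R k).natDegree + 1), (aeval y ((R k).coeff j) : ℂ) * x k ^ j = 0)
    (hlead : ∀ k, (aeval y (R k).leadingCoeff : ℂ) ≠ 0)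
    (K : IntermediateField ℚ ℂ) [FiniteDimensional ℚ K] (hy : y ∈ K)
    (hK : ∀ k j i, ((((R k).coeff j).coeff i : Qb) : ℂ) ∈ K) (s : Finset (Fin n)) :
    ∃ K' : IntermediateField ℚ ℂ, K ≤ K' ∧ FiniteDimensional ℚ K' ∧
      Module.finrank ℚ K' ≤ (∏ k ∈ s, (R k).natDegree) * Module.finrank ℚ K ∧ ∀ k ∈ s, x k ∈ K' := by
  classical
  induction s using Finset.induction_on with
  | empty => exact ⟨K, le_rfl, inferInstance, by simp, by simp⟩
  | insert k s hk ih =>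
    obtain ⟨K₁, h1, h2, h3, h4⟩ := ih
    set P : ℂ[X] := (R k).map ((aeval y : Polynomial Qb →ₐ[Qb] ℂ) : Polynomial Qb →+* ℂ) with hP
    have hPc : ∀ j, P.coeff j = aeval y ((R k).coeff j) := fun j => by
      rw [hP, coeff_map]
      rfl
    have hP0 : P ≠ 0 := by
      intro h
      apply hlead k
      rw [leadingCoeff, ← hPc, h, coeff_zero]
    have hroot : P.eval (x k) = 0 := by
      rw [hP, eval_map, eval₂_eq_sum_range]
      exact hrel k
    obtain ⟨K', h5, h6, h7, h8⟩ := U.fld_root (R k).natDegree K₁ P hP0 natDegree_map_le (fun j => by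
      rw [hPc]
      exact U.mem_aeval (h1 hy) fun i => h1 (hK k j i)) (x k) hroot
    refine ⟨K', h1.trans h5, h6, ?_, ?_⟩
    · rw [Finset.prod_insert hk]
      calc Module.finrank ℚ K' ≤ (R k).natDegree * Module.finrank ℚ K₁ := h7
        _ ≤ (R k).natDegree * ((∏ k ∈ s, (R k).natDegree) * Module.finrank ℚ K) :=
            Nat.mul_le_mul_left _ h3
        _ = _ := by ring
    · intro l hl
      rw [Finset.mem_insert] at hl
      rcases hl with rfl | hl
      · exact h8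
      · exact h5 (h4 l hl)

private theorem HtsY_num {e D' C₀ D P M : ℝ} (he : 0 ≤ e) (hD' : D' ≤ C₀ * D) (_hC₀ : 0 ≤ C₀)
    (hD : 1 ≤ D) (hP : 0 ≤ P) (hM : 0 ≤ M) :
    e * (1 + (1 + 2 * D') * (P * (1 + M))) ≤ (e * (1 + (1 + 2 * C₀) * P)) * D * (1 + M) := by
  have h1 : 1 + 2 * D' ≤ (1 + 2 * C₀) * D := by nlinarith
  have h2 : (1 + 2 * D') * (P * (1 + M)) ≤ (1 + 2 * C₀) * D * (P * (1 + M)) :=
    mul_le_mul_of_nonneg_right h1 (by positivity)
  have h3 : 1 ≤ D * (1 + M) := by nlinarith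
  calc e * (1 + (1 + 2 * D') * (P * (1 + M)))
      ≤ e * (D * (1 + M) + (1 + 2 * C₀) * D * (P * (1 + M))) :=
        mul_le_mul_of_nonneg_left (add_le_add h3 h2) he
    _ = _ := by ring

theorem hts_y {V : Set (Fin n → ℂ)} (hV : Pool.Agent.Hhelper14.ZPL.IsIrredClosed V)
    (hVk : KClosed V) (hdim : Pool.Agent.Hhelper14.ZPL.dim V = 1) {Y : MvPolynomial (Fin n) Qb}
    (hY : ∀ c : ℂ, ∃ x ∈ V, (MvPolynomial.aeval x Y : ℂ) ≠ c) :
    ∃ (C : ℕ) (E : Set (Fin n → ℂ)), E.Finite ∧ ∀ x ∈ V, x ∉ E →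
      ∀ (K : IntermediateField ℚ ℂ) [FiniteDimensional ℚ K] (M : ℝ),
        Bd K M (MvPolynomial.aeval x Y : ℂ) →
        ∃ K' : IntermediateField ℚ ℂ, K ≤ K' ∧ FiniteDimensional ℚ K' ∧
          (Module.finrank ℚ K' : ℝ) ≤ C * Module.finrank ℚ K ∧
          ∀ k, Bd K' ((C : ℝ) * Module.finrank ℚ K * (1 + M)) (x k) := by
  classical
  choose R hR hrel hfin using HtsY_rel hV hVk hdim hY
  obtain ⟨K₀, hK₀, hS⟩ := U.fld_fix (Finset.univ.biUnion fun k =>
    (Finset.range ((R k).natDegree + 1)).image (R k).coeff)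
  have hcoef : ∀ k j i, ((((R k).coeff j).coeff i : Qb) : ℂ) ∈ K₀ := by
    intro k j i
    by_cases hj : j ≤ (R k).natDegree
    · exact hS _ (Finset.mem_biUnion.2 ⟨k, Finset.mem_univ k, Finset.mem_image.2
        ⟨j, Finset.mem_range.2 (by omega), rfl⟩⟩) i
    · have h0 : (R k).coeff j = 0 := coeff_eq_zero_of_natDegree_lt (by omega)
      rw [h0, coeff_zero]
      exact zero_mem K₀
  choose c hc hval using fun k j => bd_val ((R k).coeff j)
  set P : Fin n → ℝ := fun k => ∑ j ∈ Finset.range ((R k).natDegree + 1), c k j with hP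
  have hP0 : ∀ k, 0 ≤ P k := fun k => Finset.sum_nonneg fun j _ => by
    have := hc k j
    linarith
  have hPc : ∀ k, ∀ j ≤ (R k).natDegree, c k j ≤ P k := fun k j hj =>
    Finset.single_le_sum (f := c k) (fun l _ => by
      have := hc k l
      linarith) (Finset.mem_range.2 (by omega))
  set C₀ : ℕ := (∏ k, (R k).natDegree) * Module.finrank ℚ K₀ with hC₀
  obtain ⟨N, hN⟩ := exists_nat_ge (∑ k, (((R k).natDegree : ℝ) * (1 + (1 + 2 * C₀) * P k)))
  refine ⟨C₀ + N, ⋃ k, {x ∈ V | (aeval (MvPolynomial.aeval x Y : ℂ) (R k).leadingCoeff : ℂ) = 0},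
    Set.finite_iUnion hfin, ?_⟩
  intro x hx hxE K hfd M hM
  have hM0 : 0 ≤ M := hM.nonneg
  have hD1 : (1 : ℝ) ≤ Module.finrank ℚ K := by
    exact_mod_cast (Module.finrank_pos : 0 < Module.finrank ℚ K)
  have hlead : ∀ k, (aeval (MvPolynomial.aeval x Y : ℂ) (R k).leadingCoeff : ℂ) ≠ 0 := fun k h =>
    hxE (Set.mem_iUnion.2 ⟨k, hx, h⟩)
  have hfd1 : FiniteDimensional ℚ (K ⊔ K₀ : IntermediateField ℚ ℂ) :=
    IntermediateField.finiteDimensional_sup K K₀
  obtain ⟨K', h1, h2, h3, h4⟩ := HtsY_ext R x (MvPolynomial.aeval x Y : ℂ) (fun k => hrel k x hx) hlead (K ⊔ K₀)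
    ((le_sup_left : K ≤ K ⊔ K₀) hM.mem) (fun k j i => (le_sup_right : K₀ ≤ K ⊔ K₀) (hcoef k j i))
    Finset.univ
  have hKK' : K ≤ K' := le_sup_left.trans h1
  have hfr : Module.finrank ℚ K' ≤ C₀ * Module.finrank ℚ K := by
    refine h3.trans ?_
    rw [hC₀]
    calc (∏ k, (R k).natDegree) * Module.finrank ℚ (K ⊔ K₀ : IntermediateField ℚ ℂ)
        ≤ (∏ k, (R k).natDegree) * (Module.finrank ℚ K * Module.finrank ℚ K₀) :=
          Nat.mul_le_mul_left _ (IntermediateField.finrank_sup_le K K₀)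
      _ = _ := by ring
  have hfr' : (Module.finrank ℚ K' : ℝ) ≤ C₀ * Module.finrank ℚ K := by exact_mod_cast hfr
  refine ⟨K', hKK', h2, ?_, ?_⟩
  · refine hfr'.trans (mul_le_mul_of_nonneg_right ?_ (by linarith))
    push_cast
    linarith [(Nat.cast_nonneg N : (0 : ℝ) ≤ N)]
  · intro k
    have h5 := ZV.bd_poly (K := K') (hR k) (B := P k * (1 + M)) (D := Module.finrank ℚ K') le_rfl
      (mul_nonneg (hP0 k) (by linarith)) (fun j => (aeval (MvPolynomial.aeval x Y : ℂ) ((R k).coeff j) : ℂ)) (x := x k)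
      (fun j hj => (hval k j K' M (MvPolynomial.aeval x Y : ℂ) hM0 (fun i => h1 ((le_sup_right : K₀ ≤ K ⊔ K₀) (hcoef k j i)))
        (hM.le hKK')).mono (mul_le_mul_of_nonneg_right (hPc k j hj) (by linarith)))
      (h4 k (Finset.mem_univ k)) (hlead k) (hrel k x hx)
    refine h5.mono ?_
    refine (HtsY_num (Nat.cast_nonneg _) hfr' (Nat.cast_nonneg _) hD1 (hP0 k) hM0).trans ?_
    have h6 : ((R k).natDegree : ℝ) * (1 + (1 + 2 * C₀) * P k) ≤ N := by
      refine le_trans ?_ hN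
      refine Finset.single_le_sum (f := fun k => ((R k).natDegree : ℝ) * (1 + (1 + 2 * C₀) * P k))
        (fun j _ => ?_) (Finset.mem_univ k)
      have := hP0 j
      positivity
    have h7 : (N : ℝ) ≤ ((C₀ + N : ℕ) : ℝ) := by exact_mod_cast Nat.le_add_left _ _
    have h8 : (0 : ℝ) ≤ 1 + M := by linarith
    exact mul_le_mul_of_nonneg_right (mul_le_mul_of_nonneg_right (h6.trans h7) (by linarith)) h8

end Pool.Agent.LGO.TG
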