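import Mathlib
import Pool.Agent.LGO.TG.HtsY
import Pool.Agent.LGO.TG.Close
import Pool.Agent.LGO.TG.FldM
import Pool.Agent.LGO.ZV.Tied
import Pool.Agent.LGO.Q.Quad

/-!
# LGO/TG: from the height of one function to the pair theorem
-/

namespace Pool.Agent.LGO.TG

open MvPolynomial Filter Topology Pool.Agent.Hhelper14.ZP Pool.Agent.Hhelper14.ZPL Pool.Agent.LGO
  Pool.Agent.LGO.U Pool.Agent.LGO.PA Pool.Agent.LGO.ZV

variable {n : ℕ}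

/-- the numbers -/
private theorem PairC_num (c C₃ Cy : ℕ) (hc : 1 ≤ c) (hCy : 1 ≤ Cy) : ∃ C₀ : ℕ, 1 ≤ C₀ ∧
    ∀ D D₂ S : ℝ, 1 ≤ D → 1 ≤ D₂ → D₂ ≤ c * D → 1 ≤ S →
      (C₃ : ℝ) * D₂ * (1 + ((Cy : ℝ) * (D₂ * S)) ^ Cy) ≤ ((C₀ : ℝ) * (D * S)) ^ C₀ := by
  refine ⟨2 * C₃ * c + Cy * c + Cy + 1, by omega, ?_⟩
  intro D D₂ S hD hD₂1 hD₂ hS
  have hc1 : (1 : ℝ) ≤ c := by exact_mod_cast hc
  have hCy1 : (1 : ℝ) ≤ Cy := by exact_mod_cast hCy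
  have hC₃0 : (0 : ℝ) ≤ C₃ := Nat.cast_nonneg _
  obtain ⟨Z, hZ⟩ : ∃ Z : ℝ, Z = D * S := ⟨_, rfl⟩
  have hZ1 : 1 ≤ Z := by rw [hZ]; exact one_le_mul_of_one_le_of_one_le hD hS
  have hDZ : D ≤ Z := by rw [hZ]; nlinarith
  have h1 : D₂ * S ≤ c * Z := by
    rw [hZ]
    calc D₂ * S ≤ c * D * S := mul_le_mul_of_nonneg_right hD₂ (by linarith)
      _ = _ := by ring
  have h2 : (Cy : ℝ) * (D₂ * S) ≤ Cy * c * Z := by
    calc (Cy : ℝ) * (D₂ * S) ≤ Cy * (c * Z) := mul_le_mul_of_nonneg_left h1 (by linarith)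
      _ = _ := by ring
  have h3 : (1 : ℝ) ≤ Cy * c * Z := by
    have : (1 : ℝ) ≤ Cy * c := one_le_mul_of_one_le_of_one_le hCy1 hc1
    exact one_le_mul_of_one_le_of_one_le this hZ1
  have h0 : (0 : ℝ) ≤ (Cy : ℝ) * (D₂ * S) := by positivity
  have h4 : ((Cy : ℝ) * (D₂ * S)) ^ Cy ≤ (Cy * c * Z) ^ Cy := pow_le_pow_left₀ h0 h2 _
  have h5 : (1 : ℝ) ≤ (Cy * c * Z) ^ Cy := one_le_pow₀ h3
  obtain ⟨C₀, hC₀⟩ : ∃ C₀ : ℕ, C₀ = 2 * C₃ * c + Cy * c + Cy + 1 := ⟨_, rfl⟩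
  rw [← hC₀, ← hZ]
  have hC₀r : (C₀ : ℝ) = 2 * C₃ * c + Cy * c + Cy + 1 := by rw [hC₀]; push_cast; ring
  have h6 : (C₃ : ℝ) * D₂ * (1 + ((Cy : ℝ) * (D₂ * S)) ^ Cy) ≤ (2 * C₃ * c * Z) * (Cy * c * Z) ^ Cy := by
    calc (C₃ : ℝ) * D₂ * (1 + ((Cy : ℝ) * (D₂ * S)) ^ Cy)
        ≤ C₃ * (c * Z) * (2 * (Cy * c * Z) ^ Cy) := by
          refine mul_le_mul ?_ (by linarith) (by positivity) (by positivity)
          refine mul_le_mul_of_nonneg_left ?_ hC₃0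
          exact hD₂.trans (mul_le_mul_of_nonneg_left hDZ (by linarith))
      _ = _ := by ring
  have h7 : (2 * C₃ * c * Z) ≤ (C₀ : ℝ) * Z := by
    refine mul_le_mul_of_nonneg_right ?_ (by linarith)
    rw [hC₀r]
    have : (0 : ℝ) ≤ Cy * c := by positivity
    linarith
  have h8 : (Cy * c * Z : ℝ) ≤ (C₀ : ℝ) * Z := by
    refine mul_le_mul_of_nonneg_right ?_ (by linarith)
    rw [hC₀r]
    have : (0 : ℝ) ≤ 2 * C₃ * c := by positivity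
    linarith
  have h9 : (1 : ℝ) ≤ (C₀ : ℝ) * Z := h3.trans h8
  calc (C₃ : ℝ) * D₂ * (1 + ((Cy : ℝ) * (D₂ * S)) ^ Cy)
      ≤ (2 * C₃ * c * Z) * (Cy * c * Z) ^ Cy := h6
    _ ≤ ((C₀ : ℝ) * Z) * ((C₀ : ℝ) * Z) ^ Cy :=
        mul_le_mul h7 (pow_le_pow_left₀ (by linarith) h8 _) (by positivity) (by positivity)
    _ = ((C₀ : ℝ) * Z) ^ (Cy + 1) := by ring
    _ ≤ ((C₀ : ℝ) * Z) ^ C₀ := pow_le_pow_right₀ h9 (by rw [hC₀]; omega)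

theorem pair_core {V : Set (Fin n → ℂ)} (hV : Pool.Agent.Hhelper14.ZPL.IsIrredClosed V)
    (hVk : KClosed V) (hdim : Pool.Agent.Hhelper14.ZPL.dim V = 1)
    (hnc : ∀ (k : Fin n) (c : ℂ), ∃ x ∈ V, x k ≠ c) {a b : Fin n}
    (F G Y : MvPolynomial (Fin n) Qb) (hY : ∀ c : ℂ, ∃ x ∈ V, (aeval x Y : ℂ) ≠ c)
    {E₀ : Set (Fin n → ℂ)} (hE₀ : E₀.Finite) (Cy : ℕ) (hCy : 1 ≤ Cy)
    (h0 : ∀ x ∈ V, x ∉ E₀ → NCM (x b) → (∃ N, 0 < N ∧ IsogDeg N (x b) (x a)) →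
      ∀ (K : IntermediateField ℚ ℂ) [FiniteDimensional ℚ K], x a ∈ K → x b ∈ K →
        (aeval x F : ℂ) ∈ K → (aeval x G : ℂ) ∈ K → (aeval x Y : ℂ) ∈ K → ∀ H : ℝ, 1 ≤ H →
        (∀ s : ℂ ≃+* ℂ, ‖s (x a)‖ ≤ Real.exp H) → (∀ s : ℂ ≃+* ℂ, ‖s (x b)‖ ≤ Real.exp H) →
        Bd K ((Cy * (Module.finrank ℚ K * (1 + Real.log (mdeg (x b) (x a)) +
          Real.log H))) ^ Cy) (aeval x Y : ℂ)) : PairHt V a b ∧ PairHt V b a := by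
  classical
  obtain ⟨C₁, E₁, hE₁, h1⟩ := hts_v hV hVk hdim a (hnc a)
  obtain ⟨C₃, E₃, hE₃, h3⟩ := hts_y hV hVk hdim hY
  obtain ⟨KF, hKF, hF⟩ := fld_mvn F
  obtain ⟨KG, hKG, hG⟩ := fld_mvn G
  obtain ⟨KY, hKY, hYf⟩ := fld_mvn Y
  have hfd0 : FiniteDimensional ℚ (KF ⊔ KG : IntermediateField ℚ ℂ) := inferInstance
  have hfd1 : FiniteDimensional ℚ (KF ⊔ KG ⊔ KY : IntermediateField ℚ ℂ) := inferInstance
  set K₀ : IntermediateField ℚ ℂ := KF ⊔ KG ⊔ KY with hK₀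
  set c : ℕ := (C₁ + 1) * Module.finrank ℚ K₀ with hc
  have hc1 : 1 ≤ c := by
    have : 0 < Module.finrank ℚ K₀ := Module.finrank_pos
    exact Nat.mul_pos (Nat.succ_pos _) this
  obtain ⟨C₀, hC₀, hnum⟩ := PairC_num c C₃ Cy hc1 hCy
  obtain ⟨C, hC, hclose⟩ := close C₀
  have key : ∀ x ∈ V, x ∉ E₀ ∪ E₁ ∪ E₃ → NCM (x b) → HeckeRel (x b) (x a) →
      ∀ (K : IntermediateField ℚ ℂ) [FiniteDimensional ℚ K], x a ∈ K → x b ∈ K →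
        Bd K (((C : ℝ) * Module.finrank ℚ K) ^ C) (x a) ∧
          Bd K (((C : ℝ) * Module.finrank ℚ K) ^ C) (x b) := by
    intro x hx hxE hncm hh K _ ha hb
    have hiso : ∃ N, 0 < N ∧ IsogDeg N (x b) (x a) := heckeRel_iff.1 hh
    have hxE₀ : x ∉ E₀ := fun h => hxE (Or.inl (Or.inl h))
    have hxE₁ : x ∉ E₁ := fun h => hxE (Or.inl (Or.inr h))
    have hxE₃ : x ∉ E₃ := fun h => hxE (Or.inr h)
    refine (hclose K (x a) (x b) ha hb hncm hiso ?_).2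
    intro H hH hsa hsb
    -- the field with all coordinates
    have halg : IsAlgebraic ℚ (x a) := by
      have h4 : IsIntegral ℚ (⟨x a, ha⟩ : K) := Algebra.IsIntegral.isIntegral _
      exact (h4.map K.val).isAlgebraic
    obtain ⟨M₀, hM₀⟩ := Quad_bd_alg halg
    obtain ⟨K₁, hKK₁, hfdK₁, hfr₁, hK₁⟩ := h1 x hx hxE₁ K M₀ (hM₀.2 K ha)
    have hall : ∀ k, x k ∈ K₁ := fun k => (hK₁ k).mem
    have hfd2 : FiniteDimensional ℚ (K₁ ⊔ K₀ : IntermediateField ℚ ℂ) :=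
      IntermediateField.finiteDimensional_sup K₁ K₀
    set K₂ : IntermediateField ℚ ℂ := K₁ ⊔ K₀ with hK₂
    have hK₁₂ : K₁ ≤ K₂ := le_sup_left
    have hK₀₂ : K₀ ≤ K₂ := le_sup_right
    have hFK : (aeval x F : ℂ) ∈ K₂ :=
      hF K₂ ((le_sup_left.trans le_sup_left).trans hK₀₂) x fun k => hK₁₂ (hall k)
    have hGK : (aeval x G : ℂ) ∈ K₂ :=
      hG K₂ ((le_sup_right.trans le_sup_left).trans hK₀₂) x fun k => hK₁₂ (hall k)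
    have hYK : (aeval x Y : ℂ) ∈ K₂ :=
      hYf K₂ (le_sup_right.trans hK₀₂) x fun k => hK₁₂ (hall k)
    have hD1 : (1 : ℝ) ≤ Module.finrank ℚ K := by
      exact_mod_cast (Module.finrank_pos : 0 < Module.finrank ℚ K)
    have hD2 : (1 : ℝ) ≤ Module.finrank ℚ K₂ := by
      exact_mod_cast (Module.finrank_pos : 0 < Module.finrank ℚ K₂)
    have hrank : (Module.finrank ℚ K₂ : ℝ) ≤ c * Module.finrank ℚ K := by
      have h5 : Module.finrank ℚ K₂ ≤ Module.finrank ℚ K₁ * Module.finrank ℚ K₀ :=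
        IntermediateField.finrank_sup_le K₁ K₀
      have h6 : (Module.finrank ℚ K₂ : ℝ) ≤ Module.finrank ℚ K₁ * Module.finrank ℚ K₀ := by
        exact_mod_cast h5
      have h7 : (0 : ℝ) ≤ Module.finrank ℚ K₀ := Nat.cast_nonneg _
      rw [hc]
      push_cast
      calc (Module.finrank ℚ K₂ : ℝ) ≤ Module.finrank ℚ K₁ * Module.finrank ℚ K₀ := h6
        _ ≤ (C₁ * Module.finrank ℚ K) * Module.finrank ℚ K₀ :=
            mul_le_mul_of_nonneg_right hfr₁ h7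
        _ ≤ ((C₁ + 1) * Module.finrank ℚ K) * Module.finrank ℚ K₀ := by
            refine mul_le_mul_of_nonneg_right ?_ h7
            refine mul_le_mul_of_nonneg_right (by linarith) (by linarith)
        _ = _ := by ring
    have hS1 : 1 ≤ 1 + Real.log (mdeg (x b) (x a)) + Real.log H := by
      have h8 : 0 ≤ Real.log (mdeg (x b) (x a) : ℝ) := Real.log_natCast_nonneg _
      have h9 : 0 ≤ Real.log H := Real.log_nonneg hH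
      linarith
    have hy := h0 x hx hxE₀ hncm hiso K₂ (hK₁₂ (hall a)) (hK₁₂ (hall b)) hFK hGK hYK H hH hsa hsb
    obtain ⟨K₃, hK₂₃, hfd3, hfr3, hK₃⟩ := h3 x hx hxE₃ K₂ _ hy
    have hn := hnum (Module.finrank ℚ K) (Module.finrank ℚ K₂)
      (1 + Real.log (mdeg (x b) (x a)) + Real.log H) hD1 hD2 hrank hS1
    exact ⟨bd_down ((hK₃ a).mono hn) ha, bd_down ((hK₃ b).mono hn) hb⟩
  refine ⟨⟨C, E₀ ∪ E₁ ∪ E₃, (hE₀.union hE₁).union hE₃, ?_⟩,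
    ⟨C, E₀ ∪ E₁ ∪ E₃, (hE₀.union hE₁).union hE₃, ?_⟩⟩
  · intro x hx hxE ha hb hab K _ hKa hKb
    exact (key x hx hxE hb (HeckeRel.symm' hab) K hKa hKb).1
  · intro x hx hxE hb _ hab K _ hKb hKa
    exact (key x hx hxE hb hab K hKa hKb).2

end Pool.Agent.LGO.TG
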