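import Mathlib
import Pool.Agent.LGO.GM.Defs
import Pool.Agent.LGO.PA.Cmp

/-!
# LGO/TG: use of the certificate in `ℂ_[l]`

PROOF.  `r`, `c` from the certificate.  The coefficients of the polynomials `c j`, `j < r`, are finitely many algebraic numbers; for each of them there is `m' > 0` with
`‖m'‖ ‖φ a‖ ≤ 1` for all `l`, `φ` (`alg_norm` in `PA/Cmp.lean`, `a = 0` is trivial); let `m` be the product.  Let `M = max 1 ‖φ x_b‖`, `w = ‖φ P(x)‖`,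
`g = ‖φ Q(x)‖`.  `‖m‖ ‖φ (c_j(x_b))‖ ≤ M ^ (k (r - j))` (nonarchimedean norm, `IsUltrametricDist.norm_sum_le_of_forall_le_of_nonneg` or the like, `natDegree (c j) ≤ k (r - j)`, `M ≥ 1`).
Suppose that `‖m‖ w > g M ^ k`.  Apply `φ` to the equation: `w ^ r ≤ max_j ‖m‖⁻¹ M ^ (k (r - j)) w ^ j g ^ (r - j) = max_j ‖m‖⁻¹ w ^ j (g M ^ k) ^ (r - j)
< max_j ‖m‖⁻¹ w ^ j (‖m‖ w) ^ (r - j) ≤ w ^ r` (`j < r`, `‖m‖ ≤ 1`, `w > 0`), a contradiction (`r > 0`; for an empty index set there is nothing to show: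
`w ^ r = 0` is impossible).
-/

namespace Pool.Agent.LGO.GM

open MvPolynomial Pool.Agent.Hhelper14.ZPL Pool.Agent.LGO Pool.Agent.LGO.PA

variable {n k₀ : ℕ}

/-- the denominator of an algebraic number -/
private theorem WtF_up {a : ℂ} (ha : IsAlgebraic ℚ a) : ∃ m : ℕ, 0 < m ∧
    ∀ (p : ℕ) [Fact p.Prime] (φ : ℂ →+* ℂ_[p]), ‖(m : ℂ_[p])‖ * ‖φ a‖ ≤ 1 := by
  by_cases h0 : a = 0
  · exact ⟨1, Nat.one_pos, fun p _ φ => by rw [h0, map_zero, norm_zero, mul_zero]; exact zero_le_one⟩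
  · obtain ⟨m, hm, h⟩ := alg_norm ha h0
    exact ⟨m, hm, fun p _ φ => (h p φ).1⟩

private theorem WtF_alg (g : Qb) : IsAlgebraic ℚ (g : ℂ) := mem_algebraicClosure_iff.1 g.2

/-- upper bound for the values of a polynomial -/
private theorem WtF_upper (A : Polynomial Qb) : ∃ m : ℕ, 0 < m ∧
    ∀ (p : ℕ) [Fact p.Prime] (φ : ℂ →+* ℂ_[p]) (t : ℂ),
      ‖(m : ℂ_[p])‖ * ‖φ (Polynomial.aeval t A : ℂ)‖ ≤ max 1 ‖φ t‖ ^ A.natDegree := by
  choose m hm0 hm using fun g : Qb => WtF_up (WtF_alg g)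
  refine ⟨∏ i ∈ Finset.range (A.natDegree + 1), m (A.coeff i),
    Finset.prod_pos fun i _ => hm0 _, fun p _ φ t => ?_⟩
  have hM1 : (1 : ℝ) ≤ max 1 ‖φ t‖ := le_max_left _ _
  rw [Polynomial.aeval_eq_sum_range, map_sum, ← norm_mul, Finset.mul_sum]
  refine IsUltrametricDist.norm_sum_le_of_forall_le_of_nonneg (by positivity) ?_
  intro i hi
  have hi' : i ≤ A.natDegree := Nat.lt_succ_iff.1 (Finset.mem_range.1 hi)
  rw [Algebra.smul_def, map_mul, map_pow, norm_mul, norm_mul, norm_pow,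
    ← Finset.mul_prod_erase _ _ hi, Nat.cast_mul, norm_mul]
  have e1 := hm (A.coeff i) p φ
  have e2 : ‖((∏ x ∈ (Finset.range (A.natDegree + 1)).erase i, m (A.coeff x) : ℕ) : ℂ_[p])‖ ≤ 1 :=
    Pool.Agent.Hhelper14.ZP.norm_natCast_le _
  have e3 : ‖φ t‖ ^ i ≤ max 1 ‖φ t‖ ^ A.natDegree :=
    (pow_le_pow_left₀ (norm_nonneg _) (le_max_right _ _) i).trans (pow_le_pow_right₀ hM1 hi')
  have e4 : ‖φ (algebraMap Qb ℂ (A.coeff i))‖ = ‖φ ((A.coeff i : Qb) : ℂ)‖ := rfl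
  rw [e4]
  calc _ = (‖((m (A.coeff i) : ℕ) : ℂ_[p])‖ * ‖φ ((A.coeff i : Qb) : ℂ)‖) *
        ‖((∏ x ∈ (Finset.range (A.natDegree + 1)).erase i, m (A.coeff x) : ℕ) : ℂ_[p])‖ *
          ‖φ t‖ ^ i := by ring
    _ ≤ 1 * max 1 ‖φ t‖ ^ A.natDegree := by
        refine mul_le_mul ?_ e3 (by positivity) zero_le_one
        exact mul_le_one₀ e1 (norm_nonneg _) e2
    _ = _ := one_mul _

theorem Wt.fin {V : Set (Fin n → ℂ)} {i : Fin k₀ → Fin n} {P Q : MvPolynomial (Fin k₀) Qb}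
    {b : Fin k₀} {k : ℕ} (h : Wt V i P Q b k) :
    ∃ m : ℕ, 0 < m ∧ ∀ (l : ℕ) [Fact l.Prime] (φ : ℂ →+* ℂ_[l]), ∀ x ∈ V,
      ‖(m : ℂ_[l])‖ * ‖φ (aeval (x ∘ i) P : ℂ)‖ ≤
        ‖φ (aeval (x ∘ i) Q : ℂ)‖ * max 1 ‖φ (x (i b))‖ ^ k := by
  obtain ⟨r, c, hr, hdeg, heq⟩ := h
  choose m hm0 hm using fun j : ℕ => WtF_upper (c j)
  refine ⟨∏ j ∈ Finset.range r, m j, Finset.prod_pos fun j _ => hm0 j, fun l _ φ x hx => ?_⟩
  set μ : ℝ := ‖((∏ j ∈ Finset.range r, m j : ℕ) : ℂ_[l])‖ with hμ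
  set w : ℝ := ‖φ (aeval (x ∘ i) P : ℂ)‖ with hw
  set g : ℝ := ‖φ (aeval (x ∘ i) Q : ℂ)‖ with hg
  set M : ℝ := max 1 ‖φ (x (i b))‖ with hM
  have hμ0 : 0 ≤ μ := norm_nonneg _
  have hμ1 : μ ≤ 1 := Pool.Agent.Hhelper14.ZP.norm_natCast_le _
  have hw0 : 0 ≤ w := norm_nonneg _
  have hg0 : 0 ≤ g := norm_nonneg _
  have hM1 : (1 : ℝ) ≤ M := le_max_left _ _
  have hM0 : 0 ≤ M := zero_le_one.trans hM1
  by_contra hcon
  push Not at hcon
  have hpos : 0 < μ * w := lt_of_le_of_lt (by positivity) hcon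
  have hwp : 0 < w := by
    rcases hw0.lt_or_eq with h1 | h1
    · exact h1
    · rw [← h1, mul_zero] at hpos
      exact absurd hpos (lt_irrefl _)
  -- the equation
  have e1 : (φ (aeval (x ∘ i) P : ℂ)) ^ r = -∑ j ∈ Finset.range r,
      φ (Polynomial.aeval (x (i b)) (c j) : ℂ) * φ (aeval (x ∘ i) P : ℂ) ^ j *
        φ (aeval (x ∘ i) Q : ℂ) ^ (r - j) := by
    have e2 := congrArg φ (heq x hx)
    rw [map_add, map_pow, map_sum, map_zero] at e2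
    rw [eq_neg_iff_add_eq_zero, ← e2]
    congr 1
    refine Finset.sum_congr rfl fun j _ => ?_
    rw [map_mul, map_mul, map_pow, map_pow]
  have e3 : w ^ r ≤ ‖∑ j ∈ Finset.range r,
      φ (Polynomial.aeval (x (i b)) (c j) : ℂ) * φ (aeval (x ∘ i) P : ℂ) ^ j *
        φ (aeval (x ∘ i) Q : ℂ) ^ (r - j)‖ := by
    rw [hw, ← norm_pow, e1, norm_neg]
  obtain ⟨j, hj, hjle⟩ := IsUltrametricDist.exists_norm_finsetSum_le_of_nonempty
    (Finset.nonempty_range_iff.2 hr.ne') (fun j => φ (Polynomial.aeval (x (i b)) (c j) : ℂ) *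
      φ (aeval (x ∘ i) P : ℂ) ^ j * φ (aeval (x ∘ i) Q : ℂ) ^ (r - j))
  have hjr : j < r := Finset.mem_range.1 hj
  have e4 : w ^ r ≤ ‖φ (Polynomial.aeval (x (i b)) (c j) : ℂ)‖ * w ^ j * g ^ (r - j) := by
    have h1 := e3.trans hjle
    rw [norm_mul, norm_mul, norm_pow, norm_pow] at h1
    exact h1
  have e5 : μ * ‖φ (Polynomial.aeval (x (i b)) (c j) : ℂ)‖ ≤ M ^ (k * (r - j)) := by
    have h1 : μ ≤ ‖((m j : ℕ) : ℂ_[l])‖ := by
      rw [hμ, ← Finset.mul_prod_erase _ _ hj, Nat.cast_mul, norm_mul]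
      exact mul_le_of_le_one_right (norm_nonneg _) (Pool.Agent.Hhelper14.ZP.norm_natCast_le _)
    calc μ * ‖φ (Polynomial.aeval (x (i b)) (c j) : ℂ)‖
        ≤ ‖((m j : ℕ) : ℂ_[l])‖ * ‖φ (Polynomial.aeval (x (i b)) (c j) : ℂ)‖ :=
          mul_le_mul_of_nonneg_right h1 (norm_nonneg _)
      _ ≤ M ^ (c j).natDegree := hm j l φ (x (i b))
      _ ≤ M ^ (k * (r - j)) := pow_le_pow_right₀ hM1 (hdeg j hjr)
  have hrj : r - j ≠ 0 := by omega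
  have e6 : μ * w ^ r < μ * w ^ r := by
    calc μ * w ^ r ≤ μ * (‖φ (Polynomial.aeval (x (i b)) (c j) : ℂ)‖ * w ^ j * g ^ (r - j)) :=
          mul_le_mul_of_nonneg_left e4 hμ0
      _ = (μ * ‖φ (Polynomial.aeval (x (i b)) (c j) : ℂ)‖) * (w ^ j * g ^ (r - j)) := by ring
      _ ≤ M ^ (k * (r - j)) * (w ^ j * g ^ (r - j)) :=
          mul_le_mul_of_nonneg_right e5 (by positivity)
      _ = w ^ j * (g * M ^ k) ^ (r - j) := by rw [mul_pow, ← pow_mul]; ring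
      _ < w ^ j * (μ * w) ^ (r - j) :=
          mul_lt_mul_of_pos_left (pow_lt_pow_left₀ hcon (by positivity) hrj) (by positivity)
      _ = μ ^ (r - j) * w ^ (j + (r - j)) := by rw [mul_pow, pow_add]; ring
      _ ≤ μ * w ^ (j + (r - j)) :=
          mul_le_mul_of_nonneg_right (pow_le_of_le_one hμ0 hμ1 hrj) (by positivity)
      _ = μ * w ^ r := by rw [Nat.add_sub_cancel' hjr.le]
  exact absurd e6 (lt_irrefl _)

end Pool.Agent.LGO.GM
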