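import Mathlib
import Pool.Agent.LGO.TG.Defs
import Pool.Agent.LGO.TG.WtF
import Pool.Agent.LGO.GM.WtUse
import Pool.Agent.LGO.GM.WtQ
import Pool.Agent.LGO.S.Dich

/-!
# LGO/TG: the conditions at a point

PROOF.  As `tor_pt` in `LGO/T/TorUse.lean` (only the part about `up`).  `V` is not contained in `E` (`exists_unbounded` in `LGO/S/Dich.lean` for `j = b`), so `G` does not vanish
identically on `V`.  Two certificates (`GM.wtQ` for `i = id`): `Wt V id F G b q` and `Wt V id (F * X a ^ p) G b q`, from `up` (`1 ≤ max ..`, `‖x_a‖ ^ p ≤ max 1 ‖x_a‖ ^ p`).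
`Wt.bound` for both, divided by `‖s G(x)‖ ≠ 0`, gives `up` for all `s` (`max 1 ‖s u‖ ^ p` is `1` or `‖s u‖ ^ p`).  `Wt.fin` for both gives `fin` (product of the two constants `m`,
`‖m‖ ≤ 1` for integers), divided by `‖φ G(x)‖ ≠ 0`.
-/

namespace Pool.Agent.LGO.TG

open MvPolynomial Pool.Agent.Hhelper14.ZPL Pool.Agent.LGO Pool.Agent.LGO.GM

variable {n : ℕ}

/-- the inequality of a point: from the two bounds for the number and for the number times `u ^ p` -/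
private lemma PtU_max {f g u B M : ℝ} {p : ℕ} (hg : 0 < g) (h1 : f ≤ B * (g * M))
    (h2 : f * u ^ p ≤ B * (g * M)) : f / g * max 1 u ^ p ≤ B * M := by
  rw [div_mul_eq_mul_div, div_le_iff₀ hg]
  rcases le_total u 1 with hu1 | hu1
  · rw [max_eq_left hu1, one_pow, mul_one]
    calc f ≤ B * (g * M) := h1
      _ = B * M * g := by ring
  · rw [max_eq_right hu1]
    calc f * u ^ p ≤ B * (g * M) := h2
      _ = B * M * g := by ring

/-- the same with the factor on the left -/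
private lemma PtU_fin {f g u μ M : ℝ} {p : ℕ} (hg : 0 < g) (h1 : μ * f ≤ g * M)
    (h2 : μ * (f * u ^ p) ≤ g * M) : μ * (f / g * max 1 u ^ p) ≤ M := by
  have e : μ * (f / g * max 1 u ^ p) = μ * (f * max 1 u ^ p) / g := by ring
  rw [e, div_le_iff₀ hg]
  rcases le_total u 1 with hu1 | hu1
  · rw [max_eq_left hu1, one_pow, mul_one]
    calc μ * f ≤ g * M := h1
      _ = M * g := by ring
  · rw [max_eq_right hu1]
    calc μ * (f * u ^ p) ≤ g * M := h2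
      _ = M * g := by ring

theorem oneG_pt {V : Set (Fin n → ℂ)} (hV : Pool.Agent.Hhelper14.ZPL.IsIrredClosed V)
    (hVk : KClosed V) (hdim : Pool.Agent.Hhelper14.ZPL.dim V = 1) {a b : Fin n}
    (hb : ∀ c : ℂ, ∃ x ∈ V, x b ≠ c) {F G : MvPolynomial (Fin n) Qb}
    {p q : ℕ} {C₀ : ℝ} {E : Set (Fin n → ℂ)} (h : OneG V a b F G p q C₀ E) :
    ∃ (C : ℝ) (m : ℕ), 1 ≤ C ∧ 0 < m ∧ ∀ x ∈ V, x ∉ E →
      PtU p q C m (x a) (x b) (aeval x F / aeval x G : ℂ) := by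
  obtain ⟨x₀, hx₀, hx₀E⟩ : ∃ x ∈ V, x ∉ E := by
    obtain ⟨P, hP, hPt⟩ := exists_unbounded hV b hb
    by_contra hcon
    push Not at hcon
    obtain ⟨B, hB⟩ := (h.fin.image (fun x : Fin n → ℂ => ‖x b‖)).bddAbove
    obtain ⟨m, hm⟩ := (hPt.eventually (Filter.eventually_gt_atTop B)).exists
    exact absurd (hB ⟨P m, hcon _ (hP m), rfl⟩) (not_le.2 hm)
  have hM : ∀ (t : ℝ) (k : ℕ), 1 ≤ max 1 t ^ k := fun t k => one_le_pow₀ (le_max_left _ _)
  have w1 : Wt V id F G b q := by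
    refine wtQ hV hVk hdim id b hb F G ⟨x₀, hx₀, h.neG x₀ hx₀ hx₀E⟩ q C₀ h.fin
      fun x hx hxE => ?_
    calc ‖(aeval x F : ℂ)‖ ≤ ‖(aeval x F : ℂ)‖ * max 1 ‖x a‖ ^ p :=
          le_mul_of_one_le_right (norm_nonneg _) (hM _ _)
      _ ≤ _ := h.up x hx hxE
      _ = _ := (mul_assoc _ _ _).symm
  have w2 : Wt V id (F * X a ^ p) G b q := by
    refine wtQ hV hVk hdim id b hb _ G ⟨x₀, hx₀, h.neG x₀ hx₀ hx₀E⟩ q C₀ h.fin
      fun x hx hxE => ?_
    rw [map_mul, map_pow, aeval_X, norm_mul, norm_pow]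
    calc ‖(aeval x F : ℂ)‖ * ‖x a‖ ^ p ≤ ‖(aeval x F : ℂ)‖ * max 1 ‖x a‖ ^ p :=
          mul_le_mul_of_nonneg_left (pow_le_pow_left₀ (norm_nonneg _) (le_max_right _ _) _)
            (norm_nonneg _)
      _ ≤ _ := h.up x hx hxE
      _ = _ := (mul_assoc _ _ _).symm
  obtain ⟨C1, hC1, b1⟩ := w1.bound
  obtain ⟨C2, hC2, b2⟩ := w2.bound
  obtain ⟨m1, hm1, i1⟩ := w1.fin
  obtain ⟨m2, hm2, i2⟩ := w2.fin
  refine ⟨max C1 C2, m1 * m2, hC1.trans (le_max_left _ _), Nat.mul_pos hm1 hm2,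
    fun x hx hxE => ?_⟩
  have hF : (aeval x F : ℂ) ≠ 0 := h.neF x hx hxE
  have hG : (aeval x G : ℂ) ≠ 0 := h.neG x hx hxE
  refine ⟨div_ne_zero hF hG, ?_, ?_⟩
  · intro s
    have hsG : 0 < ‖s (aeval x G : ℂ)‖ := norm_pos_iff.2 ((map_ne_zero s).2 hG)
    rw [map_div₀, norm_div]
    refine PtU_max hsG ?_ ?_
    · exact (b1 s x hx).trans (mul_le_mul_of_nonneg_right (le_max_left _ _) (by positivity))
    · have h2 := b2 s x hx
      rw [map_mul, map_pow, aeval_X, map_mul, map_pow, norm_mul, norm_pow] at h2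
      exact h2.trans (mul_le_mul_of_nonneg_right (le_max_right _ _) (by positivity))
  · intro l _ φ
    have hsG : 0 < ‖φ (aeval x G : ℂ)‖ := norm_pos_iff.2 ((map_ne_zero φ).2 hG)
    have n1 : ‖((m1 : ℕ) : ℂ_[l])‖ ≤ 1 := Pool.Agent.Hhelper14.ZP.norm_natCast_le _
    have n2 : ‖((m2 : ℕ) : ℂ_[l])‖ ≤ 1 := Pool.Agent.Hhelper14.ZP.norm_natCast_le _
    rw [map_div₀, norm_div, Nat.cast_mul, norm_mul]
    refine PtU_fin hsG ?_ ?_
    · have h1 := i1 l φ x hx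
      refine le_trans ?_ h1
      have : ‖((m1 : ℕ) : ℂ_[l])‖ * ‖((m2 : ℕ) : ℂ_[l])‖ ≤ ‖((m1 : ℕ) : ℂ_[l])‖ :=
        mul_le_of_le_one_right (norm_nonneg _) n2
      exact mul_le_mul_of_nonneg_right this (norm_nonneg _)
    · have h2 := i2 l φ x hx
      rw [map_mul, map_pow, aeval_X, map_mul, map_pow, norm_mul, norm_pow] at h2
      refine le_trans ?_ h2
      have : ‖((m1 : ℕ) : ℂ_[l])‖ * ‖((m2 : ℕ) : ℂ_[l])‖ ≤ ‖((m2 : ℕ) : ℂ_[l])‖ :=
        mul_le_of_le_one_left (norm_nonneg _) n1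
      exact mul_le_mul_of_nonneg_right this (by positivity)

end Pool.Agent.LGO.TG
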