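import Mathlib
import Pool.Agent.LGO.TG.Defs
import Pool.Agent.LGO.PA.LinkB
import Pool.Agent.LGO.U.BArch
import Pool.Agent.LGO.U.BGal

/-!
# LGO/TG: upper bounds for `Ξ = B ^ p Φ` at all places

PROOFS.  `ub_fin`: `c = (4 * 6 ^ 12) ^ 6`.  `b_size` (`PA/LinkB.lean`) for `IsB v u B`: `‖c‖ ‖φ B‖ M_v ≤ M_u`, `M_u = max 1 ‖φ u‖`, `M_v = max 1 ‖φ v‖`.  So
`‖m c ^ p‖ ‖φ Ξ‖ M_v ^ p = ‖m‖ ‖φ Φ‖ (‖c‖ ‖φ B‖ M_v) ^ p ≤ ‖m‖ ‖φ Φ‖ M_u ^ p ≤ M_v ^ q` (`PtU.fin`); `r = m c ^ p`.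
`ub_arch`: `IsB (s v) (s u) (s B)` (`IsB.map`), `NCM (s v)` (`NCM.map`), `mdeg (s v) (s u) = mdeg v u = N` (`mdeg_map`).  `B_arch` (`LGO/U/BArch.lean`):
`‖s B‖ M_v ≤ C N ^ 6 H ^ 6 M_u`, so `‖s Ξ‖ M_v ^ p = (‖s B‖ M_v) ^ p ‖s Φ‖ ≤ (C N ^ 6 H ^ 6) ^ p M_u ^ p ‖s Φ‖ ≤ (C N ^ 6 H ^ 6) ^ p C₁ M_v ^ q` (`PtU.up`), `N ≥ 1`, `H ≥ 1`.
See `pt_size` in `LGO/T/Xi.lean` for the same computation.
-/

namespace Pool.Agent.LGO.TG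

open Pool.Agent.Hhelper14.ZPL Pool.Agent.LGO Pool.Agent.LGO.U Pool.Agent.LGO.PA

private theorem Ub_const (p : ℕ) (C1 C3 : ℝ) :
    ∃ C : ℕ, 1 ≤ C ∧ ∀ N H : ℝ, 1 ≤ N → 1 ≤ H →
      (C1 * N ^ 6 * H ^ 6) ^ p * C3 ≤ (C * N * H) ^ C := by
  obtain ⟨c, hc⟩ := exists_nat_ge (C1 ^ p * C3)
  refine ⟨max (max c 1) (6 * p), (le_max_right _ _).trans (le_max_left _ _), fun N H hN hH => ?_⟩
  obtain ⟨C, hC⟩ : ∃ C : ℕ, C = max (max c 1) (6 * p) := ⟨_, rfl⟩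
  rw [← hC]
  have h1 : c ≤ C := by rw [hC]; exact (le_max_left _ _).trans (le_max_left _ _)
  have h2 : 1 ≤ C := by rw [hC]; exact (le_max_right _ _).trans (le_max_left _ _)
  have h3 : 6 * p ≤ C := by rw [hC]; exact le_max_right _ _
  have hC1' : (1 : ℝ) ≤ C := by exact_mod_cast h2
  have hNH : 1 ≤ N * H := one_le_mul_of_one_le_of_one_le hN hH
  have e1 : (C1 * N ^ 6 * H ^ 6) ^ p * C3 = C1 ^ p * C3 * (N * H) ^ (6 * p) := by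
    rw [pow_mul, mul_pow N, mul_assoc C1, mul_pow C1]; ring
  rw [e1]
  calc C1 ^ p * C3 * (N * H) ^ (6 * p) ≤ (C : ℝ) * (N * H) ^ C := by
        refine mul_le_mul (hc.trans (by exact_mod_cast h1)) (pow_le_pow_right₀ hNH h3)
          (by positivity) (by positivity)
    _ ≤ (C : ℝ) ^ C * (N * H) ^ C := by
        gcongr
        exact le_self_pow₀ hC1' (by omega)
    _ = (C * N * H) ^ C := by rw [← mul_pow]; ring_nf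

theorem ub_fin (p q : ℕ) {m : ℕ} (hm : 0 < m) : ∃ r : ℕ, 0 < r ∧
    ∀ (C₁ : ℝ) (u v Φ B : ℂ), PtU p q C₁ m u v Φ → NCM v → IsB v u B →
      ∀ (l : ℕ) [Fact l.Prime] (φ : ℂ →+* ℂ_[l]),
        ‖(r : ℂ_[l])‖ * (‖φ (B ^ p * Φ)‖ * max 1 ‖φ v‖ ^ p) ≤ max 1 ‖φ v‖ ^ q := by
  refine ⟨m * ((4 * 6 ^ 12) ^ 6) ^ p, by positivity, fun C₁ u v Φ B h hv hB l _ φ => ?_⟩
  have h1 := (b_size φ hB hv).1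
  have h2 := h.fin l φ
  have e : ‖((m * ((4 * 6 ^ 12) ^ 6) ^ p : ℕ) : ℂ_[l])‖ * (‖φ (B ^ p * Φ)‖ * max 1 ‖φ v‖ ^ p) =
      ‖(m : ℂ_[l])‖ * (‖φ Φ‖ * (‖((4 * 6 ^ 12) ^ 6 : ℂ_[l])‖ * (‖φ B‖ * max 1 ‖φ v‖)) ^ p) := by
    have e1 : ((m * ((4 * 6 ^ 12) ^ 6) ^ p : ℕ) : ℂ_[l]) = (m : ℂ_[l]) * (((4 * 6 ^ 12) ^ 6 : ℂ_[l])) ^ p := by
      push_cast
      ring
    rw [e1]
    obtain ⟨c, hc⟩ : ∃ c : ℂ_[l], c = (4 * 6 ^ 12) ^ 6 := ⟨_, rfl⟩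
    rw [← hc, norm_mul, norm_pow, map_mul, map_pow, norm_mul, norm_pow]
    ring
  rw [e]
  refine le_trans ?_ h2
  refine mul_le_mul_of_nonneg_left ?_ (norm_nonneg _)
  refine mul_le_mul_of_nonneg_left ?_ (norm_nonneg _)
  exact pow_le_pow_left₀ (by positivity) h1 p

theorem ub_arch (p q : ℕ) (C₁ : ℝ) : ∃ C : ℕ, 1 ≤ C ∧
    ∀ (m : ℕ) (u v Φ B : ℂ), PtU p q C₁ m u v Φ → NCM v → IsB v u B →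
      ∀ (s : ℂ ≃+* ℂ) (H : ℝ), 1 ≤ H → ‖s u‖ ≤ Real.exp H → ‖s v‖ ≤ Real.exp H →
        ‖s (B ^ p * Φ)‖ * max 1 ‖s v‖ ^ p ≤ (C * mdeg v u * H) ^ C * max 1 ‖s v‖ ^ q := by
  obtain ⟨C1, hC1, h1⟩ := B_arch
  obtain ⟨C, hC, hCC⟩ := Ub_const p C1 C₁
  refine ⟨C, hC, fun m u v Φ B h hv hB s H hH hu' hv' => ?_⟩
  have hN : 0 < mdeg v u := mdeg_pos hB.isog
  have hN1 : (1 : ℝ) ≤ mdeg v u := by exact_mod_cast hN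
  have hm := (h1 (s v) (s u) (s B) (hB.map hv s) (hv.map s) H hH hv' hu').1
  rw [mdeg_map] at hm
  have hX : ‖s (B ^ p * Φ)‖ = ‖s B‖ ^ p * ‖s Φ‖ := by
    rw [map_mul, map_pow, norm_mul, norm_pow]
  rw [hX]
  have hc := hCC (mdeg v u) H hN1 hH
  have hMv : 0 ≤ max 1 ‖s v‖ := zero_le_one.trans (le_max_left _ _)
  have hMu : 0 ≤ max 1 ‖s u‖ := zero_le_one.trans (le_max_left _ _)
  have hC0 : 0 ≤ C1 * (mdeg v u : ℝ) ^ 6 * H ^ 6 := by positivity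
  calc ‖s B‖ ^ p * ‖s Φ‖ * max 1 ‖s v‖ ^ p = (‖s B‖ * max 1 ‖s v‖) ^ p * ‖s Φ‖ := by
        rw [mul_pow]
        ring
    _ ≤ (C1 * (mdeg v u : ℝ) ^ 6 * H ^ 6 * max 1 ‖s u‖) ^ p * ‖s Φ‖ :=
        mul_le_mul_of_nonneg_right (pow_le_pow_left₀ (mul_nonneg (norm_nonneg _) hMv) hm p) (norm_nonneg _)
    _ = (C1 * (mdeg v u : ℝ) ^ 6 * H ^ 6) ^ p * (‖s Φ‖ * max 1 ‖s u‖ ^ p) := by
        rw [mul_pow _ (max 1 ‖s u‖)]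
        ring
    _ ≤ (C1 * (mdeg v u : ℝ) ^ 6 * H ^ 6) ^ p * (C₁ * max 1 ‖s v‖ ^ q) :=
        mul_le_mul_of_nonneg_left (h.up s) (pow_nonneg hC0 p)
    _ = (C1 * (mdeg v u : ℝ) ^ 6 * H ^ 6) ^ p * C₁ * max 1 ‖s v‖ ^ q := by ring
    _ ≤ (C * mdeg v u * H) ^ C * max 1 ‖s v‖ ^ q :=
        mul_le_mul_of_nonneg_right hc (pow_nonneg hMv q)

end Pool.Agent.LGO.TG
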