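import Mathlib
import Pool.Agent.LGO.TG.Ub
import Pool.Agent.LGO.PA.QInt
import Pool.Agent.LGO.PA.Crit
import Pool.Agent.LGO.U.BMem
import Pool.Agent.LGO.U.RFld

/-!
# LGO/TG: the height of `Ξ` for equal degrees, the height of `v` for different degrees

`N = mdeg v u ≥ 1` (`mdeg_pos`), `Ξ = B ^ p Φ ∈ K` (`IsB.mem`), `r` from `ub_fin`, `E = (C N H) ^ C ≥ 1` from `ub_arch`.
PROOF of `xi_bdU` (as `xi_bd` in `PA/XiBd.lean`).  `p = q`: cancel `max 1 ‖φ v‖ ^ p > 0`: `‖φ (r Ξ)‖ ≤ 1` for all `l`, `φ`, so `r Ξ` is integral (`integral_of_norm_le`;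
`Ξ` is algebraic because it lies in `K`), and `‖s Ξ‖ ≤ E` for all `s`.  `Bd K (C' (1 + log N + log H)) Ξ`: `mem`, `den` (`r`), `house` (every embedding of `K` extends to an
automorphism, `exists_aut`).
PROOF of `neqU` (as `neq_vP` in `PA/NeqV.lean`, case `q < p` there).  `y = r Ξ ≠ 0` (`IsB.ne_zero`, `PtU.ne`), `z = y v ^ (p - q)`.  `‖φ y‖ max 1 ‖φ v‖ ^ (p - q) ≤ 1` (cancel
`max 1 ‖φ v‖ ^ q`), so `‖φ y‖, ‖φ z‖ ≤ 1` for all `l`, `φ`: `y`, `z` are integral (`integral_of_norm_le`).  In the same way `‖s y‖, ‖s z‖ ≤ r E = E'` for all `s`.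
`Bd K (log E') y`, `Bd K (log E') z` (`bd_of_aut`), `bd_div` (`PA/QInt.lean`): `Bd K (3 D log E') (v ^ (p - q))`, and `bd_root` (`LGO/U/RFld.lean`).
`log E' ≤ C' (1 + log N + log H)`.
-/

namespace Pool.Agent.LGO.TG

open Pool.Agent.Hhelper14.ZPL Pool.Agent.LGO Pool.Agent.LGO.U Pool.Agent.LGO.PA

private theorem XiU_lt {p q : ℕ} (hpq : q < p) {M X F R : ℝ} (hM : 1 ≤ M)
    (h : R * (X * M ^ p) ≤ F * M ^ q) : (R * X) * M ^ (p - q) ≤ F := by
  have hM0 : 0 < M := by linarith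
  have e : M ^ p = M ^ q * M ^ (p - q) := by
    rw [← pow_add, Nat.add_sub_cancel' hpq.le]
  have h2 : M ^ q * ((R * X) * M ^ (p - q)) ≤ M ^ q * F := by
    calc M ^ q * ((R * X) * M ^ (p - q)) = R * (X * (M ^ q * M ^ (p - q))) := by ring
      _ = R * (X * M ^ p) := by rw [← e]
      _ ≤ F * M ^ q := h
      _ = M ^ q * F := by ring
  exact le_of_mul_le_mul_left h2 (by positivity)

/-- from `a max (1, m) ^ k ≤ F` -/
private theorem XiU_two {a m F : ℝ} {k : ℕ} (ha : 0 ≤ a) (hm : 0 ≤ m)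
    (h : a * max 1 m ^ k ≤ F) : a ≤ F ∧ a * m ^ k ≤ F := by
  have h1 : (1 : ℝ) ≤ max 1 m ^ k := one_le_pow₀ (le_max_left _ _)
  have h2 : m ^ k ≤ max 1 m ^ k := pow_le_pow_left₀ hm (le_max_right _ _) k
  constructor
  · refine le_trans ?_ h
    calc a = a * 1 := (mul_one a).symm
      _ ≤ a * max 1 m ^ k := mul_le_mul_of_nonneg_left h1 ha
  · exact le_trans (mul_le_mul_of_nonneg_left h2 ha) h

private theorem XiU_alg {K : IntermediateField ℚ ℂ} [FiniteDimensional ℚ K] {y : ℂ} (hy : y ∈ K) :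
    IsAlgebraic ℚ y := by
  have h1 : IsAlgebraic ℚ (⟨y, hy⟩ : K) := Algebra.IsAlgebraic.isAlgebraic _
  exact (isAlgebraic_algebraMap_iff (algebraMap K ℂ).injective).2 h1

private theorem XiU_core (K : IntermediateField ℚ ℂ) [FiniteDimensional ℚ K] {y v : ℂ} {k : ℕ}
    (hk : 0 < k) (hy : y ∈ K) (hv : v ∈ K) (hy0 : y ≠ 0) {G : ℝ} (hG : 0 ≤ G)
    (hfin : ∀ (l : ℕ) [Fact l.Prime] (φ : ℂ →+* ℂ_[l]), ‖φ y‖ * max 1 ‖φ v‖ ^ k ≤ 1)
    (harch : ∀ s : ℂ ≃+* ℂ, ‖s y‖ * max 1 ‖s v‖ ^ k ≤ Real.exp G) :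
    Bd K (3 * Module.finrank ℚ K * G) v := by
  have hz : y * v ^ k ∈ K := K.mul_mem hy (pow_mem hv k)
  have iy : IsIntegral ℤ y := by
    refine integral_of_norm_le (XiU_alg hy) fun l _ φ => ?_
    exact (XiU_two (norm_nonneg _) (norm_nonneg _) (hfin l φ)).1
  have iz : IsIntegral ℤ (y * v ^ k) := by
    refine integral_of_norm_le (XiU_alg hz) fun l _ φ => ?_
    rw [map_mul, map_pow, norm_mul, norm_pow]
    exact (XiU_two (norm_nonneg _) (norm_nonneg _) (hfin l φ)).2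
  have by' : Bd K G y := bd_of_aut hy iy hG fun s =>
    (XiU_two (norm_nonneg _) (norm_nonneg _) (harch s)).1
  have bz : Bd K G (y * v ^ k) := bd_of_aut hz iz hG fun s => by
    rw [map_mul, map_pow, norm_mul, norm_pow]
    exact (XiU_two (norm_nonneg _) (norm_nonneg _) (harch s)).2
  have h := bd_div (D := Module.finrank ℚ K) le_rfl by' bz hy0
  rw [mul_div_cancel_left₀ _ hy0] at h
  exact U.bd_root k hk hv h

/-- the final estimate -/
private theorem XiU_fin {C r N : ℕ} (hC : 1 ≤ C) (hr : 0 < r) (hN : 1 ≤ N) {H : ℝ}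
    (hH : 1 ≤ H) :
    (r : ℝ) * ((C : ℝ) * N * H) ^ C ≤
      Real.exp ((C * Real.log C + C + Real.log r + 1) *
        (1 + Real.log N + Real.log H)) := by
  have hC1 : (1 : ℝ) ≤ C := by exact_mod_cast hC
  have hr1 : (1 : ℝ) ≤ r := by exact_mod_cast hr
  have hN1 : (1 : ℝ) ≤ N := by exact_mod_cast hN
  have hC0 : (0 : ℝ) < C := by linarith
  have hr0 : (0 : ℝ) < r := by linarith
  have hN0 : (0 : ℝ) < N := by linarith
  have hH0 : (0 : ℝ) < H := by linarith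
  have lC : 0 ≤ Real.log C := Real.log_nonneg hC1
  have lr : 0 ≤ Real.log r := Real.log_nonneg hr1
  have lN : 0 ≤ Real.log N := Real.log_nonneg hN1
  have lH : 0 ≤ Real.log H := Real.log_nonneg hH
  have hpos : 0 < (r : ℝ) * ((C : ℝ) * N * H) ^ C := by positivity
  rw [← Real.log_le_iff_le_exp hpos, Real.log_mul (by positivity) (by positivity),
    Real.log_pow, Real.log_mul (by positivity) (by positivity),
    Real.log_mul (by positivity) (by positivity)]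
  have a1 : 0 ≤ (C : ℝ) * Real.log C * (Real.log N + Real.log H) := by positivity
  have a2 : 0 ≤ Real.log r * (Real.log N + Real.log H) := by positivity
  nlinarith

theorem xi_bdU (p : ℕ) (C₁ : ℝ) {m : ℕ} (hm : 0 < m) : ∃ C : ℝ, 1 ≤ C ∧
    ∀ (K : IntermediateField ℚ ℂ) [FiniteDimensional ℚ K] (u v Φ B : ℂ), PtU p p C₁ m u v Φ →
      NCM v → IsB v u B → u ∈ K → v ∈ K → Φ ∈ K → ∀ H : ℝ, 1 ≤ H →
      (∀ s : ℂ ≃+* ℂ, ‖s u‖ ≤ Real.exp H) → (∀ s : ℂ ≃+* ℂ, ‖s v‖ ≤ Real.exp H) →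
        Bd K (C * (1 + Real.log (mdeg v u) + Real.log H)) (B ^ p * Φ) := by
  obtain ⟨r, hr, hfi⟩ := ub_fin p p hm
  obtain ⟨C, hC, hsz⟩ := ub_arch p p C₁
  have hC1 : (1 : ℝ) ≤ C := by exact_mod_cast hC
  have hr1 : (1 : ℝ) ≤ r := by exact_mod_cast hr
  have lC : 0 ≤ Real.log C := Real.log_nonneg hC1
  have lr : 0 ≤ Real.log r := Real.log_nonneg hr1
  refine ⟨C * Real.log C + C + Real.log r + 1, ?_, ?_⟩
  · have : 0 ≤ (C : ℝ) * Real.log C + C + Real.log r := by positivity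
    linarith
  intro K _ u v Φ B hP hcm hB hu hv hΦ H hH hsu hsv
  have hBK : B ∈ K := hB.mem hcm K hv hu
  have hXK : B ^ p * Φ ∈ K := K.mul_mem (pow_mem hBK p) hΦ
  set N : ℕ := mdeg v u with hN
  have hN1 : 1 ≤ N := mdeg_pos hB.isog
  have hN1' : (1 : ℝ) ≤ N := by exact_mod_cast hN1
  have hE1 : (1 : ℝ) ≤ ((C : ℝ) * N * H) ^ C := by
    refine one_le_pow₀ ?_
    exact one_le_mul_of_one_le_of_one_le (one_le_mul_of_one_le_of_one_le hC1 hN1') hH
  have hfin := XiU_fin hC hr hN1 hH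
  refine ⟨hXK, ⟨r, hr, ?_, ?_⟩, fun σ => ?_⟩
  · exact le_trans (le_mul_of_one_le_right (by positivity) hE1) hfin
  · refine integral_of_norm_le (XiU_alg (K.mul_mem (natCast_mem K r) hXK)) fun l _ φ => ?_
    have h1 := hfi C₁ u v Φ B hP hcm hB l φ
    have hM : 0 < max 1 ‖φ v‖ ^ p := by positivity
    have h2 : (‖(r : ℂ_[l])‖ * ‖φ (B ^ p * Φ)‖) * max 1 ‖φ v‖ ^ p ≤ 1 * max 1 ‖φ v‖ ^ p := by
      rw [one_mul, mul_assoc]
      exact h1
    rw [map_mul φ (r : ℂ), map_natCast, norm_mul]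
    exact le_of_mul_le_mul_right h2 hM
  · obtain ⟨s, hs⟩ := exists_aut K σ
    rw [← hs ⟨B ^ p * Φ, hXK⟩]
    have h1 := hsz m u v Φ B hP hcm hB s H hH (hsu s) (hsv s)
    have hM : 0 < max 1 ‖s v‖ ^ p := by positivity
    have h2 : ‖s (B ^ p * Φ)‖ ≤ ((C : ℝ) * N * H) ^ C := le_of_mul_le_mul_right h1 hM
    refine h2.trans (le_trans (le_mul_of_one_le_left (by positivity) hr1) hfin)

theorem neqU {p q : ℕ} (hpq : q < p) (C₁ : ℝ) {m : ℕ} (hm : 0 < m) : ∃ C : ℝ, 1 ≤ C ∧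
    ∀ (K : IntermediateField ℚ ℂ) [FiniteDimensional ℚ K] (u v Φ B : ℂ), PtU p q C₁ m u v Φ →
      NCM v → IsB v u B → u ∈ K → v ∈ K → Φ ∈ K → ∀ H : ℝ, 1 ≤ H →
      (∀ s : ℂ ≃+* ℂ, ‖s u‖ ≤ Real.exp H) → (∀ s : ℂ ≃+* ℂ, ‖s v‖ ≤ Real.exp H) →
        Bd K (C * Module.finrank ℚ K * (1 + Real.log (mdeg v u) + Real.log H)) v := by
  obtain ⟨r, hr, hfi⟩ := ub_fin p q hm
  obtain ⟨C, hC, hsz⟩ := ub_arch p q C₁
  have hC1 : (1 : ℝ) ≤ C := by exact_mod_cast hC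
  have hr1 : (1 : ℝ) ≤ r := by exact_mod_cast hr
  have lC : 0 ≤ Real.log C := Real.log_nonneg hC1
  have lr : 0 ≤ Real.log r := Real.log_nonneg hr1
  refine ⟨3 * (C * Real.log C + C + Real.log r + 1), ?_, ?_⟩
  · have : 0 ≤ (C : ℝ) * Real.log C + C + Real.log r := by positivity
    linarith
  intro K _ u v Φ B hP hcm hB hu hv hΦ H hH hsu hsv
  have hBK : B ∈ K := hB.mem hcm K hv hu
  have hXK : B ^ p * Φ ∈ K := K.mul_mem (pow_mem hBK p) hΦ
  have hX0 : B ^ p * Φ ≠ 0 := mul_ne_zero (pow_ne_zero _ hB.ne_zero) hP.ne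
  set X : ℂ := B ^ p * Φ with hX
  set N : ℕ := mdeg v u with hN
  have hN1 : 1 ≤ N := mdeg_pos hB.isog
  have hN1' : (1 : ℝ) ≤ N := by exact_mod_cast hN1
  have hr0 : (r : ℂ) ≠ 0 := by exact_mod_cast hr.ne'
  have hEpos : 0 ≤ ((C : ℝ) * N * H) ^ C := by positivity
  have lN : 0 ≤ Real.log N := Real.log_nonneg hN1'
  have lH : 0 ≤ Real.log H := Real.log_nonneg hH
  have hfin := XiU_fin hC hr hN1 hH
  set G : ℝ := (C * Real.log C + C + Real.log r + 1) * (1 + Real.log N + Real.log H) with hG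
  have hG0 : 0 ≤ G := by positivity
  have key : Bd K (3 * Module.finrank ℚ K * G) v := by
    refine XiU_core K (y := (r : ℂ) * X) (k := p - q) (by omega) (K.mul_mem (natCast_mem K r) hXK)
      hv (mul_ne_zero hr0 hX0) hG0 (fun l _ φ => ?_) (fun s => ?_)
    · have h1 := hfi C₁ u v Φ B hP hcm hB l φ
      have h2 := XiU_lt (F := 1) (R := ‖(r : ℂ_[l])‖) (X := ‖φ X‖) hpq (le_max_left 1 ‖φ v‖)
        (by rw [one_mul]; exact h1)
      have e : ‖φ ((r : ℂ) * X)‖ = ‖(r : ℂ_[l])‖ * ‖φ X‖ := by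
        rw [map_mul, map_natCast, norm_mul]
      rw [e]
      exact h2
    · have h1 := hsz m u v Φ B hP hcm hB s H hH (hsu s) (hsv s)
      have h2 := XiU_lt (F := (r : ℝ) * ((C : ℝ) * N * H) ^ C) (R := (r : ℝ)) (X := ‖s X‖) hpq
        (le_max_left 1 ‖s v‖) (by
          rw [mul_assoc]
          exact mul_le_mul_of_nonneg_left h1 (by positivity))
      have e : ‖s ((r : ℂ) * X)‖ = (r : ℝ) * ‖s X‖ := by
        rw [map_mul, map_natCast, norm_mul, Complex.norm_natCast]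
      rw [e]
      exact h2.trans hfin
  have e : 3 * (C * Real.log C + C + Real.log r + 1) * (Module.finrank ℚ K : ℝ) *
      (1 + Real.log N + Real.log H) = 3 * Module.finrank ℚ K * G := by
    rw [hG]
    ring
  rw [e]
  exact key

end Pool.Agent.LGO.TG
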