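import Mathlib
import Pool.Agent.LGO.TG.Defs
import Pool.Agent.LGO.T.AllA

/-!
# LGO/TG: the size of `Y` at the archimedean places

PROOF, as `allA` in `LGO/T/AllA.lean`: for an automorphism `s` the numbers `s κ`, `s β` are roots of the minimal polynomials of `κ`, `β` over `ℚ`, so there are only finitely many
pairs `(s κ, s β)`, and `oneA` (`LGO/T/AllA.lean`) holds for all of them with one constant (`RAll_unif` in `LGO/U/RAll.lean`; `(C M) ^ C` is increasing in `C`).  Apply `oneA` for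
`(s κ, s β)`, the field `KS s K` (`finrank_KS`, `Bd.map` in `H/BdC.lean`), `T = ‖s y‖`, `s u, s v, s B, s Φ` (`NCM.map`, `IsB.map`, `mdeg_map`), if `C₂ ≤ ‖s y‖` (`NearY.arch`);
otherwise the bound is clear (`C₂ ≤ exp ((C M) ^ C)` for large `C`).
-/

namespace Pool.Agent.LGO.TG

open Pool.Agent.Hhelper14.ZPL Pool.Agent.LGO Pool.Agent.LGO.U

/-- monotonicity of the bound -/
private theorem YArch_mono {C C' : ℕ} {M : ℝ} (hC : 1 ≤ C) (hCC' : C ≤ C') (hM : 1 ≤ M) :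
    ((C : ℝ) * M) ^ C ≤ ((C' : ℝ) * M) ^ C' := by
  have hC1 : (1 : ℝ) ≤ C := by exact_mod_cast hC
  have hCC : (C : ℝ) ≤ C' := by exact_mod_cast hCC'
  have hM0 : (0 : ℝ) ≤ M := by linarith
  calc ((C : ℝ) * M) ^ C ≤ ((C' : ℝ) * M) ^ C := by gcongr
    _ ≤ ((C' : ℝ) * M) ^ C' := pow_le_pow_right₀ (by nlinarith) hCC'

/-- a constant is below the bound -/
private theorem YArch_const (c : ℝ) : ∃ C : ℕ, 1 ≤ C ∧ ∀ C' : ℕ, C ≤ C' → ∀ M : ℝ, 1 ≤ M →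
    c ≤ Real.exp (((C' : ℝ) * M) ^ C') := by
  refine ⟨⌈c⌉₊ + 1, by omega, ?_⟩
  intro C' hC' M hM
  have h0 : 1 ≤ C' := by omega
  have h1 : c ≤ (C' : ℝ) := by
    have h2 := Nat.le_ceil c
    have h3 : ((⌈c⌉₊ + 1 : ℕ) : ℝ) ≤ C' := by exact_mod_cast hC'
    push_cast at h3
    linarith
  have h4 : (1 : ℝ) ≤ C' := by exact_mod_cast h0
  have h5 : (C' : ℝ) ≤ C' * M := by nlinarith
  have h6 : (C' : ℝ) * M ≤ ((C' : ℝ) * M) ^ C' := by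
    calc (C' : ℝ) * M = ((C' : ℝ) * M) ^ 1 := (pow_one _).symm
      _ ≤ ((C' : ℝ) * M) ^ C' := pow_le_pow_right₀ (by linarith) h0
  have h7 := Real.add_one_le_exp (((C' : ℝ) * M) ^ C')
  linarith

private theorem YArch_root {κ : ℂ} (aκ : IsAlgebraic ℚ κ) (s : ℂ ≃+* ℂ) :
    s κ ∈ (minpoly ℚ κ).rootSet ℂ := by
  rw [Polynomial.mem_rootSet]
  refine ⟨minpoly.ne_zero aκ.isIntegral, ?_⟩
  have h1 := Polynomial.aeval_algHom_apply (RingHom.toRatAlgHom (s : ℂ →+* ℂ)) κ (minpoly ℚ κ)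
  rw [minpoly.aeval, map_zero] at h1
  exact h1

private theorem YArch_alg {κ : ℂ} (aκ : IsAlgebraic ℚ κ) (s : ℂ ≃+* ℂ) : IsAlgebraic ℚ (s κ) := by
  have h := YArch_root aκ s
  rw [Polynomial.mem_rootSet] at h
  exact ⟨_, h.1, h.2⟩

private theorem YArch_finite {κ β : ℂ} (aκ : IsAlgebraic ℚ κ) (aβ : IsAlgebraic ℚ β) :
    (Set.range fun s : ℂ ≃+* ℂ => (s κ, s β)).Finite := by
  refine Set.Finite.subset ((Polynomial.rootSet_finite (minpoly ℚ κ) ℂ).prod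
    (Polynomial.rootSet_finite (minpoly ℚ β) ℂ)) ?_
  rintro _ ⟨s, rfl⟩
  exact ⟨YArch_root aκ s, YArch_root aβ s⟩

theorem y_arch {κ β : ℂ} (hκ : κ ≠ 0) (aκ : IsAlgebraic ℚ κ) (aβ : IsAlgebraic ℚ β) {p : ℕ}
    (hp : 0 < p) (C₂ : ℝ) {m₁ : ℕ} (hm₁ : 0 < m₁) :
    ∃ C : ℕ, 1 ≤ C ∧ ∀ (K : IntermediateField ℚ ℂ) [FiniteDimensional ℚ K] (M : ℝ) (m₀ : ℕ)
      (u v B Φ y : ℂ), 2 ≤ M → (Module.finrank ℚ K : ℝ) ≤ M → (mdeg v u : ℝ) ≤ Real.exp M →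
      NCM v → IsB v u B → NearY p κ β C₂ m₁ m₀ u v Φ y → Bd K M (B ^ p * Φ) →
        ∀ s : ℂ ≃+* ℂ, ‖s y‖ ≤ Real.exp ((C * M) ^ C) := by
  obtain ⟨C₀, hC₀, H₀⟩ := RAll_unif (YArch_finite aκ aβ) (fun (Q : ℂ × ℂ) (C : ℕ) =>
    ∀ (K : IntermediateField ℚ ℂ) [FiniteDimensional ℚ K] (M T : ℝ)
      (u v B Φ : ℂ), 2 ≤ M → (Module.finrank ℚ K : ℝ) ≤ M → (mdeg v u : ℝ) ≤ Real.exp M →
      NCM v → IsB v u B → Bd K M (B ^ p * Φ) → T ≤ C₂ * ‖u‖ ^ m₁ → ‖v - Q.2‖ ^ m₁ * T ≤ C₂ →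
      ‖Φ * u ^ p - Q.1‖ ^ m₁ * T ≤ C₂ → T ≤ Real.exp ((C * M) ^ C)) (by
      intro Q C C' hC hCC' h K _ M T u v B Φ hM h1 h2 h3 h4 h5 h6 h7 h8
      exact (h K M T u v B Φ hM h1 h2 h3 h4 h5 h6 h7 h8).trans
        (Real.exp_le_exp.2 (YArch_mono hC hCC' (by linarith)))) (by
      rintro _ ⟨s, rfl⟩
      exact LGO.T.oneA ((map_ne_zero_iff s s.injective).2 hκ) (YArch_alg aκ s) (YArch_alg aβ s) hp
        C₂ m₁ hm₁)
  obtain ⟨C₄, hC₄, hconst⟩ := YArch_const C₂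
  refine ⟨C₀ + C₄, by omega, ?_⟩
  intro K _ M m₀ u v B Φ y hM hdeg hN hncm hB hnear hBd s
  have hM1 : (1 : ℝ) ≤ M := by linarith
  rcases le_total C₂ ‖s y‖ with hT | hT
  · obtain ⟨i1, i2, i3⟩ := hnear.arch s hT
    have hBd' : Bd (KS s K) M (s B ^ p * s Φ) := by
      have h1 := hBd.map s
      rwa [map_mul, map_pow] at h1
    have key := H₀ (s κ, s β) ⟨s, rfl⟩ (KS s K) M ‖s y‖ (s u) (s v) (s B) (s Φ) hM
      (by rw [finrank_KS]; exact hdeg) (by rw [mdeg_map]; exact hN) (hncm.map s) (hB.map hncm s)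
      hBd' i1 i2 i3
    exact key.trans (Real.exp_le_exp.2 (YArch_mono hC₀ (by omega) hM1))
  · exact hT.trans (hconst _ (by omega) _ hM1)

end Pool.Agent.LGO.TG
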