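import Mathlib
import Pool.Agent.LGO.TG.Defs
import Pool.Agent.LGO.PA.LinkB
import Pool.Agent.LGO.PA.Tate
import Pool.Agent.LGO.PA.Dom
import Pool.Agent.LGO.PA.Rho
import Pool.Agent.LGO.PA.Cmp

/-!
# LGO/TG: the local identity near a point `x_a = ∞`, `x_b = β` in `ℂ_[l]`

PROOF (compare `t_fin` in `PA/TFin.lean`).  `alg_norm` for `κ`: `m₂` (`‖m₂‖ ‖φ κ‖ ≤ 1`, `‖m₂‖ ≤ ‖φ κ‖`); `exists_rho` for `β`: `m₃`.  `m = m₀ m₂ ^ m₁ m₃`, `c = m₀ m₂ ^ m₁`.  Let `‖φ(m y)‖ > 1`.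
All integers have norm at most `1`, so `‖m₀‖ ‖φ y‖ > 1` and `‖m₀‖ ‖m₂‖ ^ m₁ ‖φ y‖ > 1`, and `NearY.fin` applies.  Put `δ₁ = ‖φ v - φ β‖`, `W = φ Φ φ u ^ p`, `δ₃ = ‖W - φ κ‖`.
(a) `1 < ‖m₀‖ ‖φ y‖ ≤ ‖φ u‖ ^ m₁`, so `‖φ u‖ > 1`.  (b) `δ₁ ^ m₁ (‖m₀‖ ‖φ y‖) ≤ 1`, so `δ₁ < 1`.  (c) `δ₃ ^ m₁ (‖m₀‖ ‖φ y‖) ≤ 1`, so `δ₃ ^ m₁ < ‖m₂‖ ^ m₁`, `δ₃ < ‖m₂‖ ≤ ‖φ κ‖`; so
`‖W‖ = ‖φ κ‖` and `‖W / φ κ - 1‖ ≤ δ₃ / ‖m₂‖ < 1`.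
(d) `isog_norm` (`IsB.isog`): `‖φ v‖ > 1`.  If `‖φ β‖ ≤ 1` then `‖φ v‖ ≤ max ‖φ β‖ δ₁ ≤ 1`, a contradiction.  So `‖φ β‖ > 1`, `l ∣ m₃ ∣ m`, and `‖φ v‖ = ‖φ β‖`.
(e) `jP_surj`: `φ β = jP q₀`, `φ v = jP q₁`; `‖(φ β)⁻¹ - (φ v)⁻¹‖ = δ₁ / ‖φ β φ v‖ ≤ δ₁`, so `‖q₀ - q₁‖ ≤ δ₁` (`jP_lip`) and `‖DP q₀ - DP q₁‖ ≤ δ₁` (`DP_lip`).
(f) `linkB` (`x = v`, `y = u`, `q₁`): `d ∣ N`, `q₂` with `φ u = jP q₂`, `φ B DP q₂ = d ^ 12 DP q₁`.  `e = E4P q₂ ^ 3 = φ u DP q₂` (`jP_mul`), `‖e - 1‖ ≤ ‖q₂‖ = ‖φ u‖⁻¹` (`E4P_near`,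
`jP_norm`), `‖e‖ = 1`.
(g) `φ(B ^ p Φ / (κ d ^ (12 p))) = (DP q₁ / DP q₂) ^ p φ Φ / φ κ = DP q₁ ^ p (W / φ κ) e ^ (-p)`.
(h) `‖DP q₀ ^ p - DP q₁ ^ p (W / φ κ) e ^ (-p)‖ ≤ max δ₁ (max (δ₃ / ‖m₂‖) ‖φ u‖⁻¹)`: `‖DP q₀‖, ‖DP q₁‖ ≤ 1` (`DP_norm`), `x ^ p - y ^ p = (x - y) ∑ ..`, `‖e ^ (-p) - 1‖ ≤ ‖e - 1‖`.
(i) Multiply the `m₁`-th powers by `‖φ y‖`: `δ₁ ^ m₁ ‖φ y‖ ≤ ‖m₀‖⁻¹`, `‖φ u‖⁻¹ ^ m₁ ‖φ y‖ ≤ ‖m₀‖⁻¹`, `(δ₃ / ‖m₂‖) ^ m₁ ‖φ y‖ ≤ (‖m₀‖ ‖m₂‖ ^ m₁)⁻¹`, all at most `c` (`int_norm_ge`: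
`‖k‖⁻¹ ≤ k` for positive integers `k`, see its use in `PA/TFin.lean`).
-/

namespace Pool.Agent.LGO.TG

open Pool.Agent.Hhelper14.ZPL Pool.Agent.LGO Pool.Agent.LGO.U Pool.Agent.LGO.PA

private theorem YLoc_nat {p : ℕ} [Fact p.Prime] (n : ℕ) : ‖(n : ℂ_[p])‖ ≤ 1 := by
  have := int_norm_le (p := p) (n : ℤ)
  simpa using this

private theorem YLoc_pos {p : ℕ} [Fact p.Prime] {n : ℕ} (hn : 0 < n) : 0 < ‖(n : ℂ_[p])‖ := by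
  rw [norm_pos_iff]
  exact_mod_cast hn.ne'

private theorem YLoc_ge {p : ℕ} [Fact p.Prime] {n : ℕ} (hn : 0 < n) :
    (n : ℝ)⁻¹ ≤ ‖(n : ℂ_[p])‖ := by
  have := int_norm_ge (p := p) (n := (n : ℤ)) (by exact_mod_cast hn.ne')
  simpa using this

private theorem YLoc_phi {p : ℕ} [Fact p.Prime] (φ : ℂ →+* ℂ_[p]) (n : ℕ) (t : ℂ) :
    ‖φ ((n : ℂ) * t)‖ = ‖(n : ℂ_[p])‖ * ‖φ t‖ := by
  rw [map_mul, map_natCast, norm_mul]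

private theorem YLoc_dvd {p : ℕ} [Fact p.Prime] {m m' : ℕ} (h : m ∣ m') :
    ‖(m' : ℂ_[p])‖ ≤ ‖(m : ℂ_[p])‖ := by
  obtain ⟨k, rfl⟩ := h
  rw [Nat.cast_mul, norm_mul]
  exact mul_le_of_le_one_right (norm_nonneg _) (YLoc_nat k)

private theorem YLoc_pow {l : ℕ} [Fact l.Prime] {x y : ℂ_[l]} {δ : ℝ} (hx : ‖x‖ ≤ 1)
    (hy : ‖y‖ ≤ 1) (h : ‖x - y‖ ≤ δ) (p : ℕ) : ‖x ^ p - y ^ p‖ ≤ δ := by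
  have hδ : 0 ≤ δ := (norm_nonneg _).trans h
  induction p with
  | zero => simpa using hδ
  | succ k ih =>
    have key : x ^ (k + 1) - y ^ (k + 1) = x ^ k * (x - y) + (x ^ k - y ^ k) * y := by ring
    rw [key]
    refine (IsUltrametricDist.norm_add_le_max _ _).trans (max_le ?_ ?_)
    · rw [norm_mul, norm_pow]
      calc ‖x‖ ^ k * ‖x - y‖ ≤ 1 * δ :=
            mul_le_mul (pow_le_one₀ (norm_nonneg _) hx) h (norm_nonneg _) zero_le_one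
        _ = δ := one_mul _
    · rw [norm_mul]
      calc ‖x ^ k - y ^ k‖ * ‖y‖ ≤ δ * 1 := mul_le_mul ih hy (norm_nonneg _) hδ
        _ = δ := mul_one _

private theorem YLoc_loc {l : ℕ} [Fact l.Prime] {x₀ x₁ e w : ℂ_[l]} {δ : ℝ} (hδ : δ ≤ 1) (p : ℕ)
    (h0 : ‖x₀‖ ≤ 1) (h1 : ‖x₁‖ ≤ 1) (h01 : ‖x₀ - x₁‖ ≤ δ) (he : ‖e - 1‖ ≤ δ) (he1 : ‖e‖ = 1)
    (hw : ‖w - 1‖ ≤ δ) : ‖x₀ ^ p - x₁ ^ p * w * (e ^ p)⁻¹‖ ≤ δ := by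
  have hδ0 : 0 ≤ δ := (norm_nonneg _).trans h01
  have he0 : e ≠ 0 := by
    rintro rfl
    simp at he1
  have hp1 : ‖e ^ p - 1‖ ≤ δ := by
    have := YLoc_pow he1.le (y := 1) (by rw [norm_one]) he p
    rwa [one_pow] at this
  have hpn : ‖e ^ p‖ = 1 := by rw [norm_pow, he1, one_pow]
  have hpe : e ^ p ≠ 0 := pow_ne_zero _ he0
  have hw1 : ‖w‖ ≤ 1 := by
    have : w = (w - 1) + 1 := by ring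
    rw [this]
    refine (IsUltrametricDist.norm_add_le_max _ _).trans (max_le (hw.trans hδ) ?_)
    rw [norm_one]
  have hx1 : ‖x₁ ^ p‖ ≤ 1 := by
    rw [norm_pow]
    exact pow_le_one₀ (norm_nonneg _) h1
  have hei : ‖1 - (e ^ p)⁻¹‖ ≤ δ := by
    have : 1 - (e ^ p)⁻¹ = (e ^ p - 1) * (e ^ p)⁻¹ := by field_simp
    rw [this, norm_mul, norm_inv, hpn, inv_one, mul_one]
    exact hp1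
  have key : x₀ ^ p - x₁ ^ p * w * (e ^ p)⁻¹ =
      (x₀ ^ p - x₁ ^ p) + (x₁ ^ p * ((1 - (e ^ p)⁻¹) * w) + x₁ ^ p * -(w - 1)) := by ring
  rw [key]
  refine (IsUltrametricDist.norm_add_le_max _ _).trans (max_le (YLoc_pow h0 h1 h01 p) ?_)
  refine (IsUltrametricDist.norm_add_le_max _ _).trans (max_le ?_ ?_)
  · rw [norm_mul, norm_mul]
    calc ‖x₁ ^ p‖ * (‖1 - (e ^ p)⁻¹‖ * ‖w‖) ≤ 1 * (δ * 1) := by gcongr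
      _ = δ := by ring
  · rw [norm_mul, norm_neg]
    calc ‖x₁ ^ p‖ * ‖w - 1‖ ≤ 1 * δ := by gcongr
      _ = δ := by ring

theorem y_loc {κ β : ℂ} (hκ : κ ≠ 0) (aκ : IsAlgebraic ℚ κ) (aβ : IsAlgebraic ℚ β) (p : ℕ)
    {m₁ m₀ : ℕ} (hm₁ : 0 < m₁) (hm₀ : 0 < m₀) :
    ∃ m c : ℕ, 0 < m ∧ 0 < c ∧ ∀ (C₂ : ℝ) (l : ℕ) [Fact l.Prime] (φ : ℂ →+* ℂ_[l])
      (u v B Φ y : ℂ), NCM v → IsB v u B → NearY p κ β C₂ m₁ m₀ u v Φ y →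
      1 < ‖φ ((m : ℂ) * y)‖ → l ∣ m ∧ ∃ (d : ℕ) (q₀ : ℂ_[l]), 0 < d ∧ d ∣ mdeg v u ∧
        0 < ‖q₀‖ ∧ ‖q₀‖ < 1 ∧ φ β = jP q₀ ∧
        ‖DP q₀ ^ p - φ (B ^ p * Φ / (κ * (d : ℂ) ^ (12 * p)))‖ ^ m₁ * ‖φ y‖ ≤ c := by
  obtain ⟨m₂, hm₂, H₂⟩ := alg_norm aκ hκ
  obtain ⟨m₃, ρ₀, ρ₁, hm₃, -, -, -, -, H₃⟩ := exists_rho aβ
  refine ⟨m₀ * m₂ ^ m₁ * m₃, m₀ * m₂ ^ m₁, by positivity, by positivity, ?_⟩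
  intro C₂ l _ φ u v B Φ y hN hB hY hlt
  rw [YLoc_phi] at hlt
  obtain ⟨μ₀, hμ₀⟩ : ∃ μ : ℝ, μ = ‖(m₀ : ℂ_[l])‖ := ⟨_, rfl⟩
  obtain ⟨μ₂, hμ₂⟩ : ∃ μ : ℝ, μ = ‖(m₂ : ℂ_[l])‖ := ⟨_, rfl⟩
  obtain ⟨T, hT⟩ : ∃ T : ℝ, T = ‖φ y‖ := ⟨_, rfl⟩
  have p0 : 0 < μ₀ := by rw [hμ₀]; exact YLoc_pos hm₀
  have p2 : 0 < μ₂ := by rw [hμ₂]; exact YLoc_pos hm₂
  have q2 : μ₂ ≤ 1 := by rw [hμ₂]; exact YLoc_nat m₂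
  have q2' : μ₂ ^ m₁ ≤ 1 := pow_le_one₀ p2.le q2
  have hT0 : 0 < T := by
    rw [hT]
    rcases (norm_nonneg (φ y)).eq_or_lt with h | h
    · rw [← h, mul_zero] at hlt
      linarith
    · exact h
  have e12 : ‖((m₀ * m₂ ^ m₁ : ℕ) : ℂ_[l])‖ = μ₀ * μ₂ ^ m₁ := by
    rw [Nat.cast_mul, Nat.cast_pow, norm_mul, norm_pow, hμ₀, hμ₂]
  have l12 : 1 < μ₀ * μ₂ ^ m₁ * T := by
    have e1 : ‖((m₀ * m₂ ^ m₁ * m₃ : ℕ) : ℂ_[l])‖ ≤ ‖((m₀ * m₂ ^ m₁ : ℕ) : ℂ_[l])‖ :=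
      YLoc_dvd ⟨m₃, rfl⟩
    rw [← e12, hT]
    exact hlt.trans_le (mul_le_mul_of_nonneg_right e1 (norm_nonneg _))
  have l1 : 1 < μ₀ * T := by
    refine l12.trans_le ?_
    calc μ₀ * μ₂ ^ m₁ * T ≤ μ₀ * 1 * T := by gcongr
      _ = μ₀ * T := by ring
  obtain ⟨r1, r2, r3⟩ := hY.fin l φ (by rw [YLoc_phi, ← hμ₀, ← hT]; exact l1)
  rw [← hμ₀, ← hT] at r1 r2 r3
  have hφu : 1 < ‖φ u‖ := by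
    by_contra hcon
    have h1 := pow_le_one₀ (n := m₁) (norm_nonneg _) (not_lt.1 hcon)
    linarith
  obtain ⟨δ₁, hδ₁⟩ : ∃ δ : ℝ, δ = ‖φ v - φ β‖ := ⟨_, rfl⟩
  obtain ⟨δ₃, hδ₃⟩ : ∃ δ : ℝ, δ = ‖φ Φ * φ u ^ p - φ κ‖ := ⟨_, rfl⟩
  rw [← hδ₁] at r2
  rw [← hδ₃] at r3
  have hδ₁0 : 0 ≤ δ₁ := by rw [hδ₁]; exact norm_nonneg _
  have hδ₃0 : 0 ≤ δ₃ := by rw [hδ₃]; exact norm_nonneg _
  have hδ₁1 : δ₁ < 1 := by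
    by_contra hcon
    have h1 : 1 ≤ δ₁ ^ m₁ := one_le_pow₀ (not_lt.1 hcon)
    have h2 : μ₀ * T ≤ μ₀ * (δ₁ ^ m₁ * T) := by
      refine mul_le_mul_of_nonneg_left ?_ p0.le
      exact le_mul_of_one_le_left hT0.le h1
    linarith
  have hδ₃1 : δ₃ < μ₂ := by
    by_contra hcon
    have h1 : μ₂ ^ m₁ ≤ δ₃ ^ m₁ := pow_le_pow_left₀ p2.le (not_lt.1 hcon) m₁
    have h2 : μ₀ * μ₂ ^ m₁ * T ≤ μ₀ * (δ₃ ^ m₁ * T) := by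
      rw [mul_assoc]
      exact mul_le_mul_of_nonneg_left (mul_le_mul_of_nonneg_right h1 hT0.le) p0.le
    linarith
  have hφv : 1 < ‖φ v‖ := by
    by_contra hcon
    have h2 := (isog_norm φ hB.isog).1 (not_lt.1 hcon)
    linarith
  have hφβ : 1 < ‖φ β‖ := by
    by_contra hcon
    have h2 : φ v = (φ v - φ β) + φ β := by ring
    have h3 : ‖φ v‖ ≤ 1 := by
      rw [h2]
      exact (IsUltrametricDist.norm_add_le_max _ _).trans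
        (max_le (by rw [← hδ₁]; exact hδ₁1.le) (not_lt.1 hcon))
    linarith
  refine ⟨(H₃ l φ hφβ).1.mul_left _, ?_⟩
  obtain ⟨q₀, a1, a2, a3⟩ := jP_surj hφβ
  obtain ⟨q₁, b1, b2, b3⟩ := jP_surj hφv
  have hq01 : ‖DP q₀ - DP q₁‖ ≤ δ₁ := by
    refine (DP_lip a2 b2).trans ((jP_lip a2 b2).trans ?_)
    rw [a3, b3]
    have h0 : φ β ≠ 0 := by
      intro h
      rw [h, norm_zero] at hφβ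
      linarith
    have h1 : φ v ≠ 0 := by
      intro h
      rw [h, norm_zero] at hφv
      linarith
    have h2 : (φ β)⁻¹ - (φ v)⁻¹ = (φ v - φ β) * ((φ β)⁻¹ * (φ v)⁻¹) := by
      field_simp
    rw [h2, norm_mul, norm_mul, norm_inv, norm_inv, ← hδ₁]
    have h3 : ‖φ β‖⁻¹ ≤ 1 := inv_le_one_of_one_le₀ hφβ.le
    have h4 : ‖φ v‖⁻¹ ≤ 1 := inv_le_one_of_one_le₀ hφv.le
    calc δ₁ * (‖φ β‖⁻¹ * ‖φ v‖⁻¹) ≤ δ₁ * (1 * 1) := by gcongr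
      _ = δ₁ := by ring
  obtain ⟨d, q₂, hd, hdN, c1, c2, -, c3, c4⟩ := linkB φ hB hN b1 b2 b3.symm
  obtain ⟨e, he⟩ : ∃ e : ℂ_[l], e = E4P q₂ ^ 3 := ⟨_, rfl⟩
  have e1 : ‖e‖ = 1 := by rw [he, norm_pow, E4P_norm c2, one_pow]
  have e2 : ‖e - 1‖ ≤ ‖φ u‖⁻¹ := by
    rw [he]
    refine (E4P_near c2).trans ?_
    have h1 := jP_norm c1 c2
    rw [← c3] at h1
    rw [h1, inv_inv]
  have e3 : φ u * DP q₂ = e := by rw [c3, he]; exact jP_mul c1 c2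
  have hφκ : φ κ ≠ 0 := by
    rw [Ne, map_eq_zero]
    exact hκ
  obtain ⟨w, hw⟩ : ∃ w : ℂ_[l], w = φ Φ * φ u ^ p * (φ κ)⁻¹ := ⟨_, rfl⟩
  have w1 : ‖w - 1‖ ≤ δ₃ * μ₂⁻¹ := by
    have h1 : w - 1 = (φ Φ * φ u ^ p - φ κ) * (φ κ)⁻¹ := by
      rw [hw, sub_mul, mul_inv_cancel₀ hφκ]
    have h2 : ‖(φ κ)‖⁻¹ ≤ μ₂⁻¹ := by
      rw [hμ₂]
      exact inv_anti₀ (by rw [← hμ₂]; exact p2) (H₂ l φ).2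
    rw [h1, norm_mul, norm_inv, ← hδ₃]
    exact mul_le_mul_of_nonneg_left h2 hδ₃0
  have hDq₂ : DP q₂ ≠ 0 := DP_ne c1 c2
  have hφu0 : φ u ≠ 0 := by
    intro h
    rw [h, norm_zero] at hφu
    linarith
  have hd0 : (d : ℂ_[l]) ≠ 0 := by exact_mod_cast hd.ne'
  have hmain : φ (B ^ p * Φ / (κ * (d : ℂ) ^ (12 * p))) = DP q₁ ^ p * w * (e ^ p)⁻¹ := by
    have h1 : φ B ^ p * DP q₂ ^ p = (d : ℂ_[l]) ^ (12 * p) * DP q₁ ^ p := by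
      rw [pow_mul, ← mul_pow, ← mul_pow, c4]
    rw [hw, ← e3, mul_pow, map_div₀, map_mul, map_mul, map_pow, map_pow, map_natCast]
    have h2 : DP q₂ ^ p ≠ 0 := pow_ne_zero _ hDq₂
    have h3 : φ u ^ p ≠ 0 := pow_ne_zero _ hφu0
    have h4 : (d : ℂ_[l]) ^ (12 * p) ≠ 0 := pow_ne_zero _ hd0
    generalize φ B ^ p = b at h1
    generalize DP q₂ ^ p = c at h1 h2
    generalize φ u ^ p = f at h3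
    generalize (d : ℂ_[l]) ^ (12 * p) = g at h1 h4
    generalize DP q₁ ^ p = k at h1
    field_simp
    linear_combination (φ Φ) * h1
  refine ⟨d, q₀, hd, hdN, a1, a2, a3.symm, ?_⟩
  obtain ⟨δ, hδ⟩ : ∃ δ : ℝ, δ = max δ₁ (max (δ₃ * μ₂⁻¹) ‖φ u‖⁻¹) := ⟨_, rfl⟩
  have g1 : δ₁ ≤ δ := by rw [hδ]; exact le_max_left _ _
  have g2 : δ₃ * μ₂⁻¹ ≤ δ := by rw [hδ]; exact (le_max_left _ _).trans (le_max_right _ _)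
  have g3 : ‖φ u‖⁻¹ ≤ δ := by rw [hδ]; exact (le_max_right _ _).trans (le_max_right _ _)
  have g4 : δ ≤ 1 := by
    rw [hδ]
    refine max_le hδ₁1.le (max_le ?_ (inv_le_one_of_one_le₀ hφu.le))
    rw [← div_eq_mul_inv, div_le_one p2]
    exact hδ₃1.le
  have hle : ‖DP q₀ ^ p - φ (B ^ p * Φ / (κ * (d : ℂ) ^ (12 * p)))‖ ≤ δ := by
    rw [hmain]
    exact YLoc_loc g4 p (by rw [DP_norm a2]; exact a2.le) (by rw [DP_norm b2]; exact b2.le)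
      (hq01.trans g1) (e2.trans g3) e1 (w1.trans g2)
  rw [← hT]
  have hpos : 0 < μ₀ * μ₂ ^ m₁ := by positivity
  have hfin : ∀ x : ℝ, μ₀ * μ₂ ^ m₁ * (x * T) ≤ 1 → x * T ≤ ((m₀ * m₂ ^ m₁ : ℕ) : ℝ) := by
    intro x hx
    have h7 := YLoc_ge (p := l) (n := m₀ * m₂ ^ m₁) (by positivity)
    rw [e12] at h7
    have hc : (0 : ℝ) < ((m₀ * m₂ ^ m₁ : ℕ) : ℝ) := by
      have : 0 < m₀ * m₂ ^ m₁ := by positivity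
      exact_mod_cast this
    have h8 : x * T ≤ (μ₀ * μ₂ ^ m₁)⁻¹ := by
      rw [← one_div, le_div_iff₀ hpos]
      linarith [mul_comm (x * T) (μ₀ * μ₂ ^ m₁)]
    refine h8.trans ?_
    rw [inv_le_comm₀ hpos hc]
    exact h7
  refine (mul_le_mul_of_nonneg_right (pow_le_pow_left₀ (norm_nonneg _) hle m₁) hT0.le).trans ?_
  refine hfin _ ?_
  have k1 : μ₀ * μ₂ ^ m₁ * (δ₁ ^ m₁ * T) ≤ 1 := by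
    calc μ₀ * μ₂ ^ m₁ * (δ₁ ^ m₁ * T) ≤ μ₀ * 1 * (δ₁ ^ m₁ * T) := by gcongr
      _ = μ₀ * (δ₁ ^ m₁ * T) := by ring
      _ ≤ 1 := r2
  have k2 : μ₀ * μ₂ ^ m₁ * ((δ₃ * μ₂⁻¹) ^ m₁ * T) ≤ 1 := by
    have h1 : μ₂ ^ m₁ ≠ 0 := (pow_pos p2 m₁).ne'
    have h2 : μ₀ * μ₂ ^ m₁ * ((δ₃ * μ₂⁻¹) ^ m₁ * T) = μ₀ * (δ₃ ^ m₁ * T) := by
      rw [mul_pow, inv_pow]
      field_simp
    rw [h2]
    exact r3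
  have k3 : μ₀ * μ₂ ^ m₁ * (‖φ u‖⁻¹ ^ m₁ * T) ≤ 1 := by
    have h0 : 0 < ‖φ u‖ ^ m₁ := pow_pos (by linarith) m₁
    calc μ₀ * μ₂ ^ m₁ * (‖φ u‖⁻¹ ^ m₁ * T) ≤ μ₀ * 1 * (‖φ u‖⁻¹ ^ m₁ * T) := by gcongr
      _ = (μ₀ * T) / ‖φ u‖ ^ m₁ := by rw [inv_pow]; ring
      _ ≤ 1 := by rw [div_le_one h0]; exact r1
  rw [hδ]
  rcases max_cases δ₁ (max (δ₃ * μ₂⁻¹) ‖φ u‖⁻¹) with ⟨h, -⟩ | ⟨h, -⟩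
  · rw [h]; exact k1
  · rw [h]
    rcases max_cases (δ₃ * μ₂⁻¹) ‖φ u‖⁻¹ with ⟨h', -⟩ | ⟨h', -⟩
    · rw [h']; exact k2
    · rw [h']; exact k3

end Pool.Agent.LGO.TG
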