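import Mathlib
import Pool.Agent.LGO.TG.YLoc
import Pool.Agent.LGO.PA.MeasP
import Pool.Agent.LGO.U.RFld
import Pool.Agent.LGO.Q.Quad
import Pool.Agent.LGO.H.BdC

/-!
# LGO/TG: the size of `Y` in `ℂ_[l]`

PROOF (compare the end of `t_fin` in `PA/TFin.lean`).  `y_loc`: `m`, `c`.  Let `‖φ(m y)‖ > 1`: `l ∣ m`, `d`, `q₀`.  `θ' = B ^ p Φ / (κ d ^ (12 p))`, `K₁ = K ⊔ ℚ⟮κ⟯`, `[K₁ : ℚ] ≤ C₁ M`,
`Bd K₁ (C₁ M) θ'` (`Quad_bd_alg` for `κ⁻¹`, `Bd.ratCast` for `1 / d ^ (12 p)`, `d ≤ mdeg v u ≤ exp M`: `d ^ (12 p) ≤ exp (12 p M)`).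
The polynomial `X ^ p - C θ'` over `ℂ` splits, `X ^ p - C θ' = ∏ (X - C θ_i)` over the multiset of its `p` roots (`IsAlgClosed.splits`), apply `φ` and evaluate at `DP q₀`:
`DP q₀ ^ p - φ θ' = ∏ (DP q₀ - φ θ_i)`, so there is a root `θ` with `‖DP q₀ - φ θ‖ ^ p ≤ ‖DP q₀ ^ p - φ θ'‖` (otherwise the product is larger; `p > 0`).
`fld_root` for `X ^ p - C θ'`: `K₂ ∋ θ`, `[K₂ : ℚ] ≤ p C₁ M`; `θ ^ p = θ'`, `bd_root`: `Bd K₂ (C₁ M) θ`.  `measP` for `β`, `M' = p C₁ M ≥ 2` (enlarge `C₁`):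
`exp (-((C₃ M') ^ C₃)) ≤ ‖DP q₀ - φ θ‖`.  So `exp (-(p m₁ (C₃ M') ^ C₃)) ‖φ y‖ ≤ ‖DP q₀ - φ θ‖ ^ (p m₁) ‖φ y‖ ≤ ‖DP q₀ ^ p - φ θ'‖ ^ m₁ ‖φ y‖ ≤ c`, and
`‖φ y‖ ≤ c exp (p m₁ (C₃ M') ^ C₃) ≤ exp ((C M) ^ C)` for a large natural number `C`.
-/

namespace Pool.Agent.LGO.TG

open Pool.Agent.Hhelper14.ZPL Pool.Agent.LGO Pool.Agent.LGO.U Pool.Agent.LGO.PA

private theorem YFin_root {l : ℕ} [Fact l.Prime] (φ : ℂ →+* ℂ_[l]) {p : ℕ} (hp : 0 < p) (θ' : ℂ)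
    (z : ℂ_[l]) : ∃ θ : ℂ, θ ^ p = θ' ∧ ‖z - φ θ‖ ^ p ≤ ‖z ^ p - φ θ'‖ := by
  classical
  obtain ⟨P, hP⟩ : ∃ P : Polynomial ℂ, P = Polynomial.X ^ p - Polynomial.C θ' := ⟨_, rfl⟩
  have hmon : P.Monic := by
    rw [hP]
    exact Polynomial.monic_X_pow_sub_C θ' hp.ne'
  have hdeg : P.natDegree = p := by
    rw [hP]
    exact Polynomial.natDegree_X_pow_sub_C
  have hsp : P.Splits := IsAlgClosed.splits P
  have hprod : P = (P.roots.map fun a => Polynomial.X - Polynomial.C a).prod :=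
    hsp.eq_prod_roots_of_monic hmon
  have hcard : Multiset.card P.roots = p := by
    rw [← hdeg]
    exact hsp.natDegree_eq_card_roots.symm
  have hne : P.roots.toFinset.Nonempty := by
    rw [Multiset.toFinset_nonempty, ← Multiset.card_pos, hcard]
    exact hp
  obtain ⟨θ, hθ, hmin⟩ := Finset.exists_min_image P.roots.toFinset (fun a => ‖z - φ a‖) hne
  refine ⟨θ, ?_, ?_⟩
  · have h1 := Polynomial.isRoot_of_mem_roots (Multiset.mem_toFinset.1 hθ)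
    rw [Polynomial.IsRoot.def, hP, Polynomial.eval_sub, Polynomial.eval_pow, Polynomial.eval_X,
      Polynomial.eval_C] at h1
    exact sub_eq_zero.1 h1
  · have h2 : z ^ p - φ θ' = (P.roots.map fun a => z - φ a).prod := by
      have h3 : Polynomial.eval₂RingHom φ z P = z ^ p - φ θ' := by
        rw [hP]
        simp
      rw [← h3]
      conv_lhs => rw [hprod]
      rw [map_multiset_prod, Multiset.map_map]
      congr 1
      refine Multiset.map_congr rfl fun a _ => ?_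
      simp
    have h4 : ‖(P.roots.map fun a => z - φ a).prod‖ = (P.roots.map fun a => ‖z - φ a‖).prod := by
      have h5 := map_multiset_prod (normHom (α := ℂ_[l])) (P.roots.map fun a => z - φ a)
      rw [Multiset.map_map] at h5
      exact h5
    rw [h2, h4]
    calc ‖z - φ θ‖ ^ p = (P.roots.map fun _ => ‖z - φ θ‖).prod := by
          rw [Multiset.map_const', Multiset.prod_replicate, hcard]
      _ ≤ _ := Multiset.prod_map_le_prod_map₀ _ _ (fun _ _ => norm_nonneg _)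
          fun a ha => hmin a (Multiset.mem_toFinset.2 ha)

private theorem YFin_real {c e C₁ C₃ : ℕ} {M x Y : ℝ} (hC₁ : 1 ≤ C₁) (hC₃ : 1 ≤ C₃) (hc : 0 < c)
    (hM : 2 ≤ M) (hY : Y = (C₃ * (C₁ * M)) ^ C₃) (h : Real.exp (-(e * Y)) * x ≤ c) :
    x ≤ Real.exp ((((c + e + C₃ * C₁ + C₃ + 1 : ℕ) : ℝ) * M) ^ (c + e + C₃ * C₁ + C₃ + 1)) := by
  have hcR : (1 : ℝ) ≤ c := by exact_mod_cast hc
  have hC₃R : (1 : ℝ) ≤ C₃ := by exact_mod_cast hC₃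
  have hC₁R : (1 : ℝ) ≤ C₁ := by exact_mod_cast hC₁
  have heR : (0 : ℝ) ≤ e := by positivity
  obtain ⟨z, hz⟩ : ∃ z : ℝ, z = C₃ * (C₁ * M) := ⟨_, rfl⟩
  have hz0 : 0 ≤ z := by
    rw [hz]
    positivity
  have h1 : x ≤ c * Real.exp (e * Y) := by
    have h2 := mul_le_mul_of_nonneg_left h (Real.exp_pos (e * Y)).le
    rw [← mul_assoc, ← Real.exp_add, add_neg_cancel, Real.exp_zero, one_mul] at h2
    linarith [mul_comm (Real.exp (e * Y)) (c : ℝ)]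
  have h2 : (c : ℝ) ≤ Real.exp c := by linarith [Real.add_one_le_exp (c : ℝ)]
  have h3 : x ≤ Real.exp (c + e * Y) := by
    rw [Real.exp_add]
    exact h1.trans (mul_le_mul_of_nonneg_right h2 (Real.exp_pos _).le)
  refine h3.trans (Real.exp_le_exp.2 ?_)
  rw [hY, ← hz]
  set C : ℕ := c + e + C₃ * C₁ + C₃ + 1 with hC
  obtain ⟨a, ha⟩ : ∃ a : ℝ, a = (C : ℝ) * M := ⟨_, rfl⟩
  have h4 : c + e + z ≤ a := by
    rw [ha, hC, hz]
    push_cast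
    nlinarith [mul_nonneg (sub_nonneg.2 hcR) (by linarith : (0 : ℝ) ≤ M), mul_nonneg heR (by linarith : (0 : ℝ) ≤ M - 1)]
  have ha1 : 1 ≤ a := by linarith
  have e1 : (1 : ℝ) ≤ a ^ C₃ := one_le_pow₀ ha1
  have e2 : z ^ C₃ ≤ a ^ C₃ := pow_le_pow_left₀ hz0 (by linarith) _
  calc (c : ℝ) + e * z ^ C₃ ≤ c * a ^ C₃ + e * a ^ C₃ := by
        have e3 : (c : ℝ) * 1 ≤ c * a ^ C₃ := mul_le_mul_of_nonneg_left e1 (by linarith)
        have e4 : (e : ℝ) * z ^ C₃ ≤ e * a ^ C₃ := mul_le_mul_of_nonneg_left e2 heR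
        linarith
    _ = (c + e) * a ^ C₃ := by ring
    _ ≤ a * a ^ C₃ := mul_le_mul_of_nonneg_right (by linarith) (by positivity)
    _ = a ^ (C₃ + 1) := by ring
    _ ≤ a ^ C := pow_le_pow_right₀ ha1 (by omega)
    _ = _ := by rw [ha]

theorem y_fin {κ β : ℂ} (hκ : κ ≠ 0) (aκ : IsAlgebraic ℚ κ) (aβ : IsAlgebraic ℚ β) {p : ℕ}
    (hp : 0 < p) {m₁ m₀ : ℕ} (hm₁ : 0 < m₁) (hm₀ : 0 < m₀) :
    ∃ C m : ℕ, 1 ≤ C ∧ 0 < m ∧ ∀ (C₂ : ℝ) (l : ℕ) [Fact l.Prime] (φ : ℂ →+* ℂ_[l])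
      (K : IntermediateField ℚ ℂ) [FiniteDimensional ℚ K] (M : ℝ) (u v B Φ y : ℂ), 2 ≤ M →
      (Module.finrank ℚ K : ℝ) ≤ M → (mdeg v u : ℝ) ≤ Real.exp M → NCM v → IsB v u B →
      NearY p κ β C₂ m₁ m₀ u v Φ y → Bd K M (B ^ p * Φ) →
        ‖φ ((m : ℂ) * y)‖ ≤ 1 ∨ (l ∣ m ∧ ‖φ y‖ ≤ Real.exp ((C * M) ^ C)) := by
  obtain ⟨m, c, hm, hc, H₁⟩ := y_loc hκ aκ aβ p hm₁ hm₀
  obtain ⟨C₃, hC₃, H₄⟩ := measP aβ
  obtain ⟨b, hb, H₅⟩ := Quad_bd_alg (g := κ⁻¹) aκ.inv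
  have hfk : FiniteDimensional ℚ (IntermediateField.adjoin ℚ {κ}) :=
    IntermediateField.adjoin.finiteDimensional aκ.isIntegral
  obtain ⟨b', hb'⟩ := exists_nat_ge b
  set k : ℕ := Module.finrank ℚ (IntermediateField.adjoin ℚ {κ}) with hk
  set C₁ : ℕ := p * k + 12 * p + 1 + b' with hC₁
  refine ⟨c + p * m₁ + C₃ * C₁ + C₃ + 1, m, by omega, hm, ?_⟩
  intro C₂ l _ φ K _ M u v B Φ y hM hK hN hncm hB hnear hBd
  by_cases hle : ‖φ ((m : ℂ) * y)‖ ≤ 1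
  · exact Or.inl hle
  right
  obtain ⟨hlm, d, q₀, hd, hdN, hq0, hq1, hβ, hmain⟩ := H₁ C₂ l φ u v B Φ y hncm hB hnear (not_le.1 hle)
  refine ⟨hlm, ?_⟩
  -- the number `θ'`
  obtain ⟨θ', hθ'⟩ : ∃ θ' : ℂ, θ' = B ^ p * Φ / (κ * (d : ℂ) ^ (12 * p)) := ⟨_, rfl⟩
  rw [← hθ'] at hmain
  have hNd : (d : ℝ) ≤ Real.exp M := by
    refine le_trans ?_ hN
    exact_mod_cast Nat.le_of_dvd (mdeg_pos hB.isog) hdN
  have hbR : (0 : ℝ) ≤ b' := by positivity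
  have hpR : (0 : ℝ) ≤ p := by positivity
  have hkR : (0 : ℝ) ≤ k := by positivity
  have hBd1 : Bd (K ⊔ IntermediateField.adjoin ℚ {κ}) ((C₁ : ℝ) * M) θ' := by
    have g1 : Bd (K ⊔ IntermediateField.adjoin ℚ {κ}) M (B ^ p * Φ) := hBd.le le_sup_left
    have g2 : Bd (K ⊔ IntermediateField.adjoin ℚ {κ}) b κ⁻¹ :=
      (H₅ _ (inv_mem (IntermediateField.mem_adjoin_simple_self ℚ κ))).le le_sup_right
    have g3 : Bd (K ⊔ IntermediateField.adjoin ℚ {κ}) M (((1 / d : ℚ)) : ℂ) := by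
      have hq : (1 / (d : ℚ)) = (d : ℚ)⁻¹ := one_div _
      refine Bd.ratCast _ ?_ ?_
      · rw [hq, Rat.inv_natCast_num_of_pos hd]
        simp only [Int.cast_one, abs_one]
        exact Real.one_le_exp (by linarith)
      · rw [hq, Rat.inv_natCast_den_of_pos hd]
        exact hNd
    have g4 := g1.mul (g2.mul (g3.pow (12 * p)))
    have g5 : B ^ p * Φ * (κ⁻¹ * (((1 / d : ℚ)) : ℂ) ^ (12 * p)) = θ' := by
      rw [hθ', one_div, Rat.cast_inv, Rat.cast_natCast, div_eq_mul_inv, mul_inv, inv_pow]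
    rw [g5] at g4
    refine g4.mono ?_
    rw [hC₁]
    push_cast
    nlinarith [mul_nonneg (mul_nonneg hpR hkR) (by linarith : (0 : ℝ) ≤ M),
      mul_nonneg hbR (by linarith : (0 : ℝ) ≤ M - 1)]
  have hfin : (Module.finrank ℚ (K ⊔ IntermediateField.adjoin ℚ {κ} : IntermediateField ℚ ℂ) : ℝ) ≤
      M * k := by
    have h1 := IntermediateField.finrank_sup_le K (IntermediateField.adjoin ℚ {κ})
    have h2 : (Module.finrank ℚ (K ⊔ IntermediateField.adjoin ℚ {κ} : IntermediateField ℚ ℂ) : ℝ) ≤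
        (Module.finrank ℚ K : ℝ) * k := by
      rw [hk]
      exact_mod_cast h1
    exact h2.trans (mul_le_mul_of_nonneg_right hK hkR)
  have hfs : FiniteDimensional ℚ (K ⊔ IntermediateField.adjoin ℚ {κ} : IntermediateField ℚ ℂ) :=
    IntermediateField.finiteDimensional_sup K _
  -- the root
  obtain ⟨θ, hθ, hroot⟩ := YFin_root φ hp θ' (DP q₀)
  obtain ⟨K₂, hK₂, hfd, hfr, hθm⟩ := fld_root p (K ⊔ IntermediateField.adjoin ℚ {κ})
    (Polynomial.X ^ p - Polynomial.C θ') (Polynomial.monic_X_pow_sub_C θ' hp.ne').ne_zero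
    Polynomial.natDegree_X_pow_sub_C.le (by
      intro i
      rw [Polynomial.coeff_sub, Polynomial.coeff_X_pow, Polynomial.coeff_C]
      refine sub_mem ?_ ?_
      · split_ifs
        · exact one_mem _
        · exact zero_mem _
      · split_ifs
        · exact hBd1.mem
        · exact zero_mem _) θ (by
      rw [Polynomial.eval_sub, Polynomial.eval_pow, Polynomial.eval_X, Polynomial.eval_C, hθ,
        sub_self])
  have hBd2 : Bd K₂ ((C₁ : ℝ) * M) θ := by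
    refine Pool.Agent.LGO.U.bd_root p hp hθm ?_
    rw [hθ]
    exact hBd1.le hK₂
  have hfin2 : (Module.finrank ℚ K₂ : ℝ) ≤ (C₁ : ℝ) * M := by
    have h1 : (Module.finrank ℚ K₂ : ℝ) ≤
        p * (Module.finrank ℚ (K ⊔ IntermediateField.adjoin ℚ {κ} : IntermediateField ℚ ℂ) : ℝ) := by
      exact_mod_cast hfr
    refine h1.trans ((mul_le_mul_of_nonneg_left hfin hpR).trans ?_)
    rw [hC₁]
    push_cast
    nlinarith [mul_nonneg hpR (by linarith : (0 : ℝ) ≤ M), mul_nonneg hbR (by linarith : (0 : ℝ) ≤ M)]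
  have hC₁1 : 1 ≤ C₁ := by omega
  have hC₁M : 2 ≤ (C₁ : ℝ) * M := by
    have : (1 : ℝ) ≤ C₁ := by exact_mod_cast hC₁1
    nlinarith
  have h6 := H₄ l φ q₀ hq0 hq1 hβ K₂ ((C₁ : ℝ) * M) θ hC₁M hfin2 hBd2
  -- the end
  refine YFin_real (c := c) (e := p * m₁) hC₁1 hC₃ hc hM rfl ?_
  refine le_trans ?_ hmain
  refine mul_le_mul_of_nonneg_right ?_ (norm_nonneg _)
  calc Real.exp (-(((p * m₁ : ℕ) : ℝ) * (C₃ * (C₁ * M)) ^ C₃))
      = (Real.exp (-((C₃ * (C₁ * M)) ^ C₃)) ^ p) ^ m₁ := by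
        rw [← pow_mul, ← Real.exp_nat_mul]
        congr 1
        ring
    _ ≤ (‖DP q₀ - φ θ‖ ^ p) ^ m₁ := by
        have := (Real.exp_pos (-((C₃ * (C₁ * M)) ^ C₃ : ℝ))).le
        gcongr
    _ ≤ ‖DP q₀ ^ p - φ θ'‖ ^ m₁ := pow_le_pow_left₀ (by positivity) hroot _

end Pool.Agent.LGO.TG
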