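import Mathlib
import Pool.Agent.LGO.TG.XiU
import Pool.Agent.LGO.TG.YFin
import Pool.Agent.LGO.TG.YArch
import Pool.Agent.LGO.PA.Den

/-!
# LGO/TG: the height of `Y`

PROOF (as `eq_t` in `PA/EqT.lean`).  `exists_B`: `B` with `IsB v u B`.  `N = mdeg v u ≥ 1`, `D = [K : ℚ] ≥ 1`.  `xi_bdU`: `Bd K (C₃ (1 + log N + log H)) Ξ`, `Ξ = B ^ p Φ`.
`M = (C₃ + 2) D (1 + log N + log H)`: `M ≥ 2`, `M ≥ D`, `exp M ≥ N`, `Bd K M Ξ` (`Bd.mono`).  `y_arch`: `‖s y‖ ≤ exp ((C₄ M) ^ C₄)` for all `s`.  `y_fin` and `den_of` (`PA/Den.lean`) with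
`G = (C₅ M) ^ C₅`: a denominator `≤ exp (C₆ (1 + (C₅ M) ^ C₅))`.  House: every embedding of `K` extends to an automorphism (`exists_aut`).  `Bd K ((C D (1 + log N + log H)) ^ C) y` for a
large natural number `C`.
-/

namespace Pool.Agent.LGO.TG

open Pool.Agent.Hhelper14.ZPL Pool.Agent.LGO Pool.Agent.LGO.U Pool.Agent.LGO.PA

private lemma YBd_num {C₁ C₄ : ℝ} {C₂ C₃ : ℕ} (h1 : 1 ≤ C₁) (h2 : 1 ≤ C₂) (h3 : 1 ≤ C₃) (h4 : 1 ≤ C₄) :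
    ∃ C : ℕ, 1 ≤ C ∧ ∀ X : ℝ, 1 ≤ X → ((C₂ : ℝ) * ((C₁ + 2) * X)) ^ C₂ ≤ ((C : ℝ) * X) ^ C ∧
      C₄ * (1 + ((C₃ : ℝ) * ((C₁ + 2) * X)) ^ C₃) ≤ ((C : ℝ) * X) ^ C := by
  refine ⟨⌈2 * C₄⌉₊ + ⌈C₂ * (C₁ + 2)⌉₊ + ⌈C₃ * (C₁ + 2)⌉₊ + C₂ + C₃ + 1, by omega, ?_⟩
  intro X hX
  set C : ℕ := ⌈2 * C₄⌉₊ + ⌈C₂ * (C₁ + 2)⌉₊ + ⌈C₃ * (C₁ + 2)⌉₊ + C₂ + C₃ + 1 with hC
  have a1 : 2 * C₄ ≤ C := (Nat.le_ceil _).trans (by rw [hC]; exact_mod_cast (by omega))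
  have a2 : (C₂ : ℝ) * (C₁ + 2) ≤ C := (Nat.le_ceil _).trans (by rw [hC]; exact_mod_cast (by omega))
  have a3 : (C₃ : ℝ) * (C₁ + 2) ≤ C := (Nat.le_ceil _).trans (by rw [hC]; exact_mod_cast (by omega))
  have b2 : C₂ ≤ C := by omega
  have b3 : C₃ + 1 ≤ C := by omega
  have hC2 : (1 : ℝ) ≤ C₂ := by exact_mod_cast h2
  have hC3 : (1 : ℝ) ≤ C₃ := by exact_mod_cast h3
  have hC0 : (1 : ℝ) ≤ C := by
    have : (1 : ℕ) ≤ C := by omega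
    exact_mod_cast this
  have hCX : 1 ≤ (C : ℝ) * X := by nlinarith
  have c2 : (C₂ : ℝ) * ((C₁ + 2) * X) ≤ C * X := by
    calc (C₂ : ℝ) * ((C₁ + 2) * X) = (C₂ * (C₁ + 2)) * X := by ring
      _ ≤ C * X := mul_le_mul_of_nonneg_right a2 (by linarith)
  have c3 : (C₃ : ℝ) * ((C₁ + 2) * X) ≤ C * X := by
    calc (C₃ : ℝ) * ((C₁ + 2) * X) = (C₃ * (C₁ + 2)) * X := by ring
      _ ≤ C * X := mul_le_mul_of_nonneg_right a3 (by linarith)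
  have d1 : (1 : ℝ) ≤ (C₁ + 2) * X := by nlinarith
  have d2 : (0 : ℝ) ≤ (C₂ : ℝ) * ((C₁ + 2) * X) := by positivity
  have d3 : (1 : ℝ) ≤ (C₃ : ℝ) * ((C₁ + 2) * X) := by nlinarith
  constructor
  · exact (pow_le_pow_left₀ d2 c2 _).trans (pow_le_pow_right₀ hCX b2)
  · have e1 : (1 : ℝ) ≤ ((C₃ : ℝ) * ((C₁ + 2) * X)) ^ C₃ := one_le_pow₀ d3
    have e2 : ((C₃ : ℝ) * ((C₁ + 2) * X)) ^ C₃ ≤ (C * X) ^ C₃ :=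
      pow_le_pow_left₀ (by linarith) c3 _
    have e3 : 2 * C₄ ≤ C * X := a1.trans (by nlinarith)
    calc C₄ * (1 + ((C₃ : ℝ) * ((C₁ + 2) * X)) ^ C₃) ≤ 2 * C₄ * (C * X) ^ C₃ := by nlinarith
      _ ≤ (C * X) * (C * X) ^ C₃ := mul_le_mul_of_nonneg_right e3 (by positivity)
      _ = (C * X) ^ (C₃ + 1) := by ring
      _ ≤ (C * X) ^ C := pow_le_pow_right₀ hCX b3

theorem y_bd {κ β : ℂ} (hκ : κ ≠ 0) (aκ : IsAlgebraic ℚ κ) (aβ : IsAlgebraic ℚ β) {p : ℕ}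
    (hp : 0 < p) (C₁ : ℝ) {m : ℕ} (hm : 0 < m) (C₂ : ℝ) {m₁ m₀ : ℕ} (hm₁ : 0 < m₁)
    (hm₀ : 0 < m₀) : ∃ C : ℕ, 1 ≤ C ∧ ∀ (K : IntermediateField ℚ ℂ) [FiniteDimensional ℚ K]
      (u v Φ y : ℂ), PtU p p C₁ m u v Φ → NearY p κ β C₂ m₁ m₀ u v Φ y → NCM v →
      (∃ N, 0 < N ∧ IsogDeg N v u) → u ∈ K → v ∈ K → Φ ∈ K → y ∈ K → ∀ H : ℝ, 1 ≤ H →
      (∀ s : ℂ ≃+* ℂ, ‖s u‖ ≤ Real.exp H) → (∀ s : ℂ ≃+* ℂ, ‖s v‖ ≤ Real.exp H) →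
        Bd K ((C * (Module.finrank ℚ K * (1 + Real.log (mdeg v u) + Real.log H))) ^ C) y := by
  obtain ⟨A₁, h1, H1⟩ := xi_bdU p C₁ hm
  obtain ⟨A₂, h2, H2⟩ := y_arch hκ aκ aβ hp C₂ hm₁
  obtain ⟨A₃, m', h3, hm', H3⟩ := y_fin hκ aκ aβ hp hm₁ hm₀
  obtain ⟨A₄, h4, H4⟩ := den_of m' hm'
  obtain ⟨C, hC, HC⟩ := YBd_num h1 h2 h3 h4
  refine ⟨C, hC, ?_⟩
  intro K _ u v Φ y hP hY hNC hex hu hv hΦ hy H hH hsu hsv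
  obtain ⟨B, hB⟩ := exists_B hex
  have hN : 0 < mdeg v u := mdeg_pos hex
  have hN1 : (1 : ℝ) ≤ mdeg v u := by exact_mod_cast hN
  have hD : 0 < Module.finrank ℚ K := Module.finrank_pos
  have hD1 : (1 : ℝ) ≤ Module.finrank ℚ K := by exact_mod_cast hD
  have hlN : 0 ≤ Real.log (mdeg v u) := Real.log_nonneg hN1
  have hlH : 0 ≤ Real.log H := Real.log_nonneg hH
  set L : ℝ := 1 + Real.log (mdeg v u) + Real.log H with hL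
  have hL1 : 1 ≤ L := by linarith
  set X : ℝ := Module.finrank ℚ K * L with hXdef
  have hLX : L ≤ X := by rw [hXdef]; nlinarith
  have hDX : (Module.finrank ℚ K : ℝ) ≤ X := by rw [hXdef]; nlinarith
  have hX : 1 ≤ X := hL1.trans hLX
  have hXM : X ≤ (A₁ + 2) * X := by nlinarith
  have hM2 : 2 ≤ (A₁ + 2) * X := by nlinarith
  have hNM : (mdeg v u : ℝ) ≤ Real.exp ((A₁ + 2) * X) := by
    rw [← Real.log_le_iff_le_exp (by linarith)]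
    linarith
  have hXi : Bd K ((A₁ + 2) * X) (B ^ p * Φ) :=
    (H1 K u v Φ B hP hNC hB hu hv hΦ H hH hsu hsv).mono (by nlinarith)
  obtain ⟨g1, g2⟩ := HC X hX
  have halg : IsAlgebraic ℚ y := by
    have h5 : IsAlgebraic ℚ (⟨y, hy⟩ : K) := Algebra.IsAlgebraic.isAlgebraic _
    exact (isAlgebraic_algebraMap_iff (algebraMap K ℂ).injective).2 h5
  have hden := H4 y (((A₃ : ℝ) * ((A₁ + 2) * X)) ^ A₃) halg (by positivity)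
    (fun l _ φ => H3 C₂ l φ K ((A₁ + 2) * X) u v B Φ y hM2 (hDX.trans hXM) hNM hNC hB hY hXi)
  refine ⟨hy, ?_, ?_⟩
  · obtain ⟨n, hn0, hn1, hn2⟩ := hden
    exact ⟨n, hn0, hn1.trans (Real.exp_le_exp.2 g2), hn2⟩
  · intro σ
    obtain ⟨s, hs⟩ := exists_aut K σ
    rw [← hs ⟨y, hy⟩]
    exact (H2 K ((A₁ + 2) * X) m₀ u v B Φ y hM2 (hDX.trans hXM) hNM hNC hB hY hXi s).trans
      (Real.exp_le_exp.2 g1)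

end Pool.Agent.LGO.TG
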