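import Mathlib
import Pool.Agent.LGO.TG.PtU
import Pool.Agent.LGO.TG.YBd
import Pool.Agent.LGO.TG.NearX
import Pool.Agent.LGO.TG.PairC

/-!
# LGO/TG: the pair theorem for curves of any genus

`OneInfG V a b`: a point at infinity of `V` with `x_a = ∞` and `x_b` finite.
`pair_d`: different degrees (a one-sided inequality with `q < p`).  `pair_t`: the pole divisors differ by a torsion class and there is a point at infinity with `x_a = ∞` and `x_b` finite.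

PROOF of `pair_t`.  `C`, `m` from `oneG_pt` for the first part of `TorG`; `Y, κ, C₂, m₁, m₀` from `nearG`; `y_bd`; `hts_v` (`LGO/ZV/Hts.lean`) for `a`; `hts_y` for `Y`; a field `K₀` of finite
degree which contains the coefficients of `F, G, Y` (`fld_mvn`).  Let `x ∈ V` be outside the exceptional sets, `x_a, x_b ∈ K`, `D = [K : ℚ]`, `u = x_a`, `v = x_b`: `IsogDeg N v u`
(`heckeRel_iff`, `HeckeRel.symm'`).  `x_a` is algebraic, so `Bd K M₀ x_a` for some `M₀` (`Quad_bd_alg`), and `hts_v` gives `K₁ ⊇ K` of degree at most `C D` with all `x_k ∈ K₁`.  `K₂ = K₁ ⊔ K₀` contains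
`Φ` and `y = Y(x)`.  `close`: for `H` as in the hypothesis there, `y_bd` for `K₂` gives `Bd K₂ ((C D (1 + log N + log H)) ^ C) y`, `hts_y` gives `K₃` with `Bd K₃ (..) (x_k)` for all `k`, and `bd_down` the
same for `K`.
PROOF of `pair_d`: the same with `neqU` (`Bd K₂ (C D (1 + log N + log H)) v`) and `hts_v` for `b` in place of `y_bd` and `hts_y`.
-/

namespace Pool.Agent.LGO.TG

open MvPolynomial Filter Topology Pool.Agent.Hhelper14.ZP Pool.Agent.Hhelper14.ZPL Pool.Agent.LGO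
  Pool.Agent.LGO.U Pool.Agent.LGO.PA Pool.Agent.LGO.ZV

variable {n : ℕ}

/-- a point at infinity where `x_a` is infinite and `x_b` is finite -/
def OneInfG (V : Set (Fin n → ℂ)) (a b : Fin n) : Prop :=
  ∃ (P : ℕ → Fin n → ℂ) (β : ℂ), (∀ m, P m ∈ V) ∧
    Tendsto (fun m => ‖P m a‖) atTop atTop ∧ Tendsto (fun m => P m b) atTop (𝓝 β)

theorem pair_t {V : Set (Fin n → ℂ)} (hV : Pool.Agent.Hhelper14.ZPL.IsIrredClosed V)
    (hVk : KClosed V) (hdim : Pool.Agent.Hhelper14.ZPL.dim V = 1)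
    (hnc : ∀ (k : Fin n) (c : ℂ), ∃ x ∈ V, x k ≠ c) {a b : Fin n}
    {F G : MvPolynomial (Fin n) Qb} {p : ℕ} {C₀ : ℝ} {E : Set (Fin n → ℂ)}
    (h : TorG V a b F G p C₀ E) (ho : OneInfG V a b) : PairHt V a b ∧ PairHt V b a := by
  obtain ⟨P, β, hP, ha, hb⟩ := ho
  obtain ⟨C₁, m, -, hm, hpt⟩ := oneG_pt hV hVk hdim (hnc b) h.1
  obtain ⟨Y, κ, C₂, m₁, m₀, -, hm₁, hm₀, hN⟩ := nearG hV hVk hdim h P hP ha hb
  obtain ⟨Cy, hCy, hy⟩ := y_bd hN.ne hN.algκ hN.algβ h.1.hp C₁ hm C₂ hm₁ hm₀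
  refine pair_core hV hVk hdim hnc F G Y hN.nc (E₀ := E) h.1.fin Cy hCy ?_
  intro x hx hxE hncm hiso K _ hKa hKb hKF hKG hKY H hH hsa hsb
  exact hy K (x a) (x b) (aeval x F / aeval x G : ℂ) (aeval x Y : ℂ) (hpt x hx hxE)
    (hN.h x hx hxE) hncm hiso hKa hKb (K.div_mem hKF hKG) hKY H hH hsa hsb

theorem pair_d {V : Set (Fin n → ℂ)} (hV : Pool.Agent.Hhelper14.ZPL.IsIrredClosed V)
    (hVk : KClosed V) (hdim : Pool.Agent.Hhelper14.ZPL.dim V = 1)
    (hnc : ∀ (k : Fin n) (c : ℂ), ∃ x ∈ V, x k ≠ c) {a b : Fin n}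
    {F G : MvPolynomial (Fin n) Qb} {p q : ℕ} {C₀ : ℝ} {E : Set (Fin n → ℂ)}
    (h : OneG V a b F G p q C₀ E) (hpq : q < p) : PairHt V a b ∧ PairHt V b a := by
  obtain ⟨C₁, m, -, hm, hpt⟩ := oneG_pt hV hVk hdim (hnc b) h
  obtain ⟨Cy, hCy, hy⟩ := neqU hpq C₁ hm
  obtain ⟨N₀, hN₀⟩ := exists_nat_ge Cy
  refine pair_core hV hVk hdim hnc F G (X b) ?_ (E₀ := E) h.fin (N₀ + 1) (by omega) ?_
  · intro c
    obtain ⟨x, hx, hxc⟩ := hnc b c
    exact ⟨x, hx, by rw [aeval_X]; exact hxc⟩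
  intro x hx hxE hncm hiso K _ hKa hKb hKF hKG _ H hH hsa hsb
  obtain ⟨B, hB⟩ := exists_B hiso
  have h1 := hy K (x a) (x b) (aeval x F / aeval x G : ℂ) B (hpt x hx hxE) hncm hB hKa hKb
    (K.div_mem hKF hKG) H hH hsa hsb
  rw [aeval_X]
  refine h1.mono ?_
  have hD1 : (1 : ℝ) ≤ Module.finrank ℚ K := by
    exact_mod_cast (Module.finrank_pos : 0 < Module.finrank ℚ K)
  have hS1 : 1 ≤ 1 + Real.log (mdeg (x b) (x a)) + Real.log H := by
    have h8 : 0 ≤ Real.log (mdeg (x b) (x a) : ℝ) := Real.log_natCast_nonneg _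
    have h9 : 0 ≤ Real.log H := Real.log_nonneg hH
    linarith
  have hDS : (1 : ℝ) ≤ Module.finrank ℚ K * (1 + Real.log (mdeg (x b) (x a)) + Real.log H) :=
    one_le_mul_of_one_le_of_one_le hD1 hS1
  have hN1 : (1 : ℝ) ≤ ((N₀ + 1 : ℕ) : ℝ) := by
    push_cast
    linarith [(Nat.cast_nonneg N₀ : (0 : ℝ) ≤ N₀)]
  calc Cy * Module.finrank ℚ K * (1 + Real.log (mdeg (x b) (x a)) + Real.log H)
      = Cy * (Module.finrank ℚ K * (1 + Real.log (mdeg (x b) (x a)) + Real.log H)) := by ring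
    _ ≤ ((N₀ + 1 : ℕ) : ℝ) *
        (Module.finrank ℚ K * (1 + Real.log (mdeg (x b) (x a)) + Real.log H)) := by
        refine mul_le_mul_of_nonneg_right ?_ (by linarith)
        push_cast
        linarith
    _ ≤ _ := le_self_pow₀ (one_le_mul_of_one_le_of_one_le hN1 hDS) (by omega)

end Pool.Agent.LGO.TG
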