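import Mathlib
import Pool.Agent.LGO.TG.DimW
import Pool.Agent.LGO.TG.OneW
import Pool.Agent.LGO.TG.DegU
import Pool.Agent.LGO.TG.DegL
import Pool.Agent.LGO.TG.PairT

/-!
# LGO/TG: coordinates of different degrees

PROOF of `exists_oneG`.  `L`, `ψ` from `exists_funD`.  `δ_a = [L : k(ψ_a)] = d₁` and `δ_b = d₂` (`deg_le`, `le_deg`; `hmem`: `V` is the set of zeros of the polynomials over `Qb` which vanish on
it, `KClosed` and `FunD.zero`).  `exists_setupI` for `ψ a` and `ψ b` (transcendental because the coordinates are not constant), `exists_w` for `x = ψ a`, `y = ψ b`, `d₂ < d₁`: `w`, `p < q`, and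
`oneG_of_w`.
`pair_deg`: `pair_d` for `(b, a)` or `(a, b)`.
-/

namespace Pool.Agent.LGO.TG

open MvPolynomial Pool.Agent.Hhelper14.ZP Pool.Agent.Hhelper14.ZPL Pool.Agent.LGO
  Pool.Agent.LGO.ZV

variable {n : ℕ}

theorem exists_oneG {V : Set (Fin n → ℂ)} (hV : Pool.Agent.Hhelper14.ZPL.IsIrredClosed V)
    (hVk : KClosed V) (hdim : Pool.Agent.Hhelper14.ZPL.dim V = 1)
    (hnc : ∀ (k : Fin n) (c : ℂ), ∃ x ∈ V, x k ≠ c) {a b : Fin n} {d₁ d₂ : ℕ}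
    (h1 : HasDeg V a d₁) (h2 : HasDeg V b d₂) (hlt : d₂ < d₁) :
    ∃ (F G : MvPolynomial (Fin n) Qb) (p q : ℕ) (C : ℝ) (E : Set (Fin n → ℂ)), p < q ∧
      OneG V b a F G q p C E := by
  obtain ⟨L, hL, hA, ψ, hF⟩ := exists_funD hV hVk hdim
  have htr : ∀ k, Transcendental Qb (ψ k) := by
    intro k halg
    obtain ⟨c, hc⟩ := const_of_isAlgebraic halg
    have h3 : aeval ψ (X k - C c : MvPolynomial (Fin n) Qb) = 0 := by
      rw [map_sub, aeval_X, aeval_C, hc, sub_self]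
    obtain ⟨x, hx, hne⟩ := hnc k (c : ℂ)
    have h4 := (hF.zero _).1 h3 x hx
    rw [map_sub, aeval_X, aeval_C, sub_eq_zero] at h4
    exact hne h4
  have hmem : ∀ x : Fin n → ℂ, (∀ G : MvPolynomial (Fin n) Qb,
      aeval ψ G = 0 → (aeval x G : ℂ) = 0) → x ∈ V := by
    intro x hx
    refine kclosed_iff.1 hVk x fun G hG => hx G ((hF.zero G).2 fun y hy => ?_)
    exact (mem_vanishingIdeal_iff.1 hG) y hy
  have e1 : Module.finrank (IntermediateField.adjoin Qb {ψ a}) L = d₁ :=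
    le_antisymm (le_deg hF hmem (hnc a) h1) (deg_le hF (hnc a) h1)
  have e2 : Module.finrank (IntermediateField.adjoin Qb {ψ b}) L = d₂ :=
    le_antisymm (le_deg hF hmem (hnc b) h2) (deg_le hF (hnc b) h2)
  obtain ⟨A, b₁, hS₁⟩ := exists_setupI hF.dep ψ hF.gen (htr a)
  obtain ⟨A', b₂, hS₂⟩ := exists_setupI hF.dep ψ hF.gen (htr b)
  obtain ⟨w, p, q, hw, -, hpq, hr1, hr2⟩ := exists_w hF.dep hS₁ hS₂ (by rw [e1, e2]; exact hlt)
  obtain ⟨F, G, C, E, h⟩ := oneG_of_w hF hw (hpq.pos) hr1 hr2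
  exact ⟨F, G, p, q, C, E, hpq, h⟩

theorem pair_deg {V : Set (Fin n → ℂ)} (hV : Pool.Agent.Hhelper14.ZPL.IsIrredClosed V)
    (hVk : KClosed V) (hdim : Pool.Agent.Hhelper14.ZPL.dim V = 1)
    (hnc : ∀ (k : Fin n) (c : ℂ), ∃ x ∈ V, x k ≠ c) {a b : Fin n} {d₁ d₂ : ℕ}
    (h1 : HasDeg V a d₁) (h2 : HasDeg V b d₂) (hne : d₁ ≠ d₂) : PairHt V a b := by
  rcases lt_or_gt_of_ne hne with h | h
  · obtain ⟨F, G, p, q, C, E, hpq, h3⟩ := exists_oneG hV hVk hdim hnc h2 h1 h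
    exact (pair_d hV hVk hdim hnc h3 hpq).1
  · obtain ⟨F, G, p, q, C, E, hpq, h3⟩ := exists_oneG hV hVk hdim hnc h1 h2 h
    exact (pair_d hV hVk hdim hnc h3 hpq).2

end Pool.Agent.LGO.TG
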