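import Mathlib
import Pool.Agent.LGO.TG.DegD

/-!
# LGO/TG: the Zilber-Pink statement for curves of any genus with good pairs of coordinates

`Good V a b`: the coordinates `a`, `b` have different degrees, or their pole divisors differ by a torsion class and there is a point at infinity where exactly one
of them is infinite.
-/

namespace Pool.Agent.LGO.TG

open MvPolynomial Pool.Agent.Hhelper14.ZP Pool.Agent.Hhelper14.ZPL Pool.Agent.LGO
  Pool.Agent.LGO.ZF Pool.Agent.LGO.ZG Pool.Agent.LGO.ZV Pool.Agent.ZPE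

variable {n : ℕ}

/-- different degrees, or torsion and a point at infinity where exactly one of the coordinates is infinite -/
def Good (V : Set (Fin n → ℂ)) (a b : Fin n) : Prop :=
  (∃ d₁ d₂ : ℕ, HasDeg V a d₁ ∧ HasDeg V b d₂ ∧ d₁ ≠ d₂) ∨
    ((∃ (F G : MvPolynomial (Fin n) Qb) (p : ℕ) (C : ℝ) (E : Set (Fin n → ℂ)),
      TorG V a b F G p C E) ∧ (OneInfG V a b ∨ OneInfG V b a))

theorem TorG.symm {V : Set (Fin n → ℂ)} {a b : Fin n} {F G : MvPolynomial (Fin n) Qb} {p : ℕ}
    {C : ℝ} {E : Set (Fin n → ℂ)} (h : TorG V a b F G p C E) : TorG V b a G F p C E :=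
  ⟨h.2, h.1⟩

theorem pair_good {V : Set (Fin n → ℂ)} (hV : Pool.Agent.Hhelper14.ZPL.IsIrredClosed V)
    (hVk : KClosed V) (hdim : Pool.Agent.Hhelper14.ZPL.dim V = 1)
    (hnc : ∀ (k : Fin n) (c : ℂ), ∃ x ∈ V, x k ≠ c) {a b : Fin n} (h : Good V a b) :
    PairHt V a b := by
  rcases h with ⟨d₁, d₂, h1, h2, h3⟩ | ⟨⟨F, G, p, C, E, h1⟩, h2 | h2⟩
  · exact pair_deg hV hVk hdim hnc h1 h2 h3
  · exact (pair_t hV hVk hdim hnc h1 h2).1
  · exact (pair_t hV hVk hdim hnc h1.symm h2).2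

/-- **the Zilber-Pink statement**: curves of any genus such that every triple of coordinates contains a good pair and of two disjoint pairs one is good -/
theorem main_good {V : Set (Fin n → ℂ)} (hV : Pool.Agent.Hhelper14.ZPL.IsIrredClosed V)
    (hVk : KClosed V) (hdim : Pool.Agent.Hhelper14.ZPL.dim V = 1)
    (hnc : ∀ (k : Fin n) (c : ℂ), ∃ x ∈ V, x k ≠ c) (hC : CMAll)
    (halg : ∀ x : ℂ, IsCMVal x → IsAlgebraic ℚ x)
    (h1 : ∀ i : Fin 3 → Fin n, Function.Injective i →
      Good V (i 0) (i 1) ∨ Good V (i 0) (i 2) ∨ Good V (i 1) (i 2))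
    (h2 : ∀ i : Fin 4 → Fin n, Function.Injective i → Good V (i 0) (i 1) ∨ Good V (i 2) (i 3)) :
    FinAtypical V := by
  refine main_tied hV hVk hdim hnc hC halg (fun _ i hi => ?_) fun _ i hi => ?_
  · exact (h1 i hi).imp (pair_good hV hVk hdim hnc) fun h =>
      h.imp (pair_good hV hVk hdim hnc) (pair_good hV hVk hdim hnc)
  · exact (h2 i hi).imp (pair_good hV hVk hdim hnc) (pair_good hV hVk hdim hnc)

end Pool.Agent.LGO.TG
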